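import Pool.Agent.MP_ca1109_lc.Mpg.Defs

/-!
# Sums of functions of few coordinates
-/

namespace Pool.Agent.MP_ca1109_lc.Mpg

open Finset

variable {ι Ω R : Type*} [AddCommGroup R] {d : ℕ}

/- PROOF NOTES [MPG-A4].  All by `AddSubgroup.closure_induction` (resp.
`AddSubgroup.subset_closure` for generators).  `lowDeg_comp`: if `g` depends only on `T`, so does
`x ↦ g (fun i => β i (x i))`.  `lowDeg_diff`: for a generator `g` depending on `T`, `T.card ≤ d+1`:
if `V i = true` for all `i ∈ T` the function is `0`; otherwise it depends only on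
`T.filter (fun i => V i)`, a proper subset, of card `≤ d`.  `lowDeg_rep`: the same; in the first
case the sum is `m • g x = 0` in `ZMod m` (`sel V x y` agrees with `x` on `T`, `Finset.sum_const`,
`Fintype.card_fin`, `CharP.cast_eq_zero`).
`lowDeg_mul`: bilinear: fix `Q`, closure induction on `P`, for a generator `P` closure induction on
`Q`; a product of a function of `T` and one of `T'` depends on `T ∪ T'` (`DecidableEq ι`:
use `classical`).
-/

theorem a4_card {V : ι → Bool} {T : Finset ι} (hT : T.card ≤ d + 1) (h : ¬ ∀ i ∈ T, V i = true) :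
    (T.filter fun i => V i = true).card ≤ d := by
  have h1 : (T.filter fun i => V i = true) ⊂ T := by
    rw [Finset.filter_ssubset]
    push Not at h
    obtain ⟨i, hi, hV⟩ := h
    exact ⟨i, hi, hV⟩
  have h2 := Finset.card_lt_card h1
  omega

theorem a4_agree {V : ι → Bool} {T : Finset ι} {x x' : ι → Ω}
    (h : ∀ i ∈ ((T.filter fun i => V i = true : Finset ι) : Set ι), x i = x' i) (y : ι → Ω) :
    ∀ i ∈ (T : Set ι), sel V x y i = sel V x' y i := by
  intro i hi
  unfold sel
  by_cases hV : V i = true
  · rw [if_pos hV, if_pos hV]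
    apply h
    rw [Finset.mem_coe, Finset.mem_filter]
    exact ⟨hi, hV⟩
  · rw [if_neg hV, if_neg hV]

theorem lowDeg_induction {p : ((ι → Ω) → R) → Prop} {P : (ι → Ω) → R} (hP : P ∈ lowDeg ι Ω R d)
    (h1 : ∀ g : (ι → Ω) → R, ∀ T : Finset ι, T.card ≤ d → DependsOn g (T : Set ι) → p g)
    (h0 : p 0) (ha : ∀ f g, p f → p g → p (f + g)) (hn : ∀ f, p f → p (-f)) : p P := by
  unfold lowDeg at hP
  refine AddSubgroup.closure_induction (p := fun f _ => p f) ?_ h0
    (fun f g _ _ hf hg => ha f g hf hg) (fun f _ hf => hn f hf) hP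
  rintro g ⟨T, hT, hg⟩
  exact h1 g T hT hg

theorem junta_mem {g : (ι → Ω) → R} (T : Finset ι) (hT : T.card ≤ d) (hg : DependsOn g (T : Set ι)) :
    g ∈ lowDeg ι Ω R d := by
  exact AddSubgroup.subset_closure ⟨T, hT, hg⟩

theorem lowDeg_mono {d' : ℕ} (h : d ≤ d') {P : (ι → Ω) → R} (hP : P ∈ lowDeg ι Ω R d) :
    P ∈ lowDeg ι Ω R d' := by
  unfold lowDeg at hP ⊢
  refine AddSubgroup.closure_mono ?_ hP
  rintro g ⟨T, hT, hg⟩
  exact ⟨T, hT.trans h, hg⟩

theorem lowDeg_const (c : R) : (fun _ => c) ∈ lowDeg ι Ω R d := by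
  exact junta_mem ∅ (by simp) (fun x y _ => rfl)

theorem lowDeg_zero {P : (ι → Ω) → R} (hP : P ∈ lowDeg ι Ω R 0) (x y : ι → Ω) : P x = P y := by
  refine lowDeg_induction (p := fun P => P x = P y) hP ?_ rfl ?_ ?_
  · intro g T hT hg
    have hT0 : T = ∅ := Finset.card_eq_zero.1 (Nat.le_zero.1 hT)
    subst hT0
    exact hg (fun i hi => absurd hi (by simp))
  · intro f g hf hg
    rw [Pi.add_apply, Pi.add_apply, hf, hg]
  · intro f hf
    rw [Pi.neg_apply, Pi.neg_apply, hf]

theorem lowDeg_hom {R' : Type*} [AddCommGroup R'] (φ : R →+ R') {P : (ι → Ω) → R}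
    (hP : P ∈ lowDeg ι Ω R d) : (fun x => φ (P x)) ∈ lowDeg ι Ω R' d := by
  refine lowDeg_induction (p := fun P => (fun x => φ (P x)) ∈ lowDeg ι Ω R' d) hP ?_ ?_ ?_ ?_
  · intro g T hT hg
    refine junta_mem T hT (fun x y h => ?_)
    change φ (g x) = φ (g y)
    rw [hg h]
  · have h : (fun x : ι → Ω => φ ((0 : (ι → Ω) → R) x)) = 0 := by
      funext x
      simp
    rw [h]
    exact AddSubgroup.zero_mem _
  · intro f g hf hg
    have h : (fun x : ι → Ω => φ ((f + g) x)) = (fun x => φ (f x)) + (fun x => φ (g x)) := by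
      funext x
      simp
    rw [h]
    exact AddSubgroup.add_mem _ hf hg
  · intro f hf
    have h : (fun x : ι → Ω => φ ((-f) x)) = -(fun x => φ (f x)) := by
      funext x
      simp
    rw [h]
    exact AddSubgroup.neg_mem _ hf

theorem lowDeg_comp {Ω' : Type*} (β : ι → Ω' → Ω) {P : (ι → Ω) → R} (hP : P ∈ lowDeg ι Ω R d) :
    (fun x : ι → Ω' => P (fun i => β i (x i))) ∈ lowDeg ι Ω' R d := by
  refine lowDeg_induction
    (p := fun P => (fun x : ι → Ω' => P (fun i => β i (x i))) ∈ lowDeg ι Ω' R d) hP ?_ ?_ ?_ ?_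
  · intro g T hT hg
    refine junta_mem T hT (fun x y h => ?_)
    exact hg (fun i hi => by rw [h i hi])
  · exact AddSubgroup.zero_mem _
  · intro f g hf hg
    exact AddSubgroup.add_mem _ hf hg
  · intro f hf
    exact AddSubgroup.neg_mem _ hf

theorem lowDeg_diff {P : (ι → Ω) → R} (hP : P ∈ lowDeg ι Ω R (d + 1)) (V : ι → Bool)
    (y z : ι → Ω) : (fun x => P (sel V x y) - P (sel V x z)) ∈ lowDeg ι Ω R d := by
  refine lowDeg_induction
    (p := fun P => (fun x => P (sel V x y) - P (sel V x z)) ∈ lowDeg ι Ω R d) hP ?_ ?_ ?_ ?_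
  · intro g T hT hg
    by_cases h : ∀ i ∈ T, V i = true
    · have h0 : (fun x => g (sel V x y) - g (sel V x z)) = 0 := by
        funext x
        have h1 : g (sel V x y) = g (sel V x z) := hg (fun i hi => by
          unfold sel
          rw [if_pos (h i hi), if_pos (h i hi)])
        rw [h1, sub_self]
        rfl
      rw [h0]
      exact AddSubgroup.zero_mem _
    · refine junta_mem (T.filter fun i => V i = true) (a4_card hT h) (fun x x' hx => ?_)
      change g (sel V x y) - g (sel V x z) = g (sel V x' y) - g (sel V x' z)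
      rw [hg (a4_agree hx y), hg (a4_agree hx z)]
  · have h : (fun x => (0 : (ι → Ω) → R) (sel V x y) - (0 : (ι → Ω) → R) (sel V x z)) = 0 := by
      funext x
      simp
    rw [h]
    exact AddSubgroup.zero_mem _
  · intro f g hf hg
    have h : (fun x => (f + g) (sel V x y) - (f + g) (sel V x z)) =
        (fun x => f (sel V x y) - f (sel V x z)) + (fun x => g (sel V x y) - g (sel V x z)) := by
      funext x
      simp only [Pi.add_apply]
      abel
    rw [h]
    exact AddSubgroup.add_mem _ hf hg
  · intro f hf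
    have h : (fun x => (-f) (sel V x y) - (-f) (sel V x z)) =
        -(fun x => f (sel V x y) - f (sel V x z)) := by
      funext x
      simp only [Pi.neg_apply]
      abel
    rw [h]
    exact AddSubgroup.neg_mem _ hf

theorem lowDeg_rep {m : ℕ} {P : (ι → Ω) → ZMod m} (hP : P ∈ lowDeg ι Ω (ZMod m) (d + 1))
    (V : ι → Bool) (Y : Fin m → ι → Ω) :
    (fun x => ∑ l, P (sel V x (Y l))) ∈ lowDeg ι Ω (ZMod m) d := by
  refine lowDeg_induction
    (p := fun P => (fun x => ∑ l, P (sel V x (Y l))) ∈ lowDeg ι Ω (ZMod m) d) hP ?_ ?_ ?_ ?_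
  · intro g T hT hg
    by_cases h : ∀ i ∈ T, V i = true
    · have h0 : (fun x => ∑ l, g (sel V x (Y l))) = 0 := by
        funext x
        have h1 : ∀ l : Fin m, g (sel V x (Y l)) = g x := fun l => hg (fun i hi => by
          unfold sel
          rw [if_pos (h i hi)])
        rw [Finset.sum_congr rfl fun l _ => h1 l, Finset.sum_const, Finset.card_univ,
          Fintype.card_fin, nsmul_eq_mul, ZMod.natCast_self, zero_mul]
        rfl
      rw [h0]
      exact AddSubgroup.zero_mem _
    · refine junta_mem (T.filter fun i => V i = true) (a4_card hT h) (fun x x' hx => ?_)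
      change ∑ l, g (sel V x (Y l)) = ∑ l, g (sel V x' (Y l))
      exact Finset.sum_congr rfl fun l _ => hg (a4_agree hx (Y l))
  · have h : (fun x => ∑ l, (0 : (ι → Ω) → ZMod m) (sel V x (Y l))) = 0 := by
      funext x
      simp
    rw [h]
    exact AddSubgroup.zero_mem _
  · intro f g hf hg
    have h : (fun x => ∑ l, (f + g) (sel V x (Y l))) =
        (fun x => ∑ l, f (sel V x (Y l))) + (fun x => ∑ l, g (sel V x (Y l))) := by
      funext x
      simp only [Pi.add_apply, Finset.sum_add_distrib]
    rw [h]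
    exact AddSubgroup.add_mem _ hf hg
  · intro f hf
    have h : (fun x => ∑ l, (-f) (sel V x (Y l))) = -(fun x => ∑ l, f (sel V x (Y l))) := by
      funext x
      simp only [Pi.neg_apply, Finset.sum_neg_distrib]
    rw [h]
    exact AddSubgroup.neg_mem _ hf

theorem lowDeg_mul {S : Type*} [CommRing S] {d' : ℕ} {P Q : (ι → Ω) → S}
    (hP : P ∈ lowDeg ι Ω S d) (hQ : Q ∈ lowDeg ι Ω S d') :
    (fun x => P x * Q x) ∈ lowDeg ι Ω S (d + d') := by
  classical
  refine lowDeg_induction
    (p := fun P => (fun x => P x * Q x) ∈ lowDeg ι Ω S (d + d')) hP ?_ ?_ ?_ ?_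
  · intro g T hT hg
    refine lowDeg_induction
      (p := fun Q => (fun x => g x * Q x) ∈ lowDeg ι Ω S (d + d')) hQ ?_ ?_ ?_ ?_
    · intro g' T' hT' hg'
      refine junta_mem (T ∪ T') ((Finset.card_union_le _ _).trans (by omega))
        (fun x y h => ?_)
      change g x * g' x = g y * g' y
      rw [hg (fun i hi => h i (by
          rw [Finset.coe_union]
          exact Or.inl hi)), hg' (fun i hi => h i (by
          rw [Finset.coe_union]
          exact Or.inr hi))]
    · have h : (fun x => g x * (0 : (ι → Ω) → S) x) = 0 := by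
        funext x
        simp
      rw [h]
      exact AddSubgroup.zero_mem _
    · intro f f' hf hf'
      have h : (fun x => g x * (f + f') x) = (fun x => g x * f x) + (fun x => g x * f' x) := by
        funext x
        simp only [Pi.add_apply]
        ring
      rw [h]
      exact AddSubgroup.add_mem _ hf hf'
    · intro f hf
      have h : (fun x => g x * (-f) x) = -(fun x => g x * f x) := by
        funext x
        simp only [Pi.neg_apply]
        ring
      rw [h]
      exact AddSubgroup.neg_mem _ hf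
  · have h : (fun x => (0 : (ι → Ω) → S) x * Q x) = 0 := by
      funext x
      simp
    rw [h]
    exact AddSubgroup.zero_mem _
  · intro f f' hf hf'
    have h : (fun x => (f + f') x * Q x) = (fun x => f x * Q x) + (fun x => f' x * Q x) := by
      funext x
      simp only [Pi.add_apply]
      ring
    rw [h]
    exact AddSubgroup.add_mem _ hf hf'
  · intro f hf
    have h : (fun x => (-f) x * Q x) = -(fun x => f x * Q x) := by
      funext x
      simp only [Pi.neg_apply]
      ring
    rw [h]
    exact AddSubgroup.neg_mem _ hf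

theorem lowDeg_pow {S : Type*} [CommRing S] {P : (ι → Ω) → S} (hP : P ∈ lowDeg ι Ω S d) (k : ℕ) :
    (fun x => P x ^ k) ∈ lowDeg ι Ω S (k * d) := by
  induction k with
  | zero =>
    have h : (fun x => P x ^ 0) = fun _ => (1 : S) := by
      funext x
      rw [pow_zero]
    rw [h]
    exact lowDeg_const 1
  | succ k ih =>
    have h : (fun x => P x ^ (k + 1)) = fun x => P x ^ k * P x := by
      funext x
      rw [pow_succ]
    rw [h, Nat.succ_mul]
    exact lowDeg_mul ih hP

end Pool.Agent.MP_ca1109_lc.Mpg
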