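import Pool.Agent.MP_ca1109_lc.Mpg.G0
import Pool.Agent.MP_ca1109_lc.Mpg.A4
import Pool.Agent.MP_ca1109_lc.SymMain

/-!
# Degrees larger than the logarithm
-/

namespace Pool.Agent.MP_ca1109_lc.Mpg

open Pool.Agent.H66 Finset

/-- The words which are not prefixes of outputs of the generator (the number `2 ^ length` is given
in unary). -/
def hpre (d : ℕ → ℕ) (G : ℕ → List Bool → List Bool) (e K N : ℕ) (x : List Bool) : Bool :=
  ((seeds d e (rt K N)).filter fun s => agr x (G (rt K N) s) 0).isEmpty

theorem polyTime_hpre {d : ℕ → ℕ} (hd : PolyTime d) {G : ℕ → List Bool → List Bool}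
    (hG : PolyTime fun p : ℕ × List Bool => G p.1 p.2) (e K : ℕ) :
    PolyTime fun p : ℕ × List Bool => hpre d G e K p.1 p.2 := by
  unfold hpre
  have hm : PolyTime fun p : ℕ × List Bool => rt K p.1 := (polyTime_rt K).comp PolyTime.fst
  refine PolyTime.isEmpty.comp (PolyTime.filter (l := fun p : ℕ × List Bool =>
    seeds d e (rt K p.1)) (f := fun p s => agr p.2 (G (rt K p.1) s) 0)
    ((polyTime_seeds hd e).comp hm) ?_)
  exact polyTime_agr (PolyTime.snd.comp PolyTime.fst)
    (hG.comp ((hm.comp PolyTime.fst).pair PolyTime.snd)) (PolyTime.const 0)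

theorem hpre_iff (d : ℕ → ℕ) (G : ℕ → List Bool → List Bool) (e K N : ℕ) (x : List Bool) :
    hpre d G e K N x = true ↔
      ∀ s : List Bool, s.length = dcap d e (rt K N) → agr x (G (rt K N) s) 0 = false := by
  unfold hpre
  rw [List.isEmpty_iff, List.filter_eq_nil_iff]
  constructor
  · intro h s hs
    have := h s (((dbl_iterate _).2 s).2 hs)
    simpa using this
  · intro h s hs
    rw [h s (((dbl_iterate _).2 s).1 hs)]
    simp

theorem prob_eq_point {n : ℕ} (z : Fin n → Bool) :
    prob (fun y : Fin n → Bool => decide (y = z)) = 1 / (2 : ℝ) ^ n := by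
  unfold prob
  have h : (univ.filter fun y : Fin n → Bool => decide (y = z) = true) = {z} := by
    ext y
    simp
  rw [h, card_singleton]
  simp

/-- The test built from a circuit for the language. -/
theorem pre_test {d : ℕ → ℕ} {G : ℕ → List Bool → List Bool} {e m n K : ℕ} (hm : 0 < m)
    (hnm : n ≤ m) (hd : d m ≤ e * Nat.clog 2 m) (hmn : rt K (2 ^ n) = m)
    (D : Circuit n) (hD : ∀ x : Fin n → Bool, D.eval x = hpre d G e K (2 ^ n) (List.ofFn x)) :
    ∃ C : Circuit m, C.size ≤ D.size + 1 ∧
      DependsOn C.eval ((univ.filter fun i : Fin m => (i : ℕ) < n : Finset (Fin m)) : Set (Fin m)) ∧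
      1 - (2 : ℝ) ^ d m / 2 ^ n ≤ prob C.eval ∧
      ∀ s : Fin (d m) → Bool, C.eval (bits m (G m (List.ofFn s))) = false := by
  classical
  obtain ⟨C, hC1, hC2⟩ := compose hm D (fun (i : Fin n) (y : Fin m → Bool) => y (Fin.castLE hnm i))
    (Gets.refl true (bas m)) (fun i => Or.inl (inp_mem_bas (Fin.castLE hnm i)))
  have hdc : dcap d e m = d m := by
    unfold dcap
    rw [if_pos (decide_eq_true hd)]
  have hval : ∀ y : Fin m → Bool, C.eval y = true ↔ ∀ s : List Bool, s.length = d m →
      ¬ (fun i : Fin n => y (Fin.castLE hnm i)) = fun i : Fin n => (G m s).getD i false := by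
    intro y
    rw [hC2, hD, hpre_iff, hmn, hdc]
    have h1 : ∀ s : List Bool, agr (List.ofFn fun i : Fin n => y (Fin.castLE hnm i)) (G m s) 0 =
        true ↔ (fun i : Fin n => y (Fin.castLE hnm i)) = fun i : Fin n => (G m s).getD i false := by
      intro s
      rw [agr_iff]
      constructor
      · intro h
        funext i
        have h2 := h i (by simp)
        rw [zero_add, List.getD_eq_getElem _ _ (by simp), List.getElem_ofFn] at h2
        exact h2
      · intro h i hi
        rw [List.length_ofFn] at hi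
        rw [zero_add, List.getD_eq_getElem _ _ (by simpa using hi), List.getElem_ofFn]
        exact congrFun h ⟨i, hi⟩
    constructor
    · intro h s hs h2
      have h3 := h s hs
      rw [(h1 s).2 h2] at h3
      exact absurd h3 (by simp)
    · intro h s hs
      rw [Bool.eq_false_iff]
      exact fun h2 => h s hs ((h1 s).1 h2)
  refine ⟨C, by omega, ?_, ?_, ?_⟩
  · intro x y hxy
    rw [hC2, hC2]
    congr 1
    funext i
    exact hxy _ (by simp)
  · have h1 : prob (fun y => !(C.eval y)) ≤ (2 : ℝ) ^ d m / 2 ^ n := by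
      let L : List ((Fin m → Bool) → Bool) := (dbl^[d m] [[]]).map fun s y =>
        decide ((fun i : Fin n => y (Fin.castLE hnm i)) = fun i : Fin n => (G m s).getD i false)
      have h2 : prob (fun y => !(C.eval y)) ≤ prob fun y => L.any fun f => f y := by
        refine prob_mono fun y hy => ?_
        rw [Bool.not_eq_true', ← Bool.not_eq_true, hval] at hy
        push Not at hy
        obtain ⟨s, hs, hs'⟩ := hy
        rw [List.any_eq_true]
        exact ⟨_, List.mem_map_of_mem (((dbl_iterate (d m)).2 s).2 hs), decide_eq_true hs'⟩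
      refine h2.trans ((prob_any_le L).trans ?_)
      have h3 : ∀ p ∈ L.map prob, p ≤ 1 / (2 : ℝ) ^ n := by
        intro p hp
        rw [List.map_map, List.mem_map] at hp
        obtain ⟨s, -, rfl⟩ := hp
        have h4 := prob_marginal (fun i : Fin n => Fin.castLE hnm i) (Fin.castLE_injective hnm)
          (fun z : Fin n → Bool => decide (z = fun i : Fin n => (G m s).getD i false))
        rw [prob_eq_point] at h4
        exact h4.le
      refine (List.sum_le_card_nsmul _ _ h3).trans (le_of_eq ?_)
      rw [List.length_map, List.length_map, (dbl_iterate (d m)).1, nsmul_eq_mul]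
      push_cast
      ring
    have : Nonempty (Fin m → Bool) := ⟨fun _ => false⟩
    have h2 := prob_not (fun y : Fin m → Bool => C.eval y)
    have h3 : prob (fun y : Fin m → Bool => C.eval y) = prob C.eval := rfl
    rw [h3] at h2
    linarith
  · intro s
    have hlen : (List.ofFn s).length = d m := by simp
    rw [← Bool.not_eq_true, hval]
    intro h
    exact h (List.ofFn s) hlen rfl

theorem eventually_le_root (K : ℕ) : ∀ᶠ m : ℕ in Filter.atTop, (m + 1) ^ K < 2 ^ m := by
  have h1 : ∀ᶠ n : ℕ in Filter.atTop, (n : ℝ) ^ K / (2 : ℝ) ^ n < 1 / 2 :=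
    (tendsto_pow_const_div_const_pow_of_one_lt K (by norm_num : (1 : ℝ) < 2)).eventually
      (gt_mem_nhds (by norm_num))
  have h2 := (Filter.tendsto_add_atTop_nat 1).eventually h1
  filter_upwards [h2] with m hm
  rw [div_lt_iff₀ (by positivity), pow_succ] at hm
  have h3 : (((m + 1 : ℕ) : ℝ)) ^ K < 2 ^ m := by
    refine hm.trans_le (le_of_eq ?_)
    ring
  exact_mod_cast h3

/-- A generator for tests whose degree grows faster than the logarithm gives a hard language. -/
theorem hard_of_degree {g : ℕ → ℕ}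
    (hg : Filter.Tendsto (fun m : ℕ => (g m : ℝ) / Real.logb 2 m) Filter.atTop Filter.atTop)
    {q : ℕ} (hq : 2 ≤ q) {δ : ℝ} (hδ : δ < 1)
    (h : GenExists (fun m C => LowTest q (g m) 1 m C.eval) δ) : HardLanguage := by
  obtain ⟨d, G, hd, hG, hl, c, hc⟩ := h
  set e := ⌈c⌉₊ with he
  have hce : c ≤ e := Nat.le_ceil c
  set K := e + 1 with hK
  have hK0 : 0 < K := by omega
  refine ⟨hpre d G e K, polyTime_hpre hd hG e K, 1 / (2 * K), by positivity, ?_⟩
  have ht := tendsto_rt hK0
  obtain ⟨M, hM⟩ := exists_nat_gt (1 / (1 - δ))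
  filter_upwards [ht.eventually hc, ht.eventually (hg.eventually_ge_atTop (2 * K)),
    ht.eventually (eventually_le_root K),
    ht.eventually (Filter.eventually_ge_atTop 64), ht.eventually (Filter.eventually_ge_atTop M),
    Filter.eventually_ge_atTop (2 * K)]
    with n hn1 hn2 hn3 hn4 hn5 hn6 D hD
  obtain ⟨hn7, -, hn8⟩ := hn1
  obtain ⟨hr1, hr2⟩ := rt_spec hK0 (2 ^ n)
  set m := rt K (2 ^ n) with hm
  obtain ⟨hb1, hb2⟩ := seed_bounds (by omega : 1 ≤ m) hce hn7
  have hm0 : (0 : ℝ) < m := by exact_mod_cast (by omega : 0 < m)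
  have hnm : n ≤ m := by
    have h1 : 2 ^ n < 2 ^ m := hr2.trans hn3
    exact ((Nat.pow_lt_pow_iff_right (by norm_num)).1 h1).le
  have hgn : n ≤ g m := by
    have hlog : 0 < Real.logb 2 m := Real.logb_pos (by norm_num) (by exact_mod_cast (by omega : 1 < m))
    rw [le_div_iff₀ hlog] at hn2
    have h1 : (2 : ℝ) ^ n ≤ (m : ℝ) ^ (2 * K) := by
      have h2 : (2 : ℕ) ^ n ≤ m ^ (2 * K) := by
        refine hr2.le.trans ?_
        rw [pow_mul]
        refine Nat.pow_le_pow_left ?_ K
        nlinarith
      exact_mod_cast h2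
    have h2 := Real.logb_le_logb_of_le (by norm_num : (1 : ℝ) < 2) (by positivity) h1
    rw [Real.logb_pow, Real.logb_pow, Real.logb_self_eq_one (by norm_num), mul_one] at h2
    push_cast at h2
    exact_mod_cast h2.trans hn2
  have hsize : m ≤ D.size := by
    by_contra hcon
    obtain ⟨C, hC1, hC2, hC3, hC4⟩ := pre_test (by omega : 0 < m) hnm hb1 hm.symm D hD
    have hlow : LowTest q (g m) 1 m C.eval := by
      have : Fact (1 < q) := ⟨hq⟩
      refine ⟨fun _ x => if C.eval x then 1 else 0, fun v => decide (v 0 = 1), fun _ => ?_,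
        fun x => ?_⟩
      · refine junta_mem (univ.filter fun i : Fin m => (i : ℕ) < n) ?_ ?_
        · refine le_trans ?_ hgn
          have h1 : (univ.filter fun i : Fin m => (i : ℕ) < n).card ≤ (range n).card := by
            refine Finset.card_le_card_of_injOn (fun i => (i : ℕ)) ?_ ?_
            · intro i hi
              simpa using hi
            · intro i _ j _ hij
              exact Fin.ext hij
          simpa using h1
        · intro x y hxy
          show (if C.eval x = true then (1 : ZMod q) else 0) = if C.eval y = true then 1 else 0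
          rw [hC2 hxy]
      · cases hx : C.eval x <;> simp [hx]
    have h1 := hn8 C hlow (by omega)
    unfold advantage at h1
    have h2 : prob (fun s : Fin (d m) → Bool => C.eval (bits m (G m (List.ofFn s)))) = 0 := by
      unfold prob
      rw [Finset.filter_false_of_mem, Finset.card_empty, Nat.cast_zero, zero_div]
      intro s _ hs
      have h3 : C.eval (bits m (G m (List.ofFn s))) = true := hs
      rw [hC4 s] at h3
      exact absurd h3 (by simp)
    rw [h2, zero_sub, abs_neg] at h1
    have h3 := (le_abs_self _).trans h1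
    have h4 : (2 : ℝ) ^ d m / 2 ^ n ≤ 1 / m := by
      rw [div_le_div_iff₀ (by positivity) hm0, one_mul]
      have h5 : 2 ^ d m * m ≤ 2 ^ n := by
        calc 2 ^ d m * m ≤ m ^ e * m := Nat.mul_le_mul_right _ hb2
          _ = m ^ K := by rw [hK, pow_succ]
          _ ≤ 2 ^ n := hr1
      exact_mod_cast h5
    have h5 : 1 / (m : ℝ) < 1 - δ := by
      have h6 : 0 < 1 - δ := by linarith
      have h7 : 1 / (1 - δ) < m := hM.trans_le (by exact_mod_cast hn5)
      rw [div_lt_iff₀ h6] at h7
      rw [div_lt_iff₀ hm0]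
      linarith
    have h6 : 1 - (2 : ℝ) ^ d m / 2 ^ n ≤ prob C.eval := hC3
    have h7 : prob (fun x : Fin m → Bool => C.eval x) = prob C.eval := rfl
    rw [h7] at h3
    linarith
  have h1 : 2 ^ n < (2 * D.size) ^ K := by
    refine hr2.trans_le (Nat.pow_le_pow_left ?_ K)
    omega
  by_contra hcon
  rw [not_le] at hcon
  have h2 : ((2 * D.size : ℕ) : ℝ) ^ K ≤ (2 : ℝ) ^ n := by
    have h3 : ((2 * D.size : ℕ) : ℝ) ≤ 2 * (2 : ℝ) ^ (1 / (2 * K) * n : ℝ) := by
      push_cast
      linarith
    calc ((2 * D.size : ℕ) : ℝ) ^ K ≤ (2 * (2 : ℝ) ^ (1 / (2 * K) * n : ℝ)) ^ K :=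
          pow_le_pow_left₀ (Nat.cast_nonneg _) h3 K
      _ = (2 : ℝ) ^ ((K : ℝ) + n / 2) := by
          rw [mul_pow, ← Real.rpow_natCast ((2 : ℝ) ^ (1 / (2 * K) * n : ℝ)) K,
            ← Real.rpow_mul (by norm_num), ← Real.rpow_natCast 2 K,
            ← Real.rpow_add (by norm_num)]
          congr 1
          have : (K : ℝ) ≠ 0 := by positivity
          field_simp
      _ ≤ (2 : ℝ) ^ (n : ℝ) := by
          refine Real.rpow_le_rpow_of_exponent_le (by norm_num) ?_
          have : (2 * K : ℝ) ≤ n := by exact_mod_cast hn6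
          linarith
      _ = (2 : ℝ) ^ n := Real.rpow_natCast _ _
  have h3 : (2 * D.size) ^ K ≤ 2 ^ n := by exact_mod_cast h2
  omega

end Pool.Agent.MP_ca1109_lc.Mpg
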