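import Pool.Agent.MP_ca1109_lc.Mpg.Defs

/-!
# Tests: functions of low-degree polynomials modulo `m`, circuits with modular gates, programs
-/

namespace Pool.Agent.MP_ca1109_lc.Mpg

open Pool.Agent.H66 Finset

/-- `T` is a function of `k` functions with values in `ZMod m`, each of which is a sum of functions
of at most `d` input bits. -/
def LowTest (m d k n : ℕ) (T : (Fin n → Bool) → Bool) : Prop :=
  ∃ (P : Fin k → (Fin n → Bool) → ZMod m) (F : (Fin k → ZMod m) → Bool),
    (∀ i, P i ∈ lowDeg (Fin n) Bool (ZMod m) d) ∧ ∀ x, T x = F (fun i => P i x)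

/-- Functions computed in depth at most `h` by gates which apply an arbitrary function to the number
of ones modulo `q` of arbitrarily many inputs, and by arbitrary gates of fan-in `k`. -/
inductive ModCirc (q k : ℕ) {n : ℕ} : ℕ → ((Fin n → Bool) → Bool) → Prop
  | input (i : Fin n) : ModCirc q k 0 (fun x => x i)
  | up {h : ℕ} {f : (Fin n → Bool) → Bool} (hf : ModCirc q k h f) : ModCirc q k (h + 1) f
  | mod {h L : ℕ} (f : Fin L → (Fin n → Bool) → Bool) (hf : ∀ j, ModCirc q k h (f j))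
      (A : ZMod q → Bool) : ModCirc q k (h + 1) (fun x => A (∑ j, if f j x then 1 else 0))
  | loc {h : ℕ} (f : Fin k → (Fin n → Bool) → Bool) (hf : ∀ j, ModCirc q k h (f j))
      (F : (Fin k → Bool) → Bool) : ModCirc q k (h + 1) (fun x => F (fun j => f j x))

/-- `T` is a function of `k` circuits of depth at most `h`; the `i`-th circuit has gates modulo
`q i` and gates of fan-in `k`. -/
def CircTest (k h : ℕ) (q : Fin k → ℕ) (n : ℕ) (T : (Fin n → Bool) → Bool) : Prop :=
  ∃ (f : Fin k → (Fin n → Bool) → Bool) (F : (Fin k → Bool) → Bool),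
    (∀ i, ModCirc (q i) k h (f i)) ∧ ∀ x, T x = F (fun i => f i x)

/-- The value of a program over the group `Γ`: the instruction `(i, g₀, g₁)` contributes the factor
`g₁` if the input bit `x i` is `true` and `g₀` otherwise. -/
def progVal {Γ : Type*} [Group Γ] {n : ℕ} (l : List (Fin n × Γ × Γ)) (x : Fin n → Bool) : Γ :=
  (l.map fun t => if x t.1 then t.2.2 else t.2.1).prod

/-- `T` is computed by a program over `Γ` of arbitrary length. -/
def ProgTest (Γ : Type*) [Group Γ] (n : ℕ) (T : (Fin n → Bool) → Bool) : Prop :=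
  ∃ (l : List (Fin n × Γ × Γ)) (A : Γ → Bool), ∀ x, T x = A (progVal l x)

/-- There is a generator with logarithmic seeds, computable in polynomial time, which fools all
tests in `𝒯 n` with error at most `ε` for all large `n`. -/
def LogGen (𝒯 : ∀ n : ℕ, ((Fin n → Bool) → Bool) → Prop) (ε : ℝ) : Prop :=
  ∃ (D : ℕ → ℕ) (G : ℕ → List Bool → List Bool),
    PolyTime D ∧ PolyTime (fun p : ℕ × List Bool => G p.1 p.2) ∧
    (∀ n s, s.length = D n → (G n s).length = n) ∧
    ∃ c : ℝ, ∀ᶠ n : ℕ in Filter.atTop, (D n : ℝ) ≤ c * Real.logb 2 n ∧ D n < n ∧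
      ∀ T, 𝒯 n T →
        |prob (fun s : Fin (D n) → Bool => T (bits n (G n (List.ofFn s)))) - prob T| ≤ ε

theorem LogGen.mono {𝒯 𝒯' : ∀ n : ℕ, ((Fin n → Bool) → Bool) → Prop} {ε : ℝ} (h : LogGen 𝒯 ε)
    (h' : ∀ n T, 𝒯' n T → 𝒯 n T) : LogGen 𝒯' ε := by
  obtain ⟨D, G, hD, hG, hl, c, hc⟩ := h
  refine ⟨D, G, hD, hG, hl, c, ?_⟩
  filter_upwards [hc] with n hn
  exact ⟨hn.1, hn.2.1, fun T hT => hn.2.2 T (h' n T hT)⟩

end Pool.Agent.MP_ca1109_lc.Mpg
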