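import Pool.Agent.MP_ca1109_lc.Mpg.Defs

/-!
# Expectations with respect to product weights: basic rules
-/

namespace Pool.Agent.MP_ca1109_lc.Mpg

open Finset

variable {ι Ω : Type*} [Fintype ι] [DecidableEq ι] [Fintype Ω] {w u v : ι → Ω → ℝ}

/- PROOF NOTES [MPG-A1]. All are elementary finite sums.
`sum_wt`: `∑ x : ι → Ω, ∏ i, w i (x i) = ∏ i, ∑ a, w i a = 1` (`Finset.prod_univ_sum`,
`Fintype.piFinset_univ`).  `norm_ex_sq_le`: Cauchy-Schwarz,
`(∑ wt * ‖f‖)^2 ≤ (∑ wt) * (∑ wt * ‖f‖^2)` (or `inner_le_nnorm_mul_nnorm`, or expand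
`0 ≤ rex w (‖f x - ex w f‖^2) = rex w ‖f‖^2 - ‖ex w f‖^2`, see `rex_var`; `Complex.normSq_sub`).
-/

theorem wt_nonneg (hw : IsPM w) (x : ι → Ω) : 0 ≤ wt w x := by
  exact Finset.prod_nonneg fun i _ => hw.nonneg i _

theorem sum_wt (hw : IsPM w) : ∑ x, wt w x = 1 := by
  have h := Finset.prod_univ_sum (fun _ : ι => (univ : Finset Ω)) (fun i a => w i a)
  rw [Fintype.piFinset_univ] at h
  unfold wt
  rw [← h]
  exact Finset.prod_eq_one fun i _ => hw.sum_one i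

theorem ex_const (hw : IsPM w) (c : ℂ) : ex w (fun _ => c) = c := by
  unfold ex
  rw [← Finset.sum_mul, ← Complex.ofReal_sum, sum_wt hw, Complex.ofReal_one, one_mul]

theorem rex_const (hw : IsPM w) (c : ℝ) : rex w (fun _ => c) = c := by
  unfold rex
  rw [← Finset.sum_mul, sum_wt hw, one_mul]

theorem ex_add (w : ι → Ω → ℝ) (f g : (ι → Ω) → ℂ) :
    ex w (fun x => f x + g x) = ex w f + ex w g := by
  unfold ex
  rw [← Finset.sum_add_distrib]
  exact Finset.sum_congr rfl fun x _ => by ring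

theorem ex_sub (w : ι → Ω → ℝ) (f g : (ι → Ω) → ℂ) :
    ex w (fun x => f x - g x) = ex w f - ex w g := by
  unfold ex
  rw [← Finset.sum_sub_distrib]
  exact Finset.sum_congr rfl fun x _ => by ring

theorem ex_mul_left (w : ι → Ω → ℝ) (c : ℂ) (f : (ι → Ω) → ℂ) :
    ex w (fun x => c * f x) = c * ex w f := by
  unfold ex
  rw [Finset.mul_sum]
  exact Finset.sum_congr rfl fun x _ => by ring

theorem ex_mul_right (w : ι → Ω → ℝ) (c : ℂ) (f : (ι → Ω) → ℂ) :
    ex w (fun x => f x * c) = ex w f * c := by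
  unfold ex
  rw [Finset.sum_mul]
  exact Finset.sum_congr rfl fun x _ => by ring

theorem ex_sum {J : Type*} (w : ι → Ω → ℝ) (s : Finset J) (F : J → (ι → Ω) → ℂ) :
    ex w (fun x => ∑ j ∈ s, F j x) = ∑ j ∈ s, ex w (F j) := by
  unfold ex
  rw [Finset.sum_comm]
  exact Finset.sum_congr rfl fun x _ => by rw [Finset.mul_sum]

theorem rex_add (w : ι → Ω → ℝ) (f g : (ι → Ω) → ℝ) :
    rex w (fun x => f x + g x) = rex w f + rex w g := by
  unfold rex
  rw [← Finset.sum_add_distrib]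
  exact Finset.sum_congr rfl fun x _ => by ring

theorem rex_sub (w : ι → Ω → ℝ) (f g : (ι → Ω) → ℝ) :
    rex w (fun x => f x - g x) = rex w f - rex w g := by
  unfold rex
  rw [← Finset.sum_sub_distrib]
  exact Finset.sum_congr rfl fun x _ => by ring

theorem rex_mul_left (w : ι → Ω → ℝ) (c : ℝ) (f : (ι → Ω) → ℝ) :
    rex w (fun x => c * f x) = c * rex w f := by
  unfold rex
  rw [Finset.mul_sum]
  exact Finset.sum_congr rfl fun x _ => by ring

theorem rex_mono (hw : IsPM w) {f g : (ι → Ω) → ℝ} (h : ∀ x, f x ≤ g x) : rex w f ≤ rex w g := by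
  exact Finset.sum_le_sum fun x _ => mul_le_mul_of_nonneg_left (h x) (wt_nonneg hw x)

theorem rex_nonneg (hw : IsPM w) {f : (ι → Ω) → ℝ} (h : ∀ x, 0 ≤ f x) : 0 ≤ rex w f := by
  exact Finset.sum_nonneg fun x _ => mul_nonneg (wt_nonneg hw x) (h x)

theorem norm_ex_le (hw : IsPM w) {f : (ι → Ω) → ℂ} {g : (ι → Ω) → ℝ} (h : ∀ x, ‖f x‖ ≤ g x) :
    ‖ex w f‖ ≤ rex w g := by
  refine (norm_sum_le _ _).trans (Finset.sum_le_sum fun x _ => ?_)
  rw [norm_mul, Complex.norm_real, Real.norm_of_nonneg (wt_nonneg hw x)]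
  exact mul_le_mul_of_nonneg_left (h x) (wt_nonneg hw x)

theorem ex_ofReal (w : ι → Ω → ℝ) (g : (ι → Ω) → ℝ) :
    ex w (fun x => (g x : ℂ)) = ((rex w g : ℝ) : ℂ) := by
  unfold ex rex
  push_cast
  rfl

theorem ex_conj (w : ι → Ω → ℝ) (f : (ι → Ω) → ℂ) :
    ex w (fun x => (starRingEnd ℂ) (f x)) = (starRingEnd ℂ) (ex w f) := by
  unfold ex
  rw [map_sum]
  exact Finset.sum_congr rfl fun x _ => by rw [map_mul, Complex.conj_ofReal]

/-- The variance. -/
theorem rex_var (hw : IsPM w) (f : (ι → Ω) → ℂ) (μ : ℂ) :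
    rex w (fun x => ‖f x - μ‖ ^ 2) =
      rex w (fun x => ‖f x‖ ^ 2) - ‖ex w f‖ ^ 2 + ‖ex w f - μ‖ ^ 2 := by
  have h1 : ∀ z : ℂ, ‖z - μ‖ ^ 2 = ‖z‖ ^ 2 + ‖μ‖ ^ 2 - 2 * (z * (starRingEnd ℂ) μ).re := by
    intro z
    rw [Complex.sq_norm, Complex.sq_norm, Complex.sq_norm, Complex.normSq_sub]
  have h2 : rex w (fun x => ‖f x - μ‖ ^ 2) =
      rex w (fun x => ‖f x‖ ^ 2 + ‖μ‖ ^ 2 - 2 * (f x * (starRingEnd ℂ) μ).re) := by
    congr 1
    funext x
    exact h1 (f x)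
  have h3 : rex w (fun x => (f x * (starRingEnd ℂ) μ).re) = (ex w f * (starRingEnd ℂ) μ).re := by
    rw [← ex_mul_right]
    unfold rex ex
    rw [Complex.re_sum]
    exact Finset.sum_congr rfl fun x _ => by rw [Complex.re_ofReal_mul]
  rw [h2, rex_sub w (fun x => ‖f x‖ ^ 2 + ‖μ‖ ^ 2) (fun x => 2 * (f x * (starRingEnd ℂ) μ).re),
    rex_add w (fun x => ‖f x‖ ^ 2) (fun _ => ‖μ‖ ^ 2), rex_const hw,
    rex_mul_left w 2 (fun x => (f x * (starRingEnd ℂ) μ).re), h3, h1 (ex w f)]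
  ring

theorem norm_ex_sq_le (hw : IsPM w) (f : (ι → Ω) → ℂ) :
    ‖ex w f‖ ^ 2 ≤ rex w (fun x => ‖f x‖ ^ 2) := by
  have h1 := rex_var hw f (ex w f)
  have h2 : 0 ≤ rex w (fun x => ‖f x - ex w f‖ ^ 2) := rex_nonneg hw fun x => by positivity
  rw [sub_self, norm_zero] at h1
  nlinarith

theorem rex_sq_le (hw : IsPM w) (g : (ι → Ω) → ℝ) :
    (rex w g) ^ 2 ≤ rex w (fun x => g x ^ 2) := by
  have h := norm_ex_sq_le hw (fun x => (g x : ℂ))
  rw [ex_ofReal] at h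
  simp only [Complex.norm_real, Real.norm_eq_abs, sq_abs] at h
  exact h

theorem isPM_mix {t : ℝ} (h0 : 0 ≤ t) (h1 : t ≤ 1) (hu : IsPM u) (hv : IsPM v) :
    IsPM (mix t u v) := by
  refine ⟨fun i a => ?_, fun i => ?_⟩
  · exact add_nonneg (mul_nonneg (by linarith) (hu.nonneg i a)) (mul_nonneg h0 (hv.nonneg i a))
  · unfold mix
    rw [Finset.sum_add_distrib, ← Finset.mul_sum, ← Finset.mul_sum, hu.sum_one, hv.sum_one]
    ring

theorem isPM_ber {ρ : ℝ} (h0 : 0 ≤ ρ) (h1 : ρ ≤ 1) : IsPM (ber ι ρ) := by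
  refine ⟨fun i a => ?_, fun i => ?_⟩
  · unfold ber
    cases a
    · simp only [Bool.false_eq_true, if_false]
      linarith
    · simp only [if_true]
      exact h0
  · unfold ber
    rw [Fintype.sum_bool]
    simp

theorem isPM_uni [Nonempty Ω] : IsPM (uni ι Ω) := by
  refine ⟨fun i a => ?_, fun i => ?_⟩
  · unfold uni
    positivity
  · unfold uni
    have h : (Fintype.card Ω : ℝ) ≠ 0 := by exact_mod_cast Fintype.card_ne_zero
    rw [Finset.sum_const, Finset.card_univ, nsmul_eq_mul]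
    field_simp

theorem ex_uni (f : (ι → Ω) → ℂ) : ex (uni ι Ω) f = av f := by
  unfold ex av wt uni
  rw [Finset.sum_div]
  refine Finset.sum_congr rfl fun x _ => ?_
  rw [Finset.prod_const, Finset.card_univ, Fintype.card_pi, Finset.prod_const, Finset.card_univ]
  push_cast
  rw [one_div, inv_pow, div_eq_mul_inv, mul_comm]

/-- Fubini. -/
theorem ex_comm {κ Ω' : Type*} [Fintype κ] [DecidableEq κ] [Fintype Ω'] (w : ι → Ω → ℝ)
    (w' : κ → Ω' → ℝ) (F : (ι → Ω) → (κ → Ω') → ℂ) :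
    ex w (fun x => ex w' (fun y => F x y)) = ex w' (fun y => ex w (fun x => F x y)) := by
  unfold ex
  simp_rw [Finset.mul_sum]
  rw [Finset.sum_comm]
  exact Finset.sum_congr rfl fun y _ => Finset.sum_congr rfl fun x _ => by ring

theorem continuous_ex_mix (u v : ι → Ω → ℝ) (f : (ι → Ω) → ℂ) :
    Continuous fun t : ℝ => ex (mix t u v) f := by
  unfold ex wt mix
  refine continuous_finsetSum _ fun x _ => Continuous.mul ?_ continuous_const
  refine Complex.continuous_ofReal.comp (continuous_finsetProd _ fun i _ => ?_)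
  fun_prop

end Pool.Agent.MP_ca1109_lc.Mpg
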