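import Pool.Agent.MP_ca1109_lc.Mpg.A1

/-!
# Products of alphabets, images, mixtures
-/

namespace Pool.Agent.MP_ca1109_lc.Mpg

open Finset

variable {ι Ω : Type*} [Fintype ι] [DecidableEq ι] [Fintype Ω]

/- PROOF NOTES [MPG-A2].
`ex_prod`: `Equiv.arrowProdEquivProdArrow` and `Finset.sum_product`/`Fintype.sum_prod_type`;
`wt` of the product is the product of the `wt`s (`Finset.prod_mul_distrib`).
`ex_push`: `∑ a, (∏ W i (a i)) f (g ∘ a) = ∑ z, f z * ∑ a with g ∘ a = z, ∏ W i (a i)`
(`Finset.sum_fiberwise` / write `f (g∘a) = ∑ z, if g ∘ a = z then f z else 0`, swap) and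
`∑ a, ∏ i, (if g i (a i) = z i then W i (a i) else 0) = ∏ i, ∑ b, if g i b = z i then W i b else 0`
(`Finset.prod_univ_sum`).
`ex_mix`: apply `ex_prod` twice to write the right side as `ex W (fun t => f (sel ..))` for the
alphabet `Bool × (Ω × Ω)` and the weights `ber b * (v i x * u i y)`, then `ex_push` with
`g i (b, x, y) = if b then x else y`: the weight of `z` is
`ρ v i z * (∑ u) + (1 - ρ) u i z * (∑ v) = mix ρ u v i z`.
(Alternatively: for fixed `V` show `ex v (hV u f V) = ex (fun i a => if V i then v i a else u i a) f`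
(`ex_hV_gen`), then expand `∏ i, (ρ v + (1-ρ) u)` by `Finset.prod_univ_sum`.)
-/

theorem ex_prod {A B : Type*} [Fintype A] [Fintype B] (w : ι → A → ℝ) (w' : ι → B → ℝ)
    (F : (ι → A) → (ι → B) → ℂ) :
    ex (fun i (p : A × B) => w i p.1 * w' i p.2)
      (fun z => F (fun i => (z i).1) (fun i => (z i).2)) = ex w (fun x => ex w' (fun y => F x y)) := by
  classical
  unfold ex wt
  let e : (ι → A × B) ≃ (ι → A) × (ι → B) :=
    { toFun := fun z => (fun i => (z i).1, fun i => (z i).2)
      invFun := fun p i => (p.1 i, p.2 i)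
      left_inv := fun _ => rfl
      right_inv := fun _ => rfl }
  have h1 : ∑ z : ι → A × B, ((∏ i, w i (z i).1 * w' i (z i).2 : ℝ) : ℂ) *
      F (fun i => (z i).1) (fun i => (z i).2) =
      ∑ p : (ι → A) × (ι → B), ((∏ i, w i (p.1 i) * w' i (p.2 i) : ℝ) : ℂ) * F p.1 p.2 :=
    Fintype.sum_equiv e _ _ fun z => rfl
  refine h1.trans ?_
  rw [Fintype.sum_prod_type]
  refine Finset.sum_congr rfl fun x _ => ?_
  rw [Finset.mul_sum]
  refine Finset.sum_congr rfl fun y _ => ?_
  rw [Finset.prod_mul_distrib, Complex.ofReal_mul, mul_assoc]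

/-- Images of product weights. -/
theorem ex_push {A : Type*} [Fintype A] [DecidableEq Ω] (W : ι → A → ℝ) (g : ι → A → Ω)
    (f : (ι → Ω) → ℂ) :
    ex W (fun a => f (fun i => g i (a i))) =
      ex (fun i b => ∑ a, if g i a = b then W i a else 0) f := by
  classical
  unfold ex wt
  have h1 : ∀ z : ι → Ω, (∏ i, ∑ a, (if g i a = z i then W i a else 0)) =
      ∑ a : ι → A, (if (fun i => g i (a i)) = z then ∏ i, W i (a i) else 0) := by
    intro z
    rw [Finset.prod_univ_sum, Fintype.piFinset_univ]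
    refine Finset.sum_congr rfl fun a _ => ?_
    split_ifs with h
    · refine Finset.prod_congr rfl fun i _ => ?_
      rw [if_pos (congrFun h i)]
    · have h2 : ∃ i, ¬ g i (a i) = z i := by
        by_contra hc
        push Not at hc
        exact h (funext hc)
      obtain ⟨i, hi⟩ := h2
      exact Finset.prod_eq_zero (Finset.mem_univ i) (if_neg hi)
  have h2 : ∀ z : ι → Ω, ((∏ i, ∑ a, (if g i a = z i then W i a else 0) : ℝ) : ℂ) * f z =
      ∑ a : ι → A, (if (fun i => g i (a i)) = z then
        ((∏ i, W i (a i) : ℝ) : ℂ) * f (fun i => g i (a i)) else 0) := by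
    intro z
    rw [h1, Complex.ofReal_sum, Finset.sum_mul]
    refine Finset.sum_congr rfl fun a _ => ?_
    split_ifs with h
    · rw [h]
    · rw [Complex.ofReal_zero, zero_mul]
  simp only [h2]
  rw [Finset.sum_comm]
  refine Finset.sum_congr rfl fun a _ => ?_
  rw [Finset.sum_ite_eq]
  rw [if_pos (Finset.mem_univ _)]

theorem ex_hV_gen {u v : ι → Ω → ℝ} (hu : IsPM u) (hv : IsPM v) (f : (ι → Ω) → ℂ) (V : ι → Bool) :
    ex v (hV u f V) = ex (fun i a => if V i then v i a else u i a) f := by
  classical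
  have h1 : ex v (hV u f V) = ex (fun i (p : Ω × Ω) => v i p.1 * u i p.2)
      (fun z => f (fun i => if V i then (z i).1 else (z i).2)) :=
    (ex_prod v u (fun x y => f (sel V x y))).symm
  rw [h1, ex_push (fun i (p : Ω × Ω) => v i p.1 * u i p.2)
    (fun i (p : Ω × Ω) => if V i then p.1 else p.2) f]
  congr 1
  funext i b
  rw [Fintype.sum_prod_type]
  by_cases hV' : V i = true
  · simp only [hV', if_true]
    rw [Finset.sum_eq_single b]
    · simp only [if_true]
      rw [← Finset.mul_sum, hu.sum_one, mul_one]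
    · intro c _ hc
      simp [hc]
    · intro h
      exact absurd (Finset.mem_univ b) h
  · simp only [hV', Bool.false_eq_true, if_false]
    rw [Finset.sum_comm, Finset.sum_eq_single b]
    · simp only [if_true]
      rw [← Finset.sum_mul, hv.sum_one, one_mul]
    · intro c _ hc
      simp [hc]
    · intro h
      exact absurd (Finset.mem_univ b) h

theorem ex_hV {u : ι → Ω → ℝ} (hu : IsPM u) (f : (ι → Ω) → ℂ) (V : ι → Bool) :
    ex u (hV u f V) = ex u f := by
  rw [ex_hV_gen hu hu]
  congr 1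
  funext i a
  exact ite_self _

/-- Mixtures are averages over random subsets. -/
theorem ex_mix {u v : ι → Ω → ℝ} (hu : IsPM u) (hv : IsPM v) (ρ : ℝ) (f : (ι → Ω) → ℂ) :
    ex (mix ρ u v) f = ex (ber ι ρ) (fun V => ex v (hV u f V)) := by
  classical
  have h1 : ∀ V : ι → Bool, ex v (hV u f V) = ex (fun i a => if V i then v i a else u i a) f :=
    fun V => ex_hV_gen hu hv f V
  simp only [h1]
  unfold ex wt
  simp only [Finset.mul_sum]
  rw [Finset.sum_comm]
  refine Finset.sum_congr rfl fun a _ => ?_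
  have h2 : (∏ i, mix ρ u v i (a i)) =
      ∑ V : ι → Bool, ((∏ i, ber ι ρ i (V i)) * ∏ i, (if V i then v i (a i) else u i (a i))) := by
    have h3 : ∀ i, mix ρ u v i (a i) =
        ∑ b : Bool, ber ι ρ i b * (if b then v i (a i) else u i (a i)) := by
      intro i
      rw [Fintype.sum_bool]
      unfold mix ber
      simp only [if_true, Bool.false_eq_true, if_false]
      ring
    simp only [h3]
    rw [Finset.prod_univ_sum, Fintype.piFinset_univ]
    exact Finset.sum_congr rfl fun V _ => Finset.prod_mul_distrib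
  rw [h2, Complex.ofReal_sum, Finset.sum_mul]
  refine Finset.sum_congr rfl fun V _ => ?_
  rw [Complex.ofReal_mul, mul_assoc]

theorem norm_hV_le {u : ι → Ω → ℝ} (hu : IsPM u) {f : (ι → Ω) → ℂ} (hf : ∀ x, ‖f x‖ ≤ 1)
    (V : ι → Bool) (x : ι → Ω) : ‖hV u f V x‖ ≤ 1 := by
  have h1 : ‖ex u (fun y => f (sel V x y))‖ ≤ rex u (fun _ => 1) :=
    norm_ex_le hu fun y => hf _
  rw [rex_const hu] at h1
  exact h1

end Pool.Agent.MP_ca1109_lc.Mpg
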