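import Pool.Agent.MP_ca1109_lc.Mpg.A1

/-!
# The mean square of partial averages over random subsets
-/

namespace Pool.Agent.MP_ca1109_lc.Mpg

open Finset

variable {Ω : Type*} [Fintype Ω]

/- PROOF NOTES [MPG-A3].  Induction on `n`, splitting off the coordinate `0`.
`ex_succ`/`rex_succ`: `Fin.consEquiv`/`Fin.consPiEquiv`: `∑ x : Fin (n+1) → Ω, φ x =
∑ a, ∑ x' : Fin n → Ω, φ (Fin.cons a x')` and `Fin.prod_univ_succ`.
For `es_bound`: let `u' i = u i.succ`, `f_a x' = f (Fin.cons a x')`, `g x' = ∑ a, u 0 a * f_a x'`.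
With `V = Fin.cons b V'`, `x = Fin.cons a x'`:
`hV u f V x = hV u' f_a V' x'` if `b = true`, and `= hV u' g V' x'` if `b = false`
(`sel (cons b V') (cons a x') (cons a' y') = cons (if b then a else a') (sel V' x' y')`).
So the left side `Φ_{n+1}(f) = (1-ρ) Φ_n(g) + ρ ∑ a, u 0 a * Φ_n(f_a)`
`≤ (1-ρ) [(1-ρ) |Ef|² + ρ E'|g|²] + ρ ∑ a, u 0 a [(1-ρ) |E' f_a|² + ρ E'|f_a|²]`, where `E'` is the
expectation over `u'`; it remains that
`E'|g|² + ∑ a, u 0 a |E' f_a|² ≤ |E f|² + E|f|²`, i.e.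
`0 ≤ E |f - g(x') - E' f_a + E f|²` (expand; every cross term is one of the four quantities:
E f conj(g) = E'|g|², E f conj(E' f_a) = ∑ a u|E'f_a|², E f conj(Ef) = |Ef|²,
E g conj(E' f_a) = |Ef|², ...), multiplied by `ρ (1-ρ) ≥ 0`.
A slicker way for the last inequality: for fixed weights, `∑ a, u 0 a |E' f_a - E f|² ≤
∑ a, u 0 a E'|f_a - g|²` (Jensen, `norm_ex_sq_le`, as `E'(f_a - g) = E' f_a - E f`), and both sides
are variances: left `= ∑ a u|E' f_a|² - |Ef|²`, right `= E|f|² - E'|g|²` (for fixed `x'`: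
`∑ a, u 0 a |f_a x' - g x'|² = ∑ a, u 0 a |f_a x'|² - |g x'|²`).
-/

omit [Fintype Ω] in
private theorem a3_wt_cons {n : ℕ} (w : Fin (n + 1) → Ω → ℝ) (a : Ω) (x : Fin n → Ω) :
    wt w (Fin.cons a x : Fin (n + 1) → Ω) = w 0 a * wt (fun i : Fin n => w i.succ) x := by
  unfold wt
  rw [Fin.prod_univ_succ]
  simp only [Fin.cons_zero, Fin.cons_succ]

private theorem a3_sum_cons {M : Type*} [AddCommMonoid M] {n : ℕ} (φ : (Fin (n + 1) → Ω) → M) :
    ∑ x, φ x = ∑ a, ∑ x : Fin n → Ω, φ (Fin.cons a x) := by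
  have h := Fintype.sum_equiv (Fin.consEquiv (fun _ : Fin (n + 1) => Ω))
    (fun p => φ (Fin.cons p.1 p.2)) φ (fun p => rfl)
  rw [← h, Fintype.sum_prod_type]

theorem ex_succ {n : ℕ} (w : Fin (n + 1) → Ω → ℝ) (f : (Fin (n + 1) → Ω) → ℂ) :
    ex w f = ∑ a, (w 0 a : ℂ) * ex (fun i : Fin n => w i.succ) (fun x => f (Fin.cons a x)) := by
  unfold ex
  rw [a3_sum_cons]
  refine Finset.sum_congr rfl fun a _ => ?_
  rw [Finset.mul_sum]
  refine Finset.sum_congr rfl fun x _ => ?_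
  rw [a3_wt_cons]
  push_cast
  ring

theorem rex_succ {n : ℕ} (w : Fin (n + 1) → Ω → ℝ) (f : (Fin (n + 1) → Ω) → ℝ) :
    rex w f = ∑ a, w 0 a * rex (fun i : Fin n => w i.succ) (fun x => f (Fin.cons a x)) := by
  unfold rex
  rw [a3_sum_cons]
  refine Finset.sum_congr rfl fun a _ => ?_
  rw [Finset.mul_sum]
  refine Finset.sum_congr rfl fun x _ => ?_
  rw [a3_wt_cons]
  ring

private theorem a3_rex_sum {ι : Type*} [Fintype ι] [DecidableEq ι] {J Ω' : Type*} [Fintype J]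
    [Fintype Ω'] (w : ι → Ω' → ℝ) (c : J → ℝ) (F : J → (ι → Ω') → ℝ) :
    rex w (fun x => ∑ a, c a * F a x) = ∑ a, c a * rex w (F a) := by
  unfold rex
  simp only [Finset.mul_sum]
  rw [Finset.sum_comm]
  refine Finset.sum_congr rfl fun a _ => Finset.sum_congr rfl fun x _ => ?_
  ring

private theorem a3_var_real (p x : Ω → ℝ) (hp : ∑ a, p a = 1) :
    ∑ a, p a * (x a - ∑ b, p b * x b) ^ 2 = ∑ a, p a * x a ^ 2 - (∑ b, p b * x b) ^ 2 := by
  set m := ∑ b, p b * x b with hm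
  have h1 : ∀ a, p a * (x a - m) ^ 2 = p a * x a ^ 2 - 2 * m * (p a * x a) + m ^ 2 * p a := by
    intro a; ring
  simp only [h1]
  rw [Finset.sum_add_distrib, Finset.sum_sub_distrib, ← Finset.mul_sum, ← Finset.mul_sum, hp, ← hm]
  ring

private theorem a3_var (p : Ω → ℝ) (z : Ω → ℂ) (hp : ∑ a, p a = 1) :
    ∑ a, p a * ‖z a - ∑ b, (p b : ℂ) * z b‖ ^ 2 =
      ∑ a, p a * ‖z a‖ ^ 2 - ‖∑ b, (p b : ℂ) * z b‖ ^ 2 := by
  have hre : (∑ b, (p b : ℂ) * z b).re = ∑ b, p b * (z b).re := by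
    rw [Complex.re_sum]
    exact Finset.sum_congr rfl fun b _ => Complex.re_ofReal_mul _ _
  have him : (∑ b, (p b : ℂ) * z b).im = ∑ b, p b * (z b).im := by
    rw [Complex.im_sum]
    exact Finset.sum_congr rfl fun b _ => Complex.im_ofReal_mul _ _
  have hn : ∀ w : ℂ, ‖w‖ ^ 2 = w.re ^ 2 + w.im ^ 2 := by
    intro w
    rw [Complex.sq_norm, Complex.normSq_apply]
    ring
  simp only [hn, Complex.sub_re, Complex.sub_im, hre, him, mul_add, Finset.sum_add_distrib]
  rw [a3_var_real p (fun a => (z a).re) hp, a3_var_real p (fun a => (z a).im) hp]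
  ring

omit [Fintype Ω] in
private theorem a3_sel {n : ℕ} (b : Bool) (V : Fin n → Bool) (a a' : Ω) (x y : Fin n → Ω) :
    sel (Fin.cons b V : Fin (n + 1) → Bool) (Fin.cons a x) (Fin.cons a' y) =
      (Fin.cons (if b then a else a') (sel V x y) : Fin (n + 1) → Ω) := by
  funext i
  refine Fin.cases ?_ (fun i => ?_) i
  · unfold sel
    simp only [Fin.cons_zero]
  · unfold sel
    simp only [Fin.cons_succ]

theorem es_bound {n : ℕ} {u : Fin n → Ω → ℝ} (hu : IsPM u) {ρ : ℝ} (h0 : 0 ≤ ρ) (h1 : ρ ≤ 1)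
    (f : (Fin n → Ω) → ℂ) :
    rex (ber (Fin n) ρ) (fun V => rex u (fun x => ‖hV u f V x‖ ^ 2)) ≤
      (1 - ρ) * ‖ex u f‖ ^ 2 + ρ * rex u (fun x => ‖f x‖ ^ 2) := by
  induction n with
  | zero =>
    have hf : ∀ x y : Fin 0 → Ω, f x = f y := fun x y => by rw [Subsingleton.elim x y]
    by_cases hne : Nonempty (Fin 0 → Ω)
    · obtain ⟨d⟩ := hne
      have h2 : f = fun _ => f d := funext fun x => hf x d
      have h3 : ∀ V x, hV u f V x = f d := by
        intro V x
        unfold hV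
        have h4 : (fun y => f (sel V x y)) = fun _ => f d := funext fun y => hf _ _
        rw [h4, ex_const hu]
      simp only [h3]
      rw [rex_const hu, rex_const (isPM_ber h0 h1)]
      rw [h2]
      rw [ex_const hu, rex_const hu]
      apply le_of_eq
      ring
    · exact absurd ⟨fun i => Fin.elim0 i⟩ hne
  | succ n ih =>
    have hu' : IsPM (fun i : Fin n => u i.succ) := ⟨fun i a => hu.nonneg _ _, fun i => hu.sum_one _⟩
    set u' : Fin n → Ω → ℝ := fun i => u i.succ with hu'def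
    set g : (Fin n → Ω) → ℂ := fun x => ∑ a, (u 0 a : ℂ) * f (Fin.cons a x) with hg
    have hp1 : ∑ a, u 0 a = 1 := hu.sum_one 0
    have hp1c : ∑ a, (u 0 a : ℂ) = 1 := by exact_mod_cast hp1
    have hp0 : ∀ a, 0 ≤ u 0 a := hu.nonneg 0
    -- the partial averages
    have hT : ∀ (V : Fin n → Bool) (a : Ω) (x : Fin n → Ω),
        hV u f (Fin.cons true V) (Fin.cons a x) = hV u' (fun x => f (Fin.cons a x)) V x := by
      intro V a x
      unfold hV
      rw [ex_succ]
      have h2 : ∀ a', ex (fun i : Fin n => u i.succ) (fun y => f (sel (Fin.cons true V)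
          (Fin.cons a x) (Fin.cons a' y))) = ex u' (fun y => f (Fin.cons a (sel V x y))) := by
        intro a'
        congr 1
        funext y
        rw [a3_sel, if_pos rfl]
      rw [Finset.sum_congr rfl fun a' _ => by rw [h2 a'], ← Finset.sum_mul, hp1c, one_mul]
    have hF : ∀ (V : Fin n → Bool) (a : Ω) (x : Fin n → Ω),
        hV u f (Fin.cons false V) (Fin.cons a x) = hV u' g V x := by
      intro V a x
      unfold hV
      rw [ex_succ]
      have h2 : ∀ a', (u 0 a' : ℂ) * ex (fun i : Fin n => u i.succ) (fun y => f (sel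
          (Fin.cons false V) (Fin.cons a x) (Fin.cons a' y))) =
          ex u' (fun y => (u 0 a' : ℂ) * f (Fin.cons a' (sel V x y))) := by
        intro a'
        rw [ex_mul_left]
        congr 2
        funext y
        rw [a3_sel, if_neg Bool.false_ne_true]
      rw [Finset.sum_congr rfl fun a' _ => h2 a', ← ex_sum]
    have hL : rex (ber (Fin (n + 1)) ρ) (fun V => rex u (fun x => ‖hV u f V x‖ ^ 2)) =
        (1 - ρ) * rex (ber (Fin n) ρ) (fun V => rex u' (fun x => ‖hV u' g V x‖ ^ 2)) +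
        ρ * ∑ a, u 0 a * rex (ber (Fin n) ρ) (fun V => rex u' (fun x =>
          ‖hV u' (fun x => f (Fin.cons a x)) V x‖ ^ 2)) := by
      rw [rex_succ, Fintype.sum_bool]
      have e1 : ber (Fin (n + 1)) ρ 0 true = ρ := by simp [ber]
      have e2 : ber (Fin (n + 1)) ρ 0 false = 1 - ρ := by simp [ber]
      have e3 : (fun i : Fin n => ber (Fin (n + 1)) ρ i.succ) = ber (Fin n) ρ := rfl
      rw [e1, e2, e3]
      have e4 : (fun V : Fin n → Bool => rex u (fun x => ‖hV u f (Fin.cons true V) x‖ ^ 2)) =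
          fun V => ∑ a, u 0 a * rex u' (fun x => ‖hV u' (fun x => f (Fin.cons a x)) V x‖ ^ 2) := by
        funext V
        rw [rex_succ]
        refine Finset.sum_congr rfl fun a _ => ?_
        congr 2
        funext x
        rw [hT]
      have e5 : (fun V : Fin n → Bool => rex u (fun x => ‖hV u f (Fin.cons false V) x‖ ^ 2)) =
          fun V => rex u' (fun x => ‖hV u' g V x‖ ^ 2) := by
        funext V
        rw [rex_succ]
        have e6 : ∀ a, u 0 a * rex (fun i : Fin n => u i.succ)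
            (fun x => ‖hV u f (Fin.cons false V) (Fin.cons a x)‖ ^ 2) =
            u 0 a * rex u' (fun x => ‖hV u' g V x‖ ^ 2) := by
          intro a
          congr 2
          funext x
          rw [hF]
        rw [Finset.sum_congr rfl fun a _ => e6 a, ← Finset.sum_mul, hp1, one_mul]
      rw [e4, e5, a3_rex_sum]
      ring
    have hE : ex u f = ex u' g := by
      rw [ex_succ, hg, ex_sum]
      refine Finset.sum_congr rfl fun a _ => ?_
      rw [ex_mul_left]
    have hE2 : ex u' g = ∑ a, (u 0 a : ℂ) * ex u' (fun x => f (Fin.cons a x)) := by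
      rw [← hE, ex_succ]
    have hR : rex u (fun x => ‖f x‖ ^ 2) =
        ∑ a, u 0 a * rex u' (fun x => ‖f (Fin.cons a x)‖ ^ 2) := by
      rw [rex_succ]
    rw [hL, hE, hR]
    have i1 := ih hu' g
    have i2 : ∀ a, u 0 a * rex (ber (Fin n) ρ) (fun V => rex u' (fun x =>
          ‖hV u' (fun x => f (Fin.cons a x)) V x‖ ^ 2)) ≤
        u 0 a * ((1 - ρ) * ‖ex u' (fun x => f (Fin.cons a x))‖ ^ 2 +
          ρ * rex u' (fun x => ‖f (Fin.cons a x)‖ ^ 2)) := fun a =>
      mul_le_mul_of_nonneg_left (ih hu' (fun x => f (Fin.cons a x))) (hp0 a)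
    have i3 := Finset.sum_le_sum fun a (_ : a ∈ (Finset.univ : Finset Ω)) => i2 a
    have i4 : ∑ a, u 0 a * ((1 - ρ) * ‖ex u' (fun x => f (Fin.cons a x))‖ ^ 2 +
          ρ * rex u' (fun x => ‖f (Fin.cons a x)‖ ^ 2)) =
        (1 - ρ) * ∑ a, u 0 a * ‖ex u' (fun x => f (Fin.cons a x))‖ ^ 2 +
          ρ * ∑ a, u 0 a * rex u' (fun x => ‖f (Fin.cons a x)‖ ^ 2) := by
      rw [Finset.mul_sum, Finset.mul_sum, ← Finset.sum_add_distrib]
      exact Finset.sum_congr rfl fun a _ => by ring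
    rw [i4] at i3
    -- the variances
    have v1 : ∑ a, u 0 a * ‖ex u' (fun x => f (Fin.cons a x)) - ex u' g‖ ^ 2 =
        ∑ a, u 0 a * ‖ex u' (fun x => f (Fin.cons a x))‖ ^ 2 - ‖ex u' g‖ ^ 2 := by
      rw [hE2]
      exact a3_var (fun a => u 0 a) (fun a => ex u' (fun x => f (Fin.cons a x))) hp1
    have v2 : ∑ a, u 0 a * rex u' (fun x => ‖f (Fin.cons a x) - g x‖ ^ 2) =
        ∑ a, u 0 a * rex u' (fun x => ‖f (Fin.cons a x)‖ ^ 2) - rex u' (fun x => ‖g x‖ ^ 2) := by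
      rw [← a3_rex_sum, ← a3_rex_sum, ← rex_sub]
      congr 1
      funext x
      exact a3_var (fun a => u 0 a) (fun a => f (Fin.cons a x)) hp1
    have v3 : ∑ a, u 0 a * ‖ex u' (fun x => f (Fin.cons a x)) - ex u' g‖ ^ 2 ≤
        ∑ a, u 0 a * rex u' (fun x => ‖f (Fin.cons a x) - g x‖ ^ 2) := by
      refine Finset.sum_le_sum fun a _ => mul_le_mul_of_nonneg_left ?_ (hp0 a)
      rw [← ex_sub]
      exact norm_ex_sq_le hu' _
    rw [v1, v2] at v3
    set A := ∑ a, u 0 a * ‖ex u' (fun x => f (Fin.cons a x))‖ ^ 2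
    set B := ∑ a, u 0 a * rex u' (fun x => ‖f (Fin.cons a x)‖ ^ 2)
    set μ := ‖ex u' g‖ ^ 2
    set T := rex u' (fun x => ‖g x‖ ^ 2)
    have j1 := mul_le_mul_of_nonneg_left i1 (sub_nonneg.2 h1)
    have j2 := mul_le_mul_of_nonneg_left i3 h0
    have j3 := mul_nonneg (mul_nonneg h0 (sub_nonneg.2 h1)) (sub_nonneg.2 v3)
    nlinarith [j1, j2, j3]

end Pool.Agent.MP_ca1109_lc.Mpg
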