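import Pool.Agent.MP_ca1109_lc.Mpg.A2
import Pool.Agent.MP_ca1109_lc.Mpg.A4

/-!
# Moments of partial averages of phases are averages of phases of smaller degree
-/

namespace Pool.Agent.MP_ca1109_lc.Mpg

open Finset

variable {ι Ω : Type*} [Fintype ι] [DecidableEq ι] [Fintype Ω]

/- PROOF NOTES [MPG-A5].  `ph m = ZMod.stdAddChar`; `AddChar.map_add_eq_mul`,
`AddChar.map_neg_eq_conj`, `AddChar.norm_apply`; `ph m (a - b) = ph m a * conj (ph m b)`.
With `f x = ph m (P x)`: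
(1) `(‖hV u f V x‖ ^ 2 : ℂ) = hV u f V x * conj (hV u f V x) =
  ex u (fun y => ex u (fun z => ph m (P (sel V x y) - P (sel V x z))))`.
So `(rex w ‖hV‖² : ℂ) = ex w (..) = ex u (fun y => ex u (fun z => ex w (fun x => ph m (D x))))`
(`ex_ofReal`, `ex_comm` twice), `D = fun x => P (sel V x y) - P (sel V x z) ∈ lowDeg d`
(`lowDeg_diff`), for `w = N` and `w = M`; subtract, `norm_ex_le` twice with the bound `ω`
(`rex_const`).
(2) `(hV u f V x) ^ m = (∑ y, wt u y * ph m (P (sel V x y))) ^ m =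
  ∑ Y : Fin m → ι → Ω, ∏ l, wt u (Y l) * ph m (P (sel V x (Y l)))` (`Fintype.sum_pow`)
`= ∑ Y, (∏ l, wt u (Y l)) * ph m (∑ l, P (sel V x (Y l)))`; hence
`ex w (hV ^ m) = ∑ Y, (∏ l, wt u (Y l)) * ex w (fun x => ph m (Q_Y x))`, `Q_Y ∈ lowDeg d`
(`lowDeg_rep`), and `∑ Y, ∏ l, wt u (Y l) = (∑ y, wt u y) ^ m = 1`.
-/

theorem norm_ph (m : ℕ) [NeZero m] (z : ZMod m) : ‖ph m z‖ = 1 := by
  exact AddChar.norm_apply _ _

theorem ph_add (m : ℕ) [NeZero m] (a b : ZMod m) : ph m (a + b) = ph m a * ph m b := by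
  exact AddChar.map_add_eq_mul _ _ _

theorem ph_sub (m : ℕ) [NeZero m] (a b : ZMod m) :
    ph m (a - b) = ph m a * (starRingEnd ℂ) (ph m b) := by
  unfold ph
  rw [sub_eq_add_neg, AddChar.map_add_eq_mul, AddChar.map_neg_eq_conj]

theorem ph_sum (m : ℕ) [NeZero m] {J : Type*} (s : Finset J) (a : J → ZMod m) :
    ph m (∑ j ∈ s, a j) = ∏ j ∈ s, ph m (a j) := by
  classical
  induction s using Finset.induction_on with
  | empty =>
    rw [Finset.sum_empty, Finset.prod_empty]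
    exact AddChar.map_zero_eq_one _
  | insert j s hj ih => rw [Finset.sum_insert hj, Finset.prod_insert hj, ph_add, ih]

theorem ph_zero (m : ℕ) [NeZero m] : ph m 0 = 1 := by
  exact AddChar.map_zero_eq_one _

theorem cmp_sq {m : ℕ} [NeZero m] {d : ℕ} {P : (ι → Ω) → ZMod m}
    (hP : P ∈ lowDeg ι Ω (ZMod m) (d + 1)) {u N M : ι → Ω → ℝ} (hu : IsPM u) {ω : ℝ}
    (hω : ∀ Q ∈ lowDeg ι Ω (ZMod m) d,
      ‖ex N (fun x => ph m (Q x)) - ex M (fun x => ph m (Q x))‖ ≤ ω) (V : ι → Bool) :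
    |rex N (fun x => ‖hV u (fun x => ph m (P x)) V x‖ ^ 2) -
      rex M (fun x => ‖hV u (fun x => ph m (P x)) V x‖ ^ 2)| ≤ ω := by
  have key : ∀ w : ι → Ω → ℝ,
      ((rex w (fun x => ‖hV u (fun x => ph m (P x)) V x‖ ^ 2) : ℝ) : ℂ) =
      ex u (fun y => ex u (fun z => ex w (fun x => ph m (P (sel V x y) - P (sel V x z))))) := by
    intro w
    have h1 : ∀ x, ((‖hV u (fun x => ph m (P x)) V x‖ ^ 2 : ℝ) : ℂ) =
        ex u (fun y => ex u (fun z => ph m (P (sel V x y) - P (sel V x z)))) := by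
      intro x
      have h2 : ((‖hV u (fun x => ph m (P x)) V x‖ ^ 2 : ℝ) : ℂ) =
          hV u (fun x => ph m (P x)) V x * (starRingEnd ℂ) (hV u (fun x => ph m (P x)) V x) := by
        rw [Complex.mul_conj, Complex.normSq_eq_norm_sq]
      rw [h2]
      unfold hV
      rw [← ex_mul_right]
      congr 1
      funext y
      rw [← ex_conj, ← ex_mul_left]
      congr 1
      funext z
      rw [ph_sub]
    rw [← ex_ofReal]
    simp only [h1]
    rw [ex_comm]
    congr 1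
    funext y
    rw [ex_comm]
  have h3 : ((rex N (fun x => ‖hV u (fun x => ph m (P x)) V x‖ ^ 2) -
      rex M (fun x => ‖hV u (fun x => ph m (P x)) V x‖ ^ 2) : ℝ) : ℂ) =
      ex u (fun y => ex u (fun z => ex N (fun x => ph m (P (sel V x y) - P (sel V x z))) -
        ex M (fun x => ph m (P (sel V x y) - P (sel V x z))))) := by
    rw [Complex.ofReal_sub, key, key, ← ex_sub]
    congr 1
    funext y
    rw [← ex_sub]
  rw [← Real.norm_eq_abs, ← Complex.norm_real, h3]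
  have h4 : ∀ y, ‖ex u (fun z => ex N (fun x => ph m (P (sel V x y) - P (sel V x z))) -
        ex M (fun x => ph m (P (sel V x y) - P (sel V x z))))‖ ≤ ω := by
    intro y
    have h5 := norm_ex_le hu (f := fun z => ex N (fun x => ph m (P (sel V x y) - P (sel V x z))) -
        ex M (fun x => ph m (P (sel V x y) - P (sel V x z)))) (g := fun _ => ω)
      (fun z => hω _ (lowDeg_diff hP V y z))
    rwa [rex_const hu] at h5
  have h6 := norm_ex_le hu (f := fun y => ex u (fun z =>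
      ex N (fun x => ph m (P (sel V x y) - P (sel V x z))) -
        ex M (fun x => ph m (P (sel V x y) - P (sel V x z))))) (g := fun _ => ω) h4
  rwa [rex_const hu] at h6

theorem cmp_pow {m : ℕ} [NeZero m] {d : ℕ} {P : (ι → Ω) → ZMod m}
    (hP : P ∈ lowDeg ι Ω (ZMod m) (d + 1)) {u N M : ι → Ω → ℝ} (hu : IsPM u) {ω : ℝ}
    (hω : ∀ Q ∈ lowDeg ι Ω (ZMod m) d,
      ‖ex N (fun x => ph m (Q x)) - ex M (fun x => ph m (Q x))‖ ≤ ω) (V : ι → Bool) :
    ‖ex N (fun x => hV u (fun x => ph m (P x)) V x ^ m) -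
      ex M (fun x => hV u (fun x => ph m (P x)) V x ^ m)‖ ≤ ω := by
  classical
  have hpow : ∀ x, hV u (fun x => ph m (P x)) V x ^ m =
      ∑ Y : Fin m → ι → Ω, ((∏ l, wt u (Y l) : ℝ) : ℂ) * ph m (∑ l, P (sel V x (Y l))) := by
    intro x
    unfold hV ex
    rw [Fintype.sum_pow]
    refine Finset.sum_congr rfl fun Y _ => ?_
    rw [Finset.prod_mul_distrib, Complex.ofReal_prod, ph_sum]
  have key : ∀ w : ι → Ω → ℝ, ex w (fun x => hV u (fun x => ph m (P x)) V x ^ m) =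
      ∑ Y : Fin m → ι → Ω, ((∏ l, wt u (Y l) : ℝ) : ℂ) *
        ex w (fun x => ph m (∑ l, P (sel V x (Y l)))) := by
    intro w
    simp only [hpow]
    rw [ex_sum]
    exact Finset.sum_congr rfl fun Y _ => ex_mul_left _ _ _
  have hone : ∑ Y : Fin m → ι → Ω, ∏ l, wt u (Y l) = 1 := by
    rw [← Fintype.sum_pow, sum_wt hu, one_pow]
  rw [key, key, ← Finset.sum_sub_distrib]
  refine (norm_sum_le _ _).trans ?_
  have h1 : ∀ Y : Fin m → ι → Ω, ‖((∏ l, wt u (Y l) : ℝ) : ℂ) *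
        ex N (fun x => ph m (∑ l, P (sel V x (Y l)))) - ((∏ l, wt u (Y l) : ℝ) : ℂ) *
        ex M (fun x => ph m (∑ l, P (sel V x (Y l))))‖ ≤ (∏ l, wt u (Y l)) * ω := by
    intro Y
    rw [← mul_sub, norm_mul, Complex.norm_real, Real.norm_eq_abs,
      abs_of_nonneg (Finset.prod_nonneg fun l _ => wt_nonneg hu _)]
    exact mul_le_mul_of_nonneg_left (hω _ (lowDeg_rep hP V Y))
      (Finset.prod_nonneg fun l _ => wt_nonneg hu _)
  refine (Finset.sum_le_sum fun Y _ => h1 Y).trans ?_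
  rw [← Finset.sum_mul, hone, one_mul]

end Pool.Agent.MP_ca1109_lc.Mpg
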