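import Pool.Agent.MP_ca1109_lc.Mpg.A1

/-!
# Mixtures
-/

namespace Pool.Agent.MP_ca1109_lc.Mpg

open Finset

variable {ι Ω : Type*} [Fintype Ω]

/- PROOF NOTES [MPG-A6].
`mix_mix`: `(1-ρ) u + ρ ((1-κ) u + κ v) = (1 - ρκ) u + ρκ v`.
`mix_rev`: `ν' i a = (M i a - (1-η') N i a) / η'`, `N = mix (c η') M ν`.  Nonnegative:
`M - (1-η')((1-cη')M + cη'ν) = M (η' + cη' - cη'²) - (1-η') c η' ν ≥
c (η' + cη' - cη'²) - cη'(1-η') = c²η'(1-η') + cη'² ≥ 0`, as `M ≥ c` and `ν ≤ 1`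
(`le_one_of_isPM`); here `c ≤ 1`.
-/

theorem mix_mix (ρ κ : ℝ) (u v : ι → Ω → ℝ) : mix ρ u (mix κ u v) = mix (ρ * κ) u v := by
  funext i a
  unfold mix
  ring

theorem mix_zero (u v : ι → Ω → ℝ) : mix 0 u v = u := by
  funext i a
  unfold mix
  ring

theorem le_one_of_isPM {w : ι → Ω → ℝ} (hw : IsPM w) (i : ι) (a : Ω) : w i a ≤ 1 := by
  rw [← hw.sum_one i]
  exact Finset.single_le_sum (f := fun a => w i a) (fun b _ => hw.nonneg i b) (Finset.mem_univ a)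

theorem mix_atoms {M ν : ι → Ω → ℝ} (hM : IsPM M) (hν : IsPM ν) {c t : ℝ} (h0 : 0 ≤ t)
    (ht : t ≤ 1 / 2) (hc : ∀ i a, c ≤ M i a) (i : ι) (a : Ω) : c / 2 ≤ mix t M ν i a := by
  unfold mix
  have h1 := hM.nonneg i a
  have h2 := hν.nonneg i a
  have h3 := hc i a
  have h4 : 0 ≤ t * ν i a := mul_nonneg h0 h2
  have h5 : M i a / 2 ≤ (1 - t) * M i a := by nlinarith
  linarith

theorem mix_rev {M ν : ι → Ω → ℝ} (hM : IsPM M) (hν : IsPM ν) {c η' : ℝ} (hc : 0 < c)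
    (hc1 : c ≤ 1) (h0 : 0 < η') (h1 : η' ≤ 1) (hMc : ∀ i a, c ≤ M i a) :
    ∃ ν' : ι → Ω → ℝ, IsPM ν' ∧ M = mix η' (mix (c * η') M ν) ν' := by
  have hkey : ∀ i a, 0 ≤ M i a - (1 - η') * mix (c * η') M ν i a := by
    intro i a
    unfold mix
    have h2 := hν.nonneg i a
    have h3 := hMc i a
    have h4 := le_one_of_isPM hν i a
    have h5 : 0 ≤ 1 - η' := by linarith
    have h6 : 0 ≤ η' * (1 + c * (1 - η')) := by positivity
    have h7 : 0 ≤ (M i a - c) * (η' * (1 + c * (1 - η'))) := mul_nonneg (by linarith) h6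
    have h8 : 0 ≤ (1 - ν i a) * ((1 - η') * (c * η')) :=
      mul_nonneg (by linarith) (by positivity)
    have h9 : 0 ≤ c ^ 2 * η' * (1 - η') + c * η' ^ 2 := by positivity
    nlinarith
  refine ⟨fun i a => (M i a - (1 - η') * mix (c * η') M ν i a) / η', ⟨?_, ?_⟩, ?_⟩
  · intro i a
    exact div_nonneg (hkey i a) h0.le
  · intro i
    have h2 : ∑ a, mix (c * η') M ν i a = 1 := by
      unfold mix
      rw [Finset.sum_add_distrib, ← Finset.mul_sum, ← Finset.mul_sum, hM.sum_one, hν.sum_one]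
      ring
    rw [← Finset.sum_div, Finset.sum_sub_distrib, ← Finset.mul_sum, h2, hM.sum_one]
    rw [show (1 - (1 - η') * 1 : ℝ) = η' by ring]
    exact div_self h0.ne'
  · funext i a
    change M i a = (1 - η') * mix (c * η') M ν i a +
      η' * ((M i a - (1 - η') * mix (c * η') M ν i a) / η')
    rw [mul_div_cancel₀ _ h0.ne']
    ring

end Pool.Agent.MP_ca1109_lc.Mpg
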