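import Pool.Agent.MP_ca1109_lc.Mpg.Defs

/-!
# Continuous roots
-/

namespace Pool.Agent.MP_ca1109_lc.Mpg

open Finset

/- PROOF NOTES [MPG-A7].  Put `σ = ε / (3 (m+1))`, `δ = σ ^ m / 2`.  Let `μ = g 0` and suppose
`ε < ‖g 1 - μ‖`.  Claim: there is `j ∈ {1, ..., m+1}` with `|s - ‖μ‖ ‖1 - ζ‖| ≥ σ` for all
`m`-th roots of unity `ζ`, `s = j ε / (m+1)`: the values `s` are `ε/(m+1) = 3σ` apart, so every `ζ`
is bad for at most one `j`, there are at most `m` roots (`Polynomial.card_nthRootsFinset`..,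
`IsPrimitiveRoot.card_nthRootsFinset`) and `m+1` candidates (pigeonhole, e.g. a function from the
`m+1` values of `j` to the bad `ζ` would be injective).  As `0 < s ≤ ε < ‖g 1 - μ‖` and
`t ↦ ‖g t - μ‖` is continuous and `0` at `0`, there is `t ∈ [0,1]` with `‖g t - μ‖ = s`
(`intermediate_value_Icc`).  With `w = g t`:
`w ^ m - μ ^ m = ∏ ζ ∈ nthRootsFinset m, (w - ζ μ)` (`IsPrimitiveRoot.pow_sub_pow_eq_prod_sub_mul`,
primitive root `Complex.isPrimitiveRoot_exp m`), and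
`‖w - ζ μ‖ ≥ |‖w - μ‖ - ‖μ - ζ μ‖| = |s - ‖μ‖ ‖1 - ζ‖| ≥ σ`, so `‖w ^ m - μ ^ m‖ ≥ σ ^ m > δ`,
a contradiction.
-/

/-- Choice of the good radius. -/
private theorem a7_choice (m : ℕ) (hm : 0 < m) (ε : ℝ) (hε : 0 < ε) (c : ℂ → ℝ) :
    ∃ s : ℝ, 0 < s ∧ s ≤ ε ∧ ∀ ζ ∈ Polynomial.nthRootsFinset m (1 : ℂ),
      ε / (3 * ((m : ℝ) + 1)) ≤ |s - c ζ| := by
  by_contra hcon
  push Not at hcon
  have hm1 : (0 : ℝ) < (m : ℝ) + 1 := by positivity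
  have h1 : ∀ j : Fin (m + 1), ∃ ζ ∈ Polynomial.nthRootsFinset m (1 : ℂ),
      |((j : ℝ) + 1) * ε / ((m : ℝ) + 1) - c ζ| < ε / (3 * ((m : ℝ) + 1)) := by
    intro j
    apply hcon
    · positivity
    · rw [div_le_iff₀ hm1, mul_comm ε]
      apply mul_le_mul_of_nonneg_right _ hε.le
      have hj : (j : ℕ) + 1 ≤ m + 1 := j.2
      exact_mod_cast hj
  choose f hf hfl using h1
  have hcard : (Polynomial.nthRootsFinset m (1 : ℂ)).card < (Finset.univ : Finset (Fin (m + 1))).card := by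
    rw [(Complex.isPrimitiveRoot_exp m hm.ne').card_nthRootsFinset, Finset.card_univ,
      Fintype.card_fin]
    exact Nat.lt_succ_self m
  obtain ⟨i, _, j, _, hij, hfij⟩ := Finset.exists_ne_map_eq_of_card_lt_of_maps_to hcard
    (f := f) (fun j _ => hf j)
  have hi := hfl i
  have hj := hfl j
  rw [hfij] at hi
  have h2 : |((i : ℝ) + 1) * ε / ((m : ℝ) + 1) - ((j : ℝ) + 1) * ε / ((m : ℝ) + 1)| <
      ε / (3 * ((m : ℝ) + 1)) + ε / (3 * ((m : ℝ) + 1)) := by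
    have h3 : ((i : ℝ) + 1) * ε / ((m : ℝ) + 1) - ((j : ℝ) + 1) * ε / ((m : ℝ) + 1) =
        (((i : ℝ) + 1) * ε / ((m : ℝ) + 1) - c (f j)) -
          (((j : ℝ) + 1) * ε / ((m : ℝ) + 1) - c (f j)) := by ring
    rw [h3]
    exact (abs_sub _ _).trans_lt (add_lt_add hi hj)
  have h4 : ((i : ℝ) + 1) * ε / ((m : ℝ) + 1) - ((j : ℝ) + 1) * ε / ((m : ℝ) + 1) =
      ((i : ℝ) - (j : ℝ)) * (ε / ((m : ℝ) + 1)) := by ring
  have h5 : (1 : ℝ) ≤ |(i : ℝ) - (j : ℝ)| := by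
    have h6 : ((i : ℕ) : ℤ) - ((j : ℕ) : ℤ) ≠ 0 := by
      intro h
      apply hij
      apply Fin.ext
      omega
    have h7 : (1 : ℤ) ≤ |((i : ℕ) : ℤ) - ((j : ℕ) : ℤ)| := Int.one_le_abs h6
    have h8 : ((1 : ℤ) : ℝ) ≤ ((|((i : ℕ) : ℤ) - ((j : ℕ) : ℤ)| : ℤ) : ℝ) := Int.cast_le.2 h7
    rw [Int.cast_abs] at h8
    push_cast at h8
    exact h8
  have h9 : 0 < ε / ((m : ℝ) + 1) := div_pos hε hm1
  rw [h4, abs_mul, abs_of_pos h9] at h2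
  have h10 : ε / (3 * ((m : ℝ) + 1)) = ε / ((m : ℝ) + 1) / 3 := by
    rw [div_div, mul_comm (3 : ℝ)]
  rw [h10] at h2
  nlinarith [mul_le_mul_of_nonneg_right h5 h9.le]

theorem root_cont (m : ℕ) (hm : 0 < m) (ε : ℝ) (hε : 0 < ε) :
    ∃ δ > 0, ∀ g : ℝ → ℂ, Continuous g →
      (∀ t ∈ Set.Icc (0 : ℝ) 1, ‖g t ^ m - g 0 ^ m‖ ≤ δ) → ‖g 1 - g 0‖ ≤ ε := by
  have hσ : 0 < ε / (3 * ((m : ℝ) + 1)) := by positivity
  refine ⟨(ε / (3 * ((m : ℝ) + 1))) ^ m / 2, by positivity, ?_⟩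
  intro g hg hδ
  by_contra hlt
  push Not at hlt
  obtain ⟨s, hs0, hsε, hs⟩ := a7_choice m hm ε hε (fun ζ => ‖g 0‖ * ‖1 - ζ‖)
  have hcont : ContinuousOn (fun t : ℝ => ‖g t - g 0‖) (Set.Icc 0 1) :=
    ((hg.sub continuous_const).norm).continuousOn
  have hmem : s ∈ Set.Icc ((fun t : ℝ => ‖g t - g 0‖) 0) ((fun t : ℝ => ‖g t - g 0‖) 1) := by
    constructor
    · show ‖g 0 - g 0‖ ≤ s
      rw [sub_self, norm_zero]
      exact hs0.le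
    · show s ≤ ‖g 1 - g 0‖
      exact hsε.trans hlt.le
  obtain ⟨t, ht, hts⟩ := intermediate_value_Icc (zero_le_one' ℝ) hcont hmem
  have hts' : ‖g t - g 0‖ = s := hts
  have h1 := hδ t ht
  rw [(Complex.isPrimitiveRoot_exp m hm.ne').pow_sub_pow_eq_prod_sub_mul (g t) (g 0) hm,
    norm_prod] at h1
  have h2 : (ε / (3 * ((m : ℝ) + 1))) ^ m ≤
      ∏ ζ ∈ Polynomial.nthRootsFinset m (1 : ℂ), ‖g t - ζ * g 0‖ := by
    have h3 : (ε / (3 * ((m : ℝ) + 1))) ^ m =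
        ∏ ζ ∈ Polynomial.nthRootsFinset m (1 : ℂ), (ε / (3 * ((m : ℝ) + 1))) := by
      rw [Finset.prod_const, (Complex.isPrimitiveRoot_exp m hm.ne').card_nthRootsFinset]
    rw [h3]
    apply Finset.prod_le_prod
    · intro ζ _
      exact hσ.le
    · intro ζ hζ
      refine (hs ζ hζ).trans ?_
      have h4 : g t - ζ * g 0 = (g t - g 0) - (-(1 - ζ) * g 0) := by ring
      have h5 : ‖(-(1 - ζ) * g 0)‖ = ‖g 0‖ * ‖1 - ζ‖ := by
        rw [norm_mul, norm_neg, mul_comm]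
      rw [h4, ← hts', ← h5]
      exact abs_norm_sub_norm_le _ _
  have h6 : 0 < (ε / (3 * ((m : ℝ) + 1))) ^ m := pow_pos hσ m
  linarith

end Pool.Agent.MP_ca1109_lc.Mpg
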