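import Pool.Agent.MP_ca1109_lc.Mpg.A3
import Pool.Agent.MP_ca1109_lc.Mpg.A5
import Pool.Agent.MP_ca1109_lc.Mpg.A6

/-!
# The induction step of the stability theorem: the main inequality
-/

namespace Pool.Agent.MP_ca1109_lc.Mpg

open Finset

variable {Ω : Type*} [Fintype Ω] {n m d : ℕ} [NeZero m]

/- PROOF NOTES [MPG-A8].  `f x = ph m (P x)`, `‖f x‖ = 1` (`norm_ph`), `h V x = hV M f V x`,
`‖h V x‖ ≤ 1` (`norm_hV_le`), `Nκ = mix κ M ν`, `N = mix (ρ κ) M ν = mix ρ M Nκ` (`mix_mix`),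
`ex N f = ex (ber ρ) (fun V => ex Nκ (h V))` (`ex_mix`), `ex M (h V) = ex M f` (`ex_hV`).
`upper_h` (first inequality): `es_bound` with `ρ` gives
`rex ber (rex M ‖h V‖²) ≤ (1-ρ) ‖ex M f‖² + ρ ≤ ‖ex M f‖² + ρ` and `cmp_sq` for each `V`
(`rex_mono`, `rex_add`, `rex_const` over `ber`).
`upper`: `‖ex N f‖² = ‖ex ber (ex Nκ (h V))‖² ≤ rex ber ‖ex Nκ (h V)‖² ≤ rex ber (rex Nκ ‖h V‖²)`
(`norm_ex_sq_le` twice, `rex_mono`).
`core`: `ρ = c ρ'`, `η' = ρ' κ`, `η = c η' = ρ κ`, `N = mix η M ν`.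
(b) `mix_rev` gives `M = mix η' N ν'`; `N` has atoms `≥ c/2` (`mix_atoms`, `η ≤ 1/2`), so `upper`
for `(N, ν')` and `ρ'` gives `‖ex M f‖² ≤ ‖ex N f‖² + ρ' + ω`.
(c) `rex ber (rex Nκ ‖h V - ex N f‖²) = rex ber (rex Nκ ‖h V‖²) - ‖ex N f‖²` (expand with
`rex_var` for each `V`: `rex Nκ ‖h V - μ‖² = rex Nκ ‖h V‖² - ‖a V‖² + ‖a V - μ‖²`,
`a V = ex Nκ (h V)`, and again `rex_var` over `ber` for the function `a`: its expectation is
`μ = ex N f`), `≤ ‖ex M f‖² + ρ + ω - ‖ex N f‖² ≤ ρ + ρ' + 2 ω`.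
(c') the same with `M` instead of `Nκ`: `rex ber (rex M ‖h V - ex M f‖²) ≤ ρ`.
(d) `‖a ^ m - b ^ m‖ ≤ m ‖a - b‖` for `‖a‖, ‖b‖ ≤ 1` (induction on `m`, or
`norm_pow_sub_pow_le`..), `ex N f ^ m - ex ber (ex Nκ (h V ^ m)) = ex ber (ex Nκ (ex N f ^ m - h V ^ m))`
has norm `≤ m * rex ber (rex Nκ ‖h V - ex N f‖) ≤ m * √(rex ber (rex Nκ ‖..‖²))` (`rex_sq_le`
twice).  (e) `cmp_pow` for each `V`.  (f) as (d) with `M`.
Triangle inequality.
-/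

theorem pow_sub_pow_norm_le (k : ℕ) {a b : ℂ} (ha : ‖a‖ ≤ 1) (hb : ‖b‖ ≤ 1) :
    ‖a ^ k - b ^ k‖ ≤ k * ‖a - b‖ := by
  induction k with
  | zero => simp
  | succ k ih =>
    have e : a ^ (k + 1) - b ^ (k + 1) = a ^ k * (a - b) + (a ^ k - b ^ k) * b := by ring
    have h1 : ‖a ^ k * (a - b)‖ ≤ ‖a - b‖ := by
      rw [norm_mul, norm_pow]
      exact mul_le_of_le_one_left (norm_nonneg _) (pow_le_one₀ (norm_nonneg _) ha)
    have h2 : ‖(a ^ k - b ^ k) * b‖ ≤ k * ‖a - b‖ := by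
      rw [norm_mul]
      exact (mul_le_of_le_one_right (norm_nonneg _) hb).trans ih
    rw [e]
    refine (norm_add_le _ _).trans ?_
    push_cast
    linarith

theorem upper_h {P : (Fin n → Ω) → ZMod m} (hP : P ∈ lowDeg (Fin n) Ω (ZMod m) (d + 1))
    {M ν : Fin n → Ω → ℝ} (hM : IsPM M) {ρ κ ω : ℝ} (hρ0 : 0 ≤ ρ)
    (hρ1 : ρ ≤ 1)
    (H : ∀ Q ∈ lowDeg (Fin n) Ω (ZMod m) d,
      ‖ex (mix κ M ν) (fun x => ph m (Q x)) - ex M (fun x => ph m (Q x))‖ ≤ ω) :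
    rex (ber (Fin n) ρ) (fun V => rex (mix κ M ν)
      (fun x => ‖hV M (fun x => ph m (P x)) V x‖ ^ 2)) ≤
      ‖ex M (fun x => ph m (P x))‖ ^ 2 + ρ + ω := by
  have hB : IsPM (ber (Fin n) ρ) := isPM_ber hρ0 hρ1
  have h1 : ∀ V : Fin n → Bool, rex (mix κ M ν)
      (fun x => ‖hV M (fun x => ph m (P x)) V x‖ ^ 2) ≤
      rex M (fun x => ‖hV M (fun x => ph m (P x)) V x‖ ^ 2) + ω := by
    intro V
    have h2 := (abs_le.1 (cmp_sq hP (u := M) hM H V)).2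
    linarith
  refine (rex_mono hB h1).trans ?_
  rw [rex_add, rex_const hB]
  have h3 := es_bound hM hρ0 hρ1 (fun x => ph m (P x))
  have h4 : rex M (fun x => ‖ph m (P x)‖ ^ 2) = 1 := by
    have e : (fun x : Fin n → Ω => ‖ph m (P x)‖ ^ 2) = fun _ => (1:ℝ) := by
      funext x
      rw [norm_ph, one_pow]
    rw [e, rex_const hM]
  rw [h4, mul_one] at h3
  have h5 : (1 - ρ) * ‖ex M (fun x => ph m (P x))‖ ^ 2 ≤ ‖ex M (fun x => ph m (P x))‖ ^ 2 := by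
    have h6 : 0 ≤ ρ * ‖ex M (fun x => ph m (P x))‖ ^ 2 := mul_nonneg hρ0 (sq_nonneg _)
    linarith
  linarith

theorem upper {P : (Fin n → Ω) → ZMod m} (hP : P ∈ lowDeg (Fin n) Ω (ZMod m) (d + 1))
    {M ν : Fin n → Ω → ℝ} (hM : IsPM M) (hν : IsPM ν) {ρ κ ω : ℝ} (hρ0 : 0 ≤ ρ)
    (hρ1 : ρ ≤ 1) (hκ0 : 0 ≤ κ) (hκ1 : κ ≤ 1)
    (H : ∀ Q ∈ lowDeg (Fin n) Ω (ZMod m) d,
      ‖ex (mix κ M ν) (fun x => ph m (Q x)) - ex M (fun x => ph m (Q x))‖ ≤ ω) :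
    ‖ex (mix (ρ * κ) M ν) (fun x => ph m (P x))‖ ^ 2 ≤
      ‖ex M (fun x => ph m (P x))‖ ^ 2 + ρ + ω := by
  have hB : IsPM (ber (Fin n) ρ) := isPM_ber hρ0 hρ1
  have hN : IsPM (mix κ M ν) := isPM_mix hκ0 hκ1 hM hν
  rw [← mix_mix, ex_mix hM hN]
  refine (norm_ex_sq_le hB _).trans ?_
  refine (rex_mono hB fun V => norm_ex_sq_le hN _).trans ?_
  exact upper_h hP hM hρ0 hρ1 H

private theorem a8_var {W : Fin n → Ω → ℝ} (hW : IsPM W) {B : Fin n → Bool → ℝ} (hB : IsPM B)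
    (h : (Fin n → Bool) → (Fin n → Ω) → ℂ) {μ : ℂ} (hμ : μ = ex B (fun V => ex W (h V))) :
    rex B (fun V => rex W (fun x => ‖h V x - μ‖ ^ 2)) =
      rex B (fun V => rex W (fun x => ‖h V x‖ ^ 2)) - ‖μ‖ ^ 2 := by
  have e1 : (fun V => rex W (fun x => ‖h V x - μ‖ ^ 2)) =
      fun V => (rex W (fun x => ‖h V x‖ ^ 2) - ‖ex W (h V)‖ ^ 2) + ‖ex W (h V) - μ‖ ^ 2 := by
    funext V
    exact rex_var hW (h V) μ
  rw [e1, rex_add, rex_sub, rex_var hB (fun V => ex W (h V)) μ, ← hμ, sub_self, norm_zero]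
  ring

private theorem a8_norm {W : Fin n → Ω → ℝ} (hW : IsPM W) {g : (Fin n → Ω) → ℂ}
    (hg : ∀ x, ‖g x‖ ≤ 1) : ‖ex W g‖ ≤ 1 := by
  have h1 := norm_ex_le hW (g := fun _ => (1:ℝ)) hg
  rwa [rex_const hW] at h1

private theorem a8_pow {W : Fin n → Ω → ℝ} (hW : IsPM W) {B : Fin n → Bool → ℝ} (hB : IsPM B)
    (h : (Fin n → Bool) → (Fin n → Ω) → ℂ) (hh : ∀ V x, ‖h V x‖ ≤ 1) {μ : ℂ} (hμ : ‖μ‖ ≤ 1)
    (k : ℕ) :
    ‖μ ^ k - ex B (fun V => ex W (fun x => h V x ^ k))‖ ≤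
      k * √(rex B (fun V => rex W (fun x => ‖h V x - μ‖ ^ 2))) := by
  have e1 : μ ^ k - ex B (fun V => ex W (fun x => h V x ^ k)) =
      ex B (fun V => ex W (fun x => μ ^ k - h V x ^ k)) := by
    have e2 : (fun V => ex W (fun x => μ ^ k - h V x ^ k)) =
        fun V => μ ^ k - ex W (fun x => h V x ^ k) := by
      funext V
      rw [ex_sub, ex_const hW]
    rw [e2, ex_sub, ex_const hB]
  rw [e1]
  have h1 : ∀ V, ‖ex W (fun x => μ ^ k - h V x ^ k)‖ ≤ rex W (fun x => (k:ℝ) * ‖h V x - μ‖) := by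
    intro V
    refine norm_ex_le hW fun x => ?_
    have h2 := pow_sub_pow_norm_le k hμ (hh V x)
    rwa [norm_sub_rev μ] at h2
  refine (norm_ex_le hB h1).trans ?_
  have e3 : (fun V => rex W (fun x => (k:ℝ) * ‖h V x - μ‖)) =
      fun V => (k:ℝ) * rex W (fun x => ‖h V x - μ‖) := by
    funext V
    rw [rex_mul_left]
  rw [e3, rex_mul_left]
  refine mul_le_mul_of_nonneg_left ?_ (Nat.cast_nonneg _)
  refine (le_abs_self _).trans (Real.abs_le_sqrt ?_)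
  refine (rex_sq_le hB _).trans ?_
  exact rex_mono hB fun V => rex_sq_le hW _

theorem core {P : (Fin n → Ω) → ZMod m} (hP : P ∈ lowDeg (Fin n) Ω (ZMod m) (d + 1))
    {M ν : Fin n → Ω → ℝ} (hM : IsPM M) (hν : IsPM ν) {c κ ω ρ' : ℝ} (hc : 0 < c) (hc1 : c ≤ 1)
    (hMc : ∀ i a, c ≤ M i a) (hκ0 : 0 < κ) (hκ1 : κ ≤ 1) (hρ0 : 0 < ρ') (hρ1 : ρ' ≤ 1)
    (hs : c * ρ' * κ ≤ 1 / 2)
    (H : ∀ M' ν' : Fin n → Ω → ℝ, IsPM M' → IsPM ν' → (∀ i a, c / 2 ≤ M' i a) →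
      ∀ Q ∈ lowDeg (Fin n) Ω (ZMod m) d,
        ‖ex (mix κ M' ν') (fun x => ph m (Q x)) - ex M' (fun x => ph m (Q x))‖ ≤ ω) :
    ‖ex (mix (c * ρ' * κ) M ν) (fun x => ph m (P x)) ^ m - ex M (fun x => ph m (P x)) ^ m‖ ≤
      m * √(c * ρ' + ρ' + 2 * ω) + ω + m * √(c * ρ') := by
  classical
  have hρ'0 : 0 ≤ c * ρ' := mul_nonneg hc.le hρ0.le
  have hρ'1 : c * ρ' ≤ 1 := by
    calc c * ρ' ≤ 1 * 1 := mul_le_mul hc1 hρ1 hρ0.le zero_le_one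
      _ = 1 := one_mul _
  have hη0 : 0 ≤ c * ρ' * κ := mul_nonneg hρ'0 hκ0.le
  have hη'0 : 0 < ρ' * κ := mul_pos hρ0 hκ0
  have hη'1 : ρ' * κ ≤ 1 := by
    calc ρ' * κ ≤ 1 * 1 := mul_le_mul hρ1 hκ1 hκ0.le zero_le_one
      _ = 1 := one_mul _
  have hN : IsPM (mix (c * ρ' * κ) M ν) := isPM_mix hη0 (by linarith) hM hν
  have hNκ : IsPM (mix κ M ν) := isPM_mix hκ0.le hκ1 hM hν
  have hB : IsPM (ber (Fin n) (c * ρ')) := isPM_ber hρ'0 hρ'1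
  have hf1 : ∀ x : Fin n → Ω, ‖ph m (P x)‖ ≤ 1 := fun x => (norm_ph m _).le
  have hH : ∀ Q ∈ lowDeg (Fin n) Ω (ZMod m) d,
      ‖ex (mix κ M ν) (fun x => ph m (Q x)) - ex M (fun x => ph m (Q x))‖ ≤ ω :=
    H M ν hM hν fun i a => by linarith [hMc i a]
  -- (b)
  obtain ⟨ν', hν', hMν'⟩ := mix_rev hM hν hc hc1 hη'0 hη'1 hMc
  rw [← mul_assoc] at hMν'
  have hb : ‖ex M (fun x => ph m (P x))‖ ^ 2 ≤
      ‖ex (mix (c * ρ' * κ) M ν) (fun x => ph m (P x))‖ ^ 2 + ρ' + ω := by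
    have h1 := upper hP hN hν' hρ0.le hρ1 hκ0.le hκ1
      (H _ ν' hN hν' fun i a => mix_atoms hM hν hη0 hs hMc i a)
    rwa [← hMν'] at h1
  -- the two averages
  have hμN : ex (mix (c * ρ' * κ) M ν) (fun x => ph m (P x)) =
      ex (ber (Fin n) (c * ρ')) (fun V => ex (mix κ M ν) (hV M (fun x => ph m (P x)) V)) := by
    rw [← mix_mix, ex_mix hM hNκ]
  have hμM : ex M (fun x => ph m (P x)) =
      ex (ber (Fin n) (c * ρ')) (fun V => ex M (hV M (fun x => ph m (P x)) V)) := by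
    have e : (fun V => ex M (hV M (fun x => ph m (P x)) V)) =
        fun _ => ex M (fun x => ph m (P x)) := by
      funext V
      exact ex_hV hM _ V
    rw [e, ex_const hB]
  have hh : ∀ V x, ‖hV M (fun x => ph m (P x)) V x‖ ≤ 1 := fun V x => norm_hV_le hM hf1 V x
  -- (c)
  have hcN := a8_var hNκ hB (fun V => hV M (fun x => ph m (P x)) V) hμN
  have hcN' : rex (ber (Fin n) (c * ρ')) (fun V => rex (mix κ M ν)
      (fun x => ‖hV M (fun x => ph m (P x)) V x -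
        ex (mix (c * ρ' * κ) M ν) (fun x => ph m (P x))‖ ^ 2)) ≤ c * ρ' + ρ' + 2 * ω := by
    rw [hcN]
    have h1 := upper_h hP hM hρ'0 hρ'1 hH
    linarith
  have hcM := a8_var hM hB (fun V => hV M (fun x => ph m (P x)) V) hμM
  have hcM' : rex (ber (Fin n) (c * ρ')) (fun V => rex M
      (fun x => ‖hV M (fun x => ph m (P x)) V x - ex M (fun x => ph m (P x))‖ ^ 2)) ≤
      c * ρ' := by
    rw [hcM]
    have h3 := es_bound hM hρ'0 hρ'1 (fun x => ph m (P x))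
    have h4 : rex M (fun x => ‖ph m (P x)‖ ^ 2) = 1 := by
      have e : (fun x : Fin n → Ω => ‖ph m (P x)‖ ^ 2) = fun _ => (1:ℝ) := by
        funext x
        rw [norm_ph, one_pow]
      rw [e, rex_const hM]
    rw [h4, mul_one] at h3
    have h6 : 0 ≤ c * ρ' * ‖ex M (fun x => ph m (P x))‖ ^ 2 := mul_nonneg hρ'0 (sq_nonneg _)
    linarith
  -- (d), (f)
  have hd := a8_pow hNκ hB (fun V => hV M (fun x => ph m (P x)) V) hh (a8_norm hN hf1) m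
  have hf := a8_pow hM hB (fun V => hV M (fun x => ph m (P x)) V) hh (a8_norm hM hf1) m
  have hd' : ‖ex (mix (c * ρ' * κ) M ν) (fun x => ph m (P x)) ^ m -
      ex (ber (Fin n) (c * ρ')) (fun V => ex (mix κ M ν)
        (fun x => hV M (fun x => ph m (P x)) V x ^ m))‖ ≤ m * √(c * ρ' + ρ' + 2 * ω) :=
    hd.trans (mul_le_mul_of_nonneg_left (Real.sqrt_le_sqrt hcN') (Nat.cast_nonneg _))
  have hf' : ‖ex M (fun x => ph m (P x)) ^ m -
      ex (ber (Fin n) (c * ρ')) (fun V => ex M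
        (fun x => hV M (fun x => ph m (P x)) V x ^ m))‖ ≤ m * √(c * ρ') :=
    hf.trans (mul_le_mul_of_nonneg_left (Real.sqrt_le_sqrt hcM') (Nat.cast_nonneg _))
  -- (e)
  have he : ‖ex (ber (Fin n) (c * ρ')) (fun V => ex (mix κ M ν)
        (fun x => hV M (fun x => ph m (P x)) V x ^ m)) -
      ex (ber (Fin n) (c * ρ')) (fun V => ex M
        (fun x => hV M (fun x => ph m (P x)) V x ^ m))‖ ≤ ω := by
    rw [← ex_sub]
    have h1 := norm_ex_le hB (g := fun _ => ω) (f := fun V => ex (mix κ M ν)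
        (fun x => hV M (fun x => ph m (P x)) V x ^ m) - ex M
        (fun x => hV M (fun x => ph m (P x)) V x ^ m)) fun V => cmp_pow hP hM hH V
    rwa [rex_const hB] at h1
  rw [norm_sub_rev] at hf'
  have t1 := norm_sub_le_norm_sub_add_norm_sub
    (ex (mix (c * ρ' * κ) M ν) (fun x => ph m (P x)) ^ m)
    (ex (ber (Fin n) (c * ρ')) (fun V => ex (mix κ M ν)
        (fun x => hV M (fun x => ph m (P x)) V x ^ m)))
    (ex M (fun x => ph m (P x)) ^ m)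
  have t2 := norm_sub_le_norm_sub_add_norm_sub
    (ex (ber (Fin n) (c * ρ')) (fun V => ex (mix κ M ν)
        (fun x => hV M (fun x => ph m (P x)) V x ^ m)))
    (ex (ber (Fin n) (c * ρ')) (fun V => ex M
        (fun x => hV M (fun x => ph m (P x)) V x ^ m)))
    (ex M (fun x => ph m (P x)) ^ m)
  linarith

end Pool.Agent.MP_ca1109_lc.Mpg
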