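import Pool.Agent.MP_ca1109_lc.Mpg.A7
import Pool.Agent.MP_ca1109_lc.Mpg.A8

/-!
# The stability theorem
-/

namespace Pool.Agent.MP_ca1109_lc.Mpg

open Finset

/- PROOF NOTES [MPG-A9].
`stab_zero`: `P` is constant (`lowDeg_zero`), `ex_const`, `η = 1`.
`stab_succ`: given `c, ε`, put `c' = min c 1`, `δ` from `root_cont m ε`; choose `τ > 0` so small that
for `ρ' = ω = τ ≤ 1/2`: `m √(c'τ + τ + 2τ) + τ + m √(c'τ) ≤ δ` (`≤ 4 m √τ.. + τ`: e.g.
`τ = min (1/2) ((δ/(8 m + 1))^2 ..)`, `c' ≤ 1` so `√(4τ) = 2√τ`; total `≤ 3 m √τ + τ ≤ (3m+1) √τ`,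
take `τ = min (1/2) (δ/(3m+1))^2`).  The hypothesis for `d` with `c'/2` and `ω = τ` gives `κ`.
`η = c' * τ * κ ≤ 1/2`.  For `n, P, M, ν`: `g t = ex (mix (t * η) M ν) f` is continuous
(`continuous_ex_mix` composed with `t ↦ t * η`), `g 0 = ex M f` (`mix_zero`), `g 1` is the mixture,
and for `t ∈ [0,1]` `mix (t * η) M ν = mix η M (mix t M ν)` (`mix_mix`, commutativity), so `core` for
`ν_t = mix t M ν` gives `‖g t ^ m - g 0 ^ m‖ ≤ δ`.  `root_cont`.
`stab_close`: `M' = mix η₁ M ν'` with `ν' = (M' - (1-η₁) M)/η₁` if `|M' - M| ≤ c η₁`: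
`M' - (1-η₁) M = (M' - M) + η₁ M ≥ - c η₁ + η₁ c = 0`.
-/

theorem stab_zero (m : ℕ) [NeZero m] (Ω : Type*) [Fintype Ω] : Stab m Ω 0 := by
  intro c _ ε hε
  refine ⟨1, one_pos, le_rfl, fun n P hP M ν hM hν _ => ?_⟩
  rcases isEmpty_or_nonempty (Fin n → Ω) with h | h
  · unfold ex
    rw [Finset.univ_eq_empty, Finset.sum_empty, Finset.sum_empty, sub_zero, norm_zero]
    exact hε.le
  · obtain ⟨x0⟩ := h
    have h1 : (fun x => ph m (P x)) = fun _ : Fin n → Ω => ph m (P x0) := by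
      funext x
      rw [lowDeg_zero hP x x0]
    rw [h1, ex_const (isPM_mix zero_le_one le_rfl hM hν), ex_const hM, sub_self, norm_zero]
    exact hε.le

theorem stab_succ (m : ℕ) [NeZero m] (Ω : Type*) [Fintype Ω] (d : ℕ) (h : Stab m Ω d) :
    Stab m Ω (d + 1) := by
  intro c hc ε hε
  obtain ⟨c', hc'⟩ : ∃ c', c' = min c 1 := ⟨_, rfl⟩
  have hc0 : 0 < c' := by rw [hc']; exact lt_min hc one_pos
  have hc1 : c' ≤ 1 := by rw [hc']; exact min_le_right _ _
  have hcc : c' ≤ c := by rw [hc']; exact min_le_left _ _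
  obtain ⟨δ, hδ, hroot⟩ := root_cont m (NeZero.pos m) ε hε
  have hm0 : (0 : ℝ) ≤ m := Nat.cast_nonneg m
  have hm1 : (0 : ℝ) < 3 * m + 1 := by positivity
  obtain ⟨τ, hτ⟩ : ∃ τ : ℝ, τ = min (1 / 2) ((δ / (3 * m + 1)) ^ 2) := ⟨_, rfl⟩
  have hτ0 : 0 < τ := by rw [hτ]; exact lt_min (by norm_num) (by positivity)
  have hτ1 : τ ≤ 1 / 2 := by rw [hτ]; exact min_le_left _ _
  have hτ2 : √τ ≤ δ / (3 * m + 1) := by
    rw [Real.sqrt_le_left (by positivity), hτ]
    exact min_le_right _ _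
  have hτ3 : τ ≤ √τ := by
    have h1 : 0 ≤ √τ := Real.sqrt_nonneg _
    have h2 : √τ * √τ = τ := Real.mul_self_sqrt hτ0.le
    have h3 : √τ ≤ 1 := by
      have h4 := Real.sqrt_le_sqrt (show τ ≤ 1 by linarith)
      rwa [Real.sqrt_one] at h4
    nlinarith
  obtain ⟨κ, hκ0, hκ1, H⟩ := h (c' / 2) (by positivity) τ hτ0
  have hη : c' * τ * κ ≤ 1 / 2 := by
    have h1 : c' * τ ≤ 1 / 2 := by nlinarith
    have h2 : 0 ≤ c' * τ := by positivity
    nlinarith
  refine ⟨c' * τ * κ, by positivity, by linarith, fun n P hP M ν hM hν hMc => ?_⟩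
  have key := hroot (fun t => ex (mix (t * (c' * τ * κ)) M ν) (fun x => ph m (P x)))
    ((continuous_ex_mix M ν (fun x => ph m (P x))).comp (continuous_id.mul continuous_const)) ?_
  · simp only [one_mul, zero_mul, mix_zero] at key
    exact key
  · intro t ht
    have h1 := core (n := n) hP hM (isPM_mix ht.1 ht.2 hM hν) (c := c') (κ := κ) (ω := τ)
      (ρ' := τ) hc0 hc1 (fun i a => hcc.trans (hMc i a)) hκ0 hκ1 hτ0 (by linarith) hη
      (fun M' ν' hM' hν' hM'c Q hQ => H n Q hQ M' ν' hM' hν' hM'c)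
    rw [mix_mix] at h1
    simp only [zero_mul, mix_zero]
    rw [mul_comm t (c' * τ * κ)]
    refine h1.trans ?_
    have h2 : √(c' * τ + τ + 2 * τ) ≤ 2 * √τ := by
      rw [Real.sqrt_le_left (by positivity), mul_pow, Real.sq_sqrt hτ0.le]
      nlinarith
    have h3 : √(c' * τ) ≤ √τ := Real.sqrt_le_sqrt (by nlinarith)
    have h4 : (m : ℝ) * √(c' * τ + τ + 2 * τ) ≤ m * (2 * √τ) := mul_le_mul_of_nonneg_left h2 hm0
    have h5 : (m : ℝ) * √(c' * τ) ≤ m * √τ := mul_le_mul_of_nonneg_left h3 hm0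
    have h6 : (3 * m + 1) * √τ ≤ δ := by
      rw [le_div_iff₀ hm1] at hτ2
      linarith
    nlinarith

/-- The stability theorem. -/
theorem stab (m : ℕ) [NeZero m] (Ω : Type*) [Fintype Ω] (d : ℕ) : Stab m Ω d := by
  induction d with
  | zero => exact stab_zero m Ω
  | succ d ih => exact stab_succ m Ω d ih

/-- The stability theorem for two product measures which are close to each other. -/
theorem stab_close (m : ℕ) [NeZero m] (Ω : Type*) [Fintype Ω] (d : ℕ) (c : ℝ) (hc : 0 < c)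
    (ε : ℝ) (hε : 0 < ε) : ∃ η > 0, ∀ (n : ℕ) (P : (Fin n → Ω) → ZMod m),
      P ∈ lowDeg (Fin n) Ω (ZMod m) d → ∀ M M' : Fin n → Ω → ℝ, IsPM M → IsPM M' →
        (∀ i a, c ≤ M i a) → (∀ i a, |M' i a - M i a| ≤ η) →
          ‖ex M' (fun x => ph m (P x)) - ex M (fun x => ph m (P x))‖ ≤ ε := by
  obtain ⟨η₁, h0, h1, H⟩ := stab m Ω d c hc ε hε
  refine ⟨c * η₁, by positivity, fun n P hP M M' hM hM' hMc hclose => ?_⟩
  have hν : IsPM (fun i a => (M' i a - (1 - η₁) * M i a) / η₁) := by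
    constructor
    · intro i a
      apply div_nonneg _ h0.le
      have h2 := (abs_le.mp (hclose i a)).1
      have h3 := hMc i a
      nlinarith
    · intro i
      rw [← Finset.sum_div, Finset.sum_sub_distrib, ← Finset.mul_sum, hM.sum_one, hM'.sum_one]
      field_simp
      ring
  have h2 := H n P hP M _ hM hν hMc
  have h3 : mix η₁ M (fun i a => (M' i a - (1 - η₁) * M i a) / η₁) = M' := by
    funext i a
    unfold mix
    field_simp
    ring
  rw [h3] at h2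
  exact h2

end Pool.Agent.MP_ca1109_lc.Mpg
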