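import Pool.Agent.MP_ca1109_lc.Mpg.Defs

/-!
# Fourier analysis on a finite abelian group: shifts along a biased distribution
-/

namespace Pool.Agent.MP_ca1109_lc.Mpg

open Finset

variable {H S : Type*} [AddCommGroup H] [Fintype H] [Fintype S]

/- PROOF NOTES [MPG-B1].  `classical`.  Characters: `AddChar H ℂ` is a `Fintype` of cardinality
`Fintype.card H` (`AddChar.card_eq`), orthogonality `AddChar.sum_apply_eq_ite` :
`∑ ψ : AddChar H ℂ, ψ a = if a = 0 then card H else 0` and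
`AddChar.sum_eq_ite` / `AddChar.sum_eq_zero_iff_ne_zero` : `∑ x, ψ x = if ψ = 0 then card H else 0`;
`AddChar.map_neg_eq_conj`, `AddChar.norm_apply`.
For `f : H → ℂ` put `c ψ = av (fun x => f x * conj (ψ x))`.
`fourier_inv`: `f y = ∑ ψ, c ψ * ψ y` (swap the sums, `ψ y * conj (ψ x) = ψ (y - x)`,
orthogonality).  `parseval`: `∑ ψ, ‖c ψ‖ ^ 2 = avg (fun x => ‖f x‖ ^ 2)`: for the complex numbers
`∑ ψ, c ψ * conj (c ψ) = (1/card²) ∑ x y, f x conj (f y) ∑ ψ, ψ (y - x) = (1/card) ∑ x, f x conj (f x)`.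
`shift_bound`: `g y = av (fun s => f (y + E s)) = ∑ ψ, (c ψ * av (fun s => ψ (E s))) * ψ y`, so the
Fourier coefficients of `g` are `c ψ * b ψ`, `b ψ = av (fun s => ψ (E s))` (compute
`av (fun y => g y * conj (ψ y))` directly: substitute `y ↦ y - E s`), and by `parseval` for `g`
`avg ‖g‖² = ∑ ψ, ‖c ψ‖² ‖b ψ‖² ≤ ‖c 1‖² * ‖b 1‖² + δ² ∑ ψ ≠ 1, ‖c ψ‖² ≤ ‖av f‖² + δ² avg ‖f‖²`;
here `c 1 = av f` (trivial character `1 = 0`), `‖b 1‖ ≤ 1`, `avg ‖f‖² ≤ 1`.
-/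

private theorem b1_parseval_c (f : H → ℂ) :
    ∑ ψ : AddChar H ℂ, (∑ x, f x * (starRingEnd ℂ) (ψ x)) *
        (starRingEnd ℂ) (∑ x, f x * (starRingEnd ℂ) (ψ x)) =
      (Fintype.card H : ℂ) * ∑ x, f x * (starRingEnd ℂ) (f x) := by
  classical
  have h1 : ∀ ψ : AddChar H ℂ, (∑ x, f x * (starRingEnd ℂ) (ψ x)) *
      (starRingEnd ℂ) (∑ x, f x * (starRingEnd ℂ) (ψ x)) =
      ∑ x, ∑ y, f x * (starRingEnd ℂ) (f y) * ψ (y - x) := by
    intro ψ
    rw [map_sum, Finset.sum_mul_sum]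
    refine Finset.sum_congr rfl fun x _ => Finset.sum_congr rfl fun y _ => ?_
    rw [sub_eq_add_neg, AddChar.map_add_eq_mul, AddChar.map_neg_eq_conj, map_mul,
      Complex.conj_conj]
    ring
  simp_rw [h1]
  rw [Finset.sum_comm, Finset.mul_sum]
  refine Finset.sum_congr rfl fun x _ => ?_
  rw [Finset.sum_comm, Finset.sum_eq_single x]
  · rw [← Finset.mul_sum, AddChar.sum_apply_eq_ite, if_pos (sub_self x)]
    ring
  · intro y _ hyx
    rw [← Finset.mul_sum, AddChar.sum_apply_eq_ite, if_neg (sub_ne_zero.2 hyx), mul_zero]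
  · intro h
    exact absurd (Finset.mem_univ x) h

theorem parseval (f : H → ℂ) :
    ∑ ψ : AddChar H ℂ, ‖av (fun x => f x * (starRingEnd ℂ) (ψ x))‖ ^ 2 =
      avg (fun x => ‖f x‖ ^ 2) := by
  classical
  have hN : (Fintype.card H : ℂ) ≠ 0 := by
    exact_mod_cast (Fintype.card_ne_zero : Fintype.card H ≠ 0)
  have h1 := b1_parseval_c f
  have h2 : ((∑ ψ : AddChar H ℂ, ‖av (fun x => f x * (starRingEnd ℂ) (ψ x))‖ ^ 2 : ℝ) : ℂ) =
      ((avg (fun x => ‖f x‖ ^ 2) : ℝ) : ℂ) := by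
    have h3 : ∀ ψ : AddChar H ℂ, ((‖av (fun x => f x * (starRingEnd ℂ) (ψ x))‖ ^ 2 : ℝ) : ℂ) =
        ((∑ x, f x * (starRingEnd ℂ) (ψ x)) *
          (starRingEnd ℂ) (∑ x, f x * (starRingEnd ℂ) (ψ x))) / (Fintype.card H : ℂ) ^ 2 := by
      intro ψ
      rw [Complex.ofReal_pow, ← Complex.mul_conj', av, map_div₀, Complex.conj_natCast]
      field_simp
    rw [Complex.ofReal_sum]
    simp_rw [h3]
    rw [← Finset.sum_div, h1, avg, Complex.ofReal_div, Complex.ofReal_sum]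
    simp_rw [Complex.ofReal_pow, ← Complex.mul_conj']
    rw [Complex.ofReal_natCast]
    field_simp
  exact_mod_cast h2

theorem shift_bound {E : S → H} {δ : ℝ} (hδ : 0 ≤ δ) (hE : Biased E δ) {f : H → ℂ}
    (hf : ∀ x, ‖f x‖ ≤ 1) :
    avg (fun y : H => ‖av (fun s => f (y + E s))‖ ^ 2) ≤ ‖av f‖ ^ 2 + δ ^ 2 := by
  classical
  rw [← parseval]
  have hcoef : ∀ ψ : AddChar H ℂ,
      av (fun y : H => av (fun s => f (y + E s)) * (starRingEnd ℂ) (ψ y)) =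
        av (fun x => f x * (starRingEnd ℂ) (ψ x)) * av (fun s => ψ (E s)) := by
    intro ψ
    have h1 : ∀ s : S, ∑ y : H, f (y + E s) * (starRingEnd ℂ) (ψ y) =
        (∑ x, f x * (starRingEnd ℂ) (ψ x)) * ψ (E s) := by
      intro s
      rw [Finset.sum_mul]
      refine Fintype.sum_equiv (Equiv.addRight (E s)) _ _ fun y => ?_
      simp only [Equiv.coe_addRight]
      rw [AddChar.map_add_eq_mul, map_mul, mul_assoc, mul_assoc]
      have h2 : (starRingEnd ℂ) (ψ (E s)) * ψ (E s) = 1 := by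
        rw [Complex.conj_mul', AddChar.norm_apply]
        norm_num
      rw [h2, mul_one]
    have h3 : ∑ y : H, av (fun s => f (y + E s)) * (starRingEnd ℂ) (ψ y) =
        (∑ s : S, ∑ y : H, f (y + E s) * (starRingEnd ℂ) (ψ y)) / (Fintype.card S : ℂ) := by
      rw [Finset.sum_comm, Finset.sum_div]
      refine Finset.sum_congr rfl fun y _ => ?_
      rw [av, ← Finset.sum_mul]
      ring
    rw [av, h3]
    simp_rw [h1]
    rw [← Finset.mul_sum, av, av]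
    ring
  have hb1 : ∀ ψ : AddChar H ℂ, ‖av (fun s => ψ (E s))‖ ≤ 1 := by
    intro ψ
    rw [av, norm_div, Complex.norm_natCast]
    refine div_le_one_of_le₀ ?_ (Nat.cast_nonneg _)
    refine (norm_sum_le _ _).trans ?_
    have h1 : ∀ s : S, ‖ψ (E s)‖ = 1 := fun s => AddChar.norm_apply _ _
    simp [h1]
  have hc1 : av (fun x => f x * (starRingEnd ℂ) ((1 : AddChar H ℂ) x)) = av f := by
    simp
  have hterm : ∀ ψ : AddChar H ℂ,
      ‖av (fun y : H => av (fun s => f (y + E s)) * (starRingEnd ℂ) (ψ y))‖ ^ 2 ≤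
        (if ψ = 1 then ‖av f‖ ^ 2 else 0) +
          δ ^ 2 * ‖av (fun x => f x * (starRingEnd ℂ) (ψ x))‖ ^ 2 := by
    intro ψ
    rw [hcoef, norm_mul, mul_pow]
    by_cases hψ : ψ = 1
    · rw [if_pos hψ, hψ, hc1]
      have h1 : ‖av (fun s => (1 : AddChar H ℂ) (E s))‖ ^ 2 ≤ 1 :=
        pow_le_one₀ (norm_nonneg _) (hb1 1)
      have h2 : ‖av f‖ ^ 2 * ‖av (fun s => (1 : AddChar H ℂ) (E s))‖ ^ 2 ≤ ‖av f‖ ^ 2 * 1 :=
        mul_le_mul_of_nonneg_left h1 (sq_nonneg _)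
      have h3 : 0 ≤ δ ^ 2 * ‖av f‖ ^ 2 := by positivity
      linarith
    · rw [if_neg hψ, zero_add, mul_comm]
      exact mul_le_mul_of_nonneg_right (pow_le_pow_left₀ (norm_nonneg _) (hE ψ hψ) 2)
        (sq_nonneg _)
  refine (Finset.sum_le_sum fun ψ _ => hterm ψ).trans ?_
  rw [Finset.sum_add_distrib, ← Finset.mul_sum, parseval, Finset.sum_ite_eq']
  simp only [Finset.mem_univ, if_true]
  have havg : avg (fun x => ‖f x‖ ^ 2) ≤ 1 := by
    rw [avg]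
    refine div_le_one_of_le₀ ?_ (Nat.cast_nonneg _)
    calc ∑ x, ‖f x‖ ^ 2 ≤ ∑ _x : H, (1 : ℝ) :=
          Finset.sum_le_sum fun x _ => pow_le_one₀ (norm_nonneg _) (hf x)
      _ = (Fintype.card H : ℝ) := by simp
  have h5 : δ ^ 2 * avg (fun x => ‖f x‖ ^ 2) ≤ δ ^ 2 * 1 :=
    mul_le_mul_of_nonneg_left havg (sq_nonneg _)
  linarith

end Pool.Agent.MP_ca1109_lc.Mpg
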