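import Pool.Agent.MP_ca1109_lc.Mpg.B1

/-!
# Viola's step: adding a biased distribution
-/

namespace Pool.Agent.MP_ca1109_lc.Mpg

open Finset

variable {H S S' : Type*} [AddCommGroup H] [Fintype H] [Fintype S] [Fintype S']

/- PROOF NOTES [MPG-B2].  `μ = av f`, `‖μ‖ ≤ 1`.  For `e : H`, `av (fun y => f (y + e)) = μ`
(`Equiv.addRight`).  `av` over `S × S'` is the iterated `av` (`Fintype.sum_prod_type`,
`Fintype.card_prod`); write `F e = av (fun s => f (D s + e))`, so the quantity is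
`av (fun s' => F (E s')) - μ`.
Case 1, `√ε' ≤ ‖μ‖`: for every `e`: `f (y + e) * conj μ = av (fun h => mder e h f y)`, as
`mder e h f y = f (y + e) * conj (f (y + h))` and `h ↦ y + h` is a bijection.  Hence
`conj μ * (F e - μ) = av over h of (av_s (mder e h f (D s)) - av (mder e h f))`, where
`av_h av_y (mder e h f y) = μ * conj μ`; each term has norm `≤ ε'`, so
`‖μ‖ ‖F e - μ‖ ≤ ε'`, `‖F e - μ‖ ≤ ε' / √ε' = √ε'`.  Average over `s'` (if `S'` is empty, then
`av = 0` and the quantity is `‖μ‖`... exclude this by the hypothesis `Nonempty S'`).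
Case 2, `‖μ‖ < √ε'`: `‖av_{s,s'} f (D s + E s')‖² ≤ avg_s ‖av_{s'} f (D s + E s')‖²`
(Cauchy-Schwarz) `= av_{s', s''} av_s (f (D s + E s') conj f (D s + E s''))` (a real number, as
complex identity) `≤ ‖..av_{s',s''} av_y mder (E s') (E s'') f y‖ + ε'` and
`av_{s',s''} av_y mder (E s') (E s'') f y = av_y ‖av_{s'} f (y + E s')‖² ≤ ‖μ‖² + ε₀²`
(`shift_bound`).  So the quantity is `≤ ‖μ‖ + √(‖μ‖² + ε₀² + ε') ≤ √ε' + √(2 ε' + ε₀²) ≤
√ε' + 2 √ε' + ε₀`.
-/

section b2

variable {A B : Type*} [Fintype A] [Fintype B]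

private theorem b2_const [Nonempty A] (c : ℂ) : av (fun _ : A => c) = c := by
  unfold av
  rw [Finset.sum_const, Finset.card_univ, nsmul_eq_mul, mul_div_cancel_left₀]
  exact_mod_cast Fintype.card_ne_zero

private theorem b2_sub (f g : A → ℂ) : av (fun a => f a - g a) = av f - av g := by
  unfold av
  rw [Finset.sum_sub_distrib, sub_div]

private theorem b2_mul_left (c : ℂ) (f : A → ℂ) : av (fun a => c * f a) = c * av f := by
  unfold av
  rw [← Finset.mul_sum, mul_div_assoc]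

private theorem b2_conj (f : A → ℂ) :
    av (fun a => (starRingEnd ℂ) (f a)) = (starRingEnd ℂ) (av f) := by
  unfold av
  rw [map_div₀, map_sum, map_natCast]

private theorem b2_comm (f : A → B → ℂ) :
    av (fun a => av (fun b => f a b)) = av (fun b => av (fun a => f a b)) := by
  unfold av
  rw [← Finset.sum_div, ← Finset.sum_div, Finset.sum_comm, div_right_comm]

private theorem b2_prod (f : A → B → ℂ) :
    av (fun p : A × B => f p.1 p.2) = av (fun a => av (fun b => f a b)) := by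
  unfold av
  rw [← Finset.sum_div, Fintype.sum_prod_type, Fintype.card_prod, Nat.cast_mul, div_div, mul_comm]

private theorem b2_norm_le {f : A → ℂ} {C : ℝ} (hC : 0 ≤ C) (h : ∀ a, ‖f a‖ ≤ C) :
    ‖av f‖ ≤ C := by
  unfold av
  rw [norm_div, Complex.norm_natCast]
  refine div_le_of_le_mul₀ (Nat.cast_nonneg _) hC ?_
  calc ‖∑ a, f a‖ ≤ ∑ a, ‖f a‖ := norm_sum_le _ _
    _ ≤ ∑ _a : A, C := Finset.sum_le_sum fun a _ => h a
    _ = C * (Fintype.card A : ℝ) := by
        rw [Finset.sum_const, Finset.card_univ, nsmul_eq_mul, mul_comm]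

private theorem b2_ofReal (g : A → ℝ) : ((avg g : ℝ) : ℂ) = av (fun a => (g a : ℂ)) := by
  unfold av avg
  push_cast
  rfl

private theorem b2_cs (f : A → ℂ) : ‖av f‖ ^ 2 ≤ avg (fun a => ‖f a‖ ^ 2) := by
  unfold av avg
  rw [norm_div, Complex.norm_natCast, div_pow]
  rcases Nat.eq_zero_or_pos (Fintype.card A) with h0 | hpos
  · rw [h0]
    simp
  have hc : (0 : ℝ) < (Fintype.card A : ℝ) := by exact_mod_cast hpos
  rw [div_le_div_iff₀ (by positivity) hc]
  have h1 : ‖∑ a, f a‖ ≤ ∑ a, ‖f a‖ := norm_sum_le _ _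
  have h2 : (∑ a, ‖f a‖) ^ 2 ≤ (Fintype.card A : ℝ) * ∑ a, ‖f a‖ ^ 2 := by
    have h3 := sq_sum_le_card_mul_sum_sq (s := (Finset.univ : Finset A)) (f := fun a => ‖f a‖)
    rw [Finset.card_univ] at h3
    exact h3
  have h4 : ‖∑ a, f a‖ ^ 2 ≤ (∑ a, ‖f a‖) ^ 2 := pow_le_pow_left₀ (norm_nonneg _) h1 2
  calc ‖∑ a, f a‖ ^ 2 * (Fintype.card A : ℝ)
      ≤ ((Fintype.card A : ℝ) * ∑ a, ‖f a‖ ^ 2) * (Fintype.card A : ℝ) :=
        mul_le_mul_of_nonneg_right (h4.trans h2) hc.le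
    _ = (∑ a, ‖f a‖ ^ 2) * (Fintype.card A : ℝ) ^ 2 := by ring

private theorem b2_shift (e : H) (f : H → ℂ) : av (fun y => f (y + e)) = av f := by
  unfold av
  congr 1
  exact Equiv.sum_comp (Equiv.addRight e) f

private theorem b2_shift' (y : H) (f : H → ℂ) : av (fun h => f (y + h)) = av f := by
  unfold av
  congr 1
  exact Equiv.sum_comp (Equiv.addLeft y) f

private theorem b2_sq (z : ℂ) : ((‖z‖ ^ 2 : ℝ) : ℂ) = z * (starRingEnd ℂ) z := by
  rw [Complex.mul_conj, Complex.normSq_eq_norm_sq]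

omit [Fintype H] in
/-- the square of an average of shifts as a double average of derivatives -/
private theorem b2_dbl (E : S' → H) (f : H → ℂ) (y : H) :
    ((‖av (fun s' => f (y + E s'))‖ ^ 2 : ℝ) : ℂ) =
      av (fun s' => av (fun s'' => mder (E s') (E s'') f y)) := by
  rw [b2_sq, ← b2_conj, mul_comm, ← b2_mul_left]
  congr 1
  funext s'
  rw [mul_comm, ← b2_mul_left]
  rfl

/-- small mean -/
private theorem b2_small {D : S → H} {E : S' → H} {ε' ε₀ : ℝ} (hε' : 0 < ε')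
    (hε₀ : 0 ≤ ε₀) (hE : Biased E ε₀) {f : H → ℂ} (hf : ∀ x, ‖f x‖ ≤ 1)
    (hD : ∀ a b, FoolsF D (mder a b f) ε') :
    ‖av (fun p : S × S' => f (D p.1 + E p.2))‖ ^ 2 ≤ ‖av f‖ ^ 2 + ε₀ ^ 2 + ε' := by
  have h1 : av (fun p : S × S' => f (D p.1 + E p.2)) =
      av (fun s => av (fun s' => f (D s + E s'))) := b2_prod fun s s' => f (D s + E s')
  have h2 := b2_cs (fun s => av (fun s' => f (D s + E s')))
  have h3 := shift_bound hε₀ hE hf
  have h4 : |avg (fun s => ‖av (fun s' => f (D s + E s'))‖ ^ 2) -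
      avg (fun y => ‖av (fun s' => f (y + E s'))‖ ^ 2)| ≤ ε' := by
    have h5 : (((avg (fun s => ‖av (fun s' => f (D s + E s'))‖ ^ 2) -
        avg (fun y => ‖av (fun s' => f (y + E s'))‖ ^ 2) : ℝ)) : ℂ) =
        av (fun s' => av (fun s'' => av (fun s => mder (E s') (E s'') f (D s)) -
          av (mder (E s') (E s'') f))) := by
      rw [Complex.ofReal_sub, b2_ofReal, b2_ofReal]
      have e1 : (fun s => ((‖av (fun s' => f (D s + E s'))‖ ^ 2 : ℝ) : ℂ)) =
          fun s => av (fun s' => av (fun s'' => mder (E s') (E s'') f (D s))) := by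
        funext s
        exact b2_dbl E f (D s)
      have e2 : (fun y => ((‖av (fun s' => f (y + E s'))‖ ^ 2 : ℝ) : ℂ)) =
          fun y => av (fun s' => av (fun s'' => mder (E s') (E s'') f y)) := by
        funext y
        exact b2_dbl E f y
      rw [e1, e2, b2_comm, b2_comm (A := H), ← b2_sub]
      congr 1
      funext s'
      rw [b2_comm, b2_comm (A := H), ← b2_sub]
    rw [← Real.norm_eq_abs, ← Complex.norm_real, h5]
    exact b2_norm_le hε'.le fun s' => b2_norm_le hε'.le fun s'' => hD _ _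
  have h6 := (abs_le.1 h4).2
  rw [h1]
  linarith

/-- large mean -/
private theorem b2_large {D : S → H} {ε' : ℝ} (hε' : 0 < ε')
    {f : H → ℂ} (hD : ∀ a b, FoolsF D (mder a b f) ε') (hμ : √ε' ≤ ‖av f‖) (e : H) :
    ‖av (fun s => f (D s + e)) - av f‖ ≤ √ε' := by
  have h1 : (starRingEnd ℂ) (av f) * (av (fun s => f (D s + e)) - av f) =
      av (fun h => av (fun s => mder e h f (D s)) - av (mder e h f)) := by
    have e1 : ∀ y : H, av (fun h => mder e h f y) = (starRingEnd ℂ) (av f) * f (y + e) := by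
      intro y
      have e2 : av (fun h => mder e h f y) =
          av (fun h => f (y + e) * (starRingEnd ℂ) (f (y + h))) := rfl
      rw [e2, b2_mul_left, b2_conj, b2_shift' y f, mul_comm]
    rw [b2_sub, b2_comm]
    have e3 : av (fun h => av (mder e h f)) = av (fun h => av (fun y => mder e h f y)) := rfl
    rw [e3, b2_comm (A := H) (B := H)]
    simp only [e1]
    rw [b2_mul_left, b2_mul_left, b2_shift e f, mul_sub]
  have h2 : ‖av f‖ * ‖av (fun s => f (D s + e)) - av f‖ ≤ ε' := by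
    have h3 : ‖(starRingEnd ℂ) (av f) * (av (fun s => f (D s + e)) - av f)‖ ≤ ε' := by
      rw [h1]
      exact b2_norm_le hε'.le fun h => hD _ _
    rwa [norm_mul, RCLike.norm_conj] at h3
  have hs : 0 < √ε' := Real.sqrt_pos.2 hε'
  have h4 : √ε' * ‖av (fun s => f (D s + e)) - av f‖ ≤ √ε' * √ε' := by
    rw [Real.mul_self_sqrt hε'.le]
    exact (mul_le_mul_of_nonneg_right hμ (norm_nonneg _)).trans h2
  exact le_of_mul_le_mul_left h4 hs

end b2

theorem viola [Nonempty S] [Nonempty S'] {D : S → H} {E : S' → H} {ε' ε₀ : ℝ} (hε' : 0 < ε')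
    (hε₀ : 0 ≤ ε₀) (hE : Biased E ε₀) {f : H → ℂ} (hf : ∀ x, ‖f x‖ ≤ 1)
    (hD : ∀ a b, FoolsF D (mder a b f) ε') :
    FoolsF (fun p : S × S' => D p.1 + E p.2) f (3 * √ε' + ε₀) := by
  have hs : 0 < √ε' := Real.sqrt_pos.2 hε'
  have hss : √ε' ^ 2 = ε' := Real.sq_sqrt hε'.le
  show ‖av (fun p : S × S' => f (D p.1 + E p.2)) - av f‖ ≤ 3 * √ε' + ε₀
  rcases le_or_gt (√ε') ‖av f‖ with hμ | hμ
  · have h1 : av (fun p : S × S' => f (D p.1 + E p.2)) - av f =
        av (fun s' => av (fun s => f (D s + E s')) - av f) := by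
      rw [b2_sub, b2_const]
      congr 1
      rw [b2_comm]
      exact b2_prod fun s s' => f (D s + E s')
    rw [h1]
    have h2 : ‖av (fun s' => av (fun s => f (D s + E s')) - av f)‖ ≤ √ε' :=
      b2_norm_le hs.le fun s' => b2_large hε' hD hμ (E s')
    linarith
  · have h1 := b2_small hε' hε₀ hE hf hD
    have h2 : ‖av f‖ ^ 2 ≤ ε' := by
      rw [← hss]
      exact pow_le_pow_left₀ (norm_nonneg _) hμ.le 2
    have h3 : ‖av (fun p : S × S' => f (D p.1 + E p.2))‖ ^ 2 ≤ (2 * √ε' + ε₀) ^ 2 := by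
      have h4 : (2 * √ε' + ε₀) ^ 2 = 4 * ε' + 4 * (√ε' * ε₀) + ε₀ ^ 2 := by
        rw [← hss]
        rw [Real.sqrt_sq hs.le]
        ring
      have h5 : 0 ≤ √ε' * ε₀ := mul_nonneg hs.le hε₀
      rw [h4]
      linarith
    have h4 : ‖av (fun p : S × S' => f (D p.1 + E p.2))‖ ≤ 2 * √ε' + ε₀ :=
      le_of_sq_le_sq h3 (by positivity)
    have h5 := norm_sub_le (av (fun p : S × S' => f (D p.1 + E p.2))) (av f)
    linarith

end Pool.Agent.MP_ca1109_lc.Mpg
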