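import Pool.Agent.MP_ca1109_lc.Mpg.A4

/-!
# Iterated derivatives of sums of juntas modulo a prime power vanish
-/

namespace Pool.Agent.MP_ca1109_lc.Mpg

open Finset

variable {ι Z : Type*} [AddCommGroup Z]

/- PROOF NOTES [MPG-C1].
Rules: `iader` is additive (`iader_add`), `iader_neg`, `iader_zero`.
Ring of operators: `E = Module.End R (H → R)` with `R = ZMod (p ^ a)` (or additive endomorphisms),
`S h : E`, `(S h A) y = A (y + h)`; `S 0 = 1`, `S (h + h') = S h * S h'`, they commute, `S h ^ p = 1`
if `p • h = 0`.  `ader a b A = (S a - S b) A`.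
`shift_nilp`: for `p` prime, `p • h = 0`: `(S h - 1) ^ p = p * r` with `r` (`Commute.exists_add_pow_prime_eq`
/ `exists_add_pow_prime_eq` for `x = S h`, `y = -1` in the commutative ring generated, or expand by
`Commute.add_pow` and `p ∣ choose p k`; `(-1)^p = -1` for odd `p`, `2 = p * 1` for `p = 2`), so
`(S h - 1) ^ (p * a) = p ^ a * r ^ a = 0` (in `ZMod (p ^ a)`-modules `p ^ a = 0`).
You may work with `AddMonoidAlgebra (ZMod (p ^ a)) H` (commutative ring) instead and let it act.
For a junta `g` depending on `T`, put `tr h i = if i ∈ T then h i else 0`: `g (y + h) = g (y + tr h)`,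
so `iader l g = iader (l.map (tr × tr)) g`
(derivatives of functions depending on `T` depend on `T`).  And
`iader l g = (∏ over l of (S a - S b)) g = (∏ S b) (∏ (S (a - b) - 1)) g`.
The differences `tr a - tr b` lie in the set of functions vanishing outside `T`, which has
`card Z ^ T.card ≤ card Z ^ d` elements (`1 ≤ card Z`); as `l.length ≥ card Z ^ d * (p * a)`, one
difference `h` occurs at least `p * a` times (pigeonhole,
`Finset.exists_le_card_fiber_of_mul_le_card_of_maps_to`), so the commutative product contains the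
factor `(S h - 1) ^ (p * a) = 0`.  (For `a = 0` everything is `0` in `ZMod 1`.)
General `A` by `lowDeg_induction`.
-/

section ring

variable {H R : Type*} [AddCommGroup H] [AddCommGroup R]

/-- The shifts. -/
noncomputable def c1_S : Multiplicative H →* Module.End ℤ (H → R) where
  toFun h :=
    { toFun := fun A y => A (y + Multiplicative.toAdd h)
      map_add' := fun _ _ => rfl
      map_smul' := fun _ _ => rfl }
  map_one' := by
    apply LinearMap.ext
    intro A
    funext y
    change A (y + 0) = A y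
    rw [add_zero]
  map_mul' a b := by
    apply LinearMap.ext
    intro A
    funext y
    change A (y + (Multiplicative.toAdd a + Multiplicative.toAdd b)) =
      A (y + Multiplicative.toAdd a + Multiplicative.toAdd b)
    rw [add_assoc]

/-- The action of the group ring. -/
noncomputable def c1_Phi (H R : Type*) [AddCommGroup H] [AddCommGroup R] :
    AddMonoidAlgebra ℤ H →ₐ[ℤ] Module.End ℤ (H → R) :=
  AddMonoidAlgebra.lift ℤ _ H c1_S

/-- The group elements. -/
noncomputable def c1_s (h : H) : AddMonoidAlgebra ℤ H := AddMonoidAlgebra.single h 1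

theorem c1_Phi_s (h : H) (A : H → R) (y : H) : c1_Phi H R (c1_s h) A y = A (y + h) := by
  unfold c1_Phi c1_s
  rw [AddMonoidAlgebra.lift_single, one_smul]
  rfl

theorem c1_ader (a b : H) (A : H → R) : ader a b A = c1_Phi H R (c1_s a - c1_s b) A := by
  funext y
  rw [map_sub, LinearMap.sub_apply, Pi.sub_apply, c1_Phi_s, c1_Phi_s]
  rfl

theorem c1_iader (l : List (H × H)) (A : H → R) :
    iader l A = c1_Phi H R ((l.map fun q => c1_s q.1 - c1_s q.2).prod) A := by
  induction l generalizing A with
  | nil =>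
    rw [List.map_nil, List.prod_nil, map_one]
    rfl
  | cons q l ih =>
    rw [List.map_cons, List.prod_cons, mul_comm, map_mul, Module.End.mul_apply, ← c1_ader, ← ih]
    rfl

theorem c1_s_add (a b : H) : c1_s (a + b) = c1_s a * c1_s b := by
  unfold c1_s
  rw [AddMonoidAlgebra.single_mul_single, one_mul]

theorem c1_s_zero : c1_s (0 : H) = 1 := rfl

theorem c1_s_pow (h : H) (n : ℕ) : c1_s h ^ n = c1_s (n • h) := by
  unfold c1_s
  rw [AddMonoidAlgebra.single_pow, one_pow]

theorem c1_nilp {p : ℕ} (hp : p.Prime) {h : H} (hh : p • h = 0) :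
    ((p : ℕ) : AddMonoidAlgebra ℤ H) ∣ (c1_s h - 1) ^ p := by
  obtain ⟨r, hr⟩ := exists_add_pow_prime_eq hp (c1_s h) (-1)
  rw [sub_eq_add_neg, hr, c1_s_pow, hh, c1_s_zero]
  have h1 : ((p : ℕ) : AddMonoidAlgebra ℤ H) ∣ 1 + (-1) ^ p := by
    rcases hp.eq_two_or_odd' with h2 | h2
    · subst h2
      refine ⟨1, ?_⟩
      norm_num
    · rw [h2.neg_one_pow, add_neg_cancel]
      exact dvd_zero _
  refine dvd_add h1 ?_
  rw [mul_assoc, mul_assoc]
  exact dvd_mul_right _ _

theorem c1_nilp2 {p a : ℕ} (hp : p.Prime) {h : H} (hh : p • h = 0) :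
    (((p : ℕ) : AddMonoidAlgebra ℤ H)) ^ a ∣ (c1_s h - 1) ^ (p * a) := by
  rw [pow_mul]
  exact pow_dvd_pow_of_dvd (c1_nilp hp hh) a

theorem c1_prod_dvd {p a N : ℕ} [DecidableEq H] (hp : p.Prime) (L : List H)
    (hh : ∀ h ∈ L, p • h = 0) (hN : L.toFinset.card ≤ N) (hN0 : 0 < N)
    (hL : N * (p * a) ≤ L.length) :
    (((p : ℕ) : AddMonoidAlgebra ℤ H)) ^ a ∣ (L.map fun h => c1_s h - 1).prod := by
  rcases Nat.eq_zero_or_pos a with ha | ha
  · subst ha
    rw [pow_zero]
    exact one_dvd _
  have hpos : 0 < N * (p * a) := Nat.mul_pos hN0 (Nat.mul_pos hp.pos ha)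
  have hex : ∃ h ∈ L.toFinset, p * a ≤ L.count h := by
    by_contra hcon
    push Not at hcon
    have hne : L.toFinset.Nonempty := by
      rw [List.toFinset_nonempty_iff]
      intro h0
      rw [h0, List.length_nil] at hL
      omega
    have h1 : ∑ h ∈ L.toFinset, L.count h < ∑ _h ∈ L.toFinset, p * a :=
      Finset.sum_lt_sum_of_nonempty hne hcon
    rw [List.sum_toFinset_count_eq_length, Finset.sum_const, smul_eq_mul] at h1
    have h2 : L.toFinset.card * (p * a) ≤ N * (p * a) := Nat.mul_le_mul_right _ hN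
    omega
  obtain ⟨h, hmem, hcount⟩ := hex
  rw [Finset.prod_list_map_count]
  refine dvd_trans ?_ (Finset.dvd_prod_of_mem (fun h => (c1_s h - 1) ^ L.count h) hmem)
  exact dvd_trans (c1_nilp2 hp (hh h (List.mem_toFinset.1 hmem))) (pow_dvd_pow _ hcount)

theorem c1_split (l : List (H × H)) : (l.map fun q => c1_s q.1 - c1_s q.2).prod =
    (l.map fun q => c1_s q.2).prod * ((l.map fun q => q.1 - q.2).map fun h => c1_s h - 1).prod := by
  rw [List.map_map, ← List.prod_map_mul]
  congr 1
  refine List.map_congr_left fun q _ => ?_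
  rw [Function.comp_apply, mul_sub, ← c1_s_add, mul_one, add_sub_cancel]

/-- Derivatives along differences of order `p` which take few values. -/
theorem c1_zero {p a N : ℕ} [DecidableEq H] (hp : p.Prime) (l : List (H × H))
    (hh : ∀ q ∈ l, p • (q.1 - q.2) = 0) (hN : (l.map fun q => q.1 - q.2).toFinset.card ≤ N)
    (hN0 : 0 < N) (hL : N * (p * a) ≤ l.length) (A : H → ZMod (p ^ a)) : iader l A = 0 := by
  rw [c1_iader, c1_split]
  obtain ⟨r, hr⟩ := c1_prod_dvd hp (l.map fun q => q.1 - q.2) (by
    intro h hm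
    obtain ⟨q, hq, rfl⟩ := List.mem_map.1 hm
    exact hh q hq) hN hN0 (a := a) (by rwa [List.length_map])
  rw [hr, mul_left_comm, map_mul, map_pow, map_natCast, Module.End.mul_apply, ← Nat.cast_pow]
  funext y
  rw [Module.End.natCast_apply, Pi.smul_apply, nsmul_eq_mul, ZMod.natCast_self, zero_mul]
  rfl

end ring

theorem iader_add {R H : Type*} [AddCommGroup R] [AddCommGroup H] (l : List (H × H))
    (A B : H → R) : iader l (A + B) = iader l A + iader l B := by
  rw [c1_iader, c1_iader, c1_iader, map_add]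

theorem iader_neg {R H : Type*} [AddCommGroup R] [AddCommGroup H] (l : List (H × H))
    (A : H → R) : iader l (-A) = - iader l A := by
  rw [c1_iader, c1_iader, map_neg]

theorem iader_zero {R H : Type*} [AddCommGroup R] [AddCommGroup H] (l : List (H × H)) :
    iader l (0 : H → R) = 0 := by
  rw [c1_iader, map_zero]

/-- The coordinates in `T`. -/
def c1_tr (T : Finset ι) [DecidableEq ι] (h : ι → Z) : ι → Z := fun i => if i ∈ T then h i else 0

theorem c1_ader_dep {R : Type*} [AddCommGroup R] [DecidableEq ι] {T : Finset ι}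
    {g : (ι → Z) → R} (hg : DependsOn g (T : Set ι)) (a b : ι → Z) :
    ader a b g = ader (c1_tr T a) (c1_tr T b) g ∧ DependsOn (ader a b g) (T : Set ι) := by
  constructor
  · funext y
    unfold ader
    congr 1
    · refine hg fun i hi => ?_
      unfold c1_tr
      rw [Pi.add_apply, Pi.add_apply, if_pos (Finset.mem_coe.1 hi)]
    · refine hg fun i hi => ?_
      unfold c1_tr
      rw [Pi.add_apply, Pi.add_apply, if_pos (Finset.mem_coe.1 hi)]
  · intro x y hxy
    unfold ader
    congr 1
    · refine hg fun i hi => ?_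
      rw [Pi.add_apply, Pi.add_apply, hxy i hi]
    · refine hg fun i hi => ?_
      rw [Pi.add_apply, Pi.add_apply, hxy i hi]

theorem c1_iader_dep {R : Type*} [AddCommGroup R] [DecidableEq ι] {T : Finset ι}
    (l : List ((ι → Z) × (ι → Z))) {g : (ι → Z) → R} (hg : DependsOn g (T : Set ι)) :
    iader l g = iader (l.map fun q => (c1_tr T q.1, c1_tr T q.2)) g := by
  induction l generalizing g with
  | nil => rfl
  | cons q l ih =>
    obtain ⟨h1, h2⟩ := c1_ader_dep hg q.1 q.2
    rw [List.map_cons]
    change iader l (ader q.1 q.2 g) =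
      iader (l.map fun q => (c1_tr T q.1, c1_tr T q.2)) (ader (c1_tr T q.1) (c1_tr T q.2) g)
    rw [← h1]
    exact ih h2

theorem c1_card [Fintype ι] [Fintype Z] [DecidableEq ι] [DecidableEq Z] (T : Finset ι)
    (L : List (ι → Z)) (hL : ∀ h ∈ L, ∀ i, i ∉ T → h i = 0) :
    L.toFinset.card ≤ Fintype.card Z ^ T.card := by
  have h1 : L.toFinset ⊆ (Finset.univ : Finset (T → Z)).image
      (fun f i => if hi : i ∈ T then f ⟨i, hi⟩ else 0) := by
    intro h hm
    rw [Finset.mem_image]
    refine ⟨fun i => h i.1, Finset.mem_univ _, ?_⟩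
    funext i
    by_cases hi : i ∈ T
    · rw [dif_pos hi]
    · rw [dif_neg hi, hL h (List.mem_toFinset.1 hm) i hi]
  refine (Finset.card_le_card h1).trans (Finset.card_image_le.trans ?_)
  rw [Finset.card_univ, Fintype.card_fun, Fintype.card_coe]

theorem iader_lowDeg [Fintype ι] [Fintype Z] {p a d : ℕ} (hp : p.Prime) (hZ : ∀ z : Z, p • z = 0)
    {A : (ι → Z) → ZMod (p ^ a)} (hA : A ∈ lowDeg ι Z (ZMod (p ^ a)) d)
    (l : List ((ι → Z) × (ι → Z))) (hl : Fintype.card Z ^ d * (p * a) ≤ l.length) :
    iader l A = 0 := by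
  classical
  refine lowDeg_induction (p := fun A => iader l A = 0) hA ?_ ?_ ?_ ?_
  · intro g T hT hg
    rw [c1_iader_dep l hg]
    have hc : 0 < Fintype.card Z := Fintype.card_pos
    refine c1_zero hp _ ?_ ((c1_card T _ ?_).trans (Nat.pow_le_pow_right hc hT))
      (Nat.pow_pos hc) (by rwa [List.length_map]) g
    · intro q _
      funext i
      exact hZ _
    · intro h hm i hi
      rw [List.map_map] at hm
      obtain ⟨q, _, rfl⟩ := List.mem_map.1 hm
      change (if i ∈ T then q.1 i else 0) - (if i ∈ T then q.2 i else 0) = 0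
      rw [if_neg hi, if_neg hi, sub_zero]
  · exact iader_zero l
  · intro f g hf hg
    rw [iader_add, hf, hg, add_zero]
  · intro f hf
    rw [iader_neg, hf, neg_zero]

end Pool.Agent.MP_ca1109_lc.Mpg
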