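import Pool.Agent.MP_ca1109_lc.Mpg.C1
import Pool.Agent.MP_ca1109_lc.Mpg.A5

/-!
# The classes of the induction over the primes
-/

namespace Pool.Agent.MP_ca1109_lc.Mpg

open Finset

/- PROOF NOTES [MPG-C2].
`ph_crt`: `q, m'` coprime.  Choose `u v : ℤ` (or ℕ) with `u m' + v q = 1` (`Nat.gcdA`, Bezout).
`φ = u • ZMod.castHom (q ∣ q m')`, `ψ = v • ZMod.castHom (m' ∣ q m')`.  For `z = (k : ZMod (q m'))`,
`k : ℤ` (`ZMod.intCast_surjective`): `ZMod.stdAddChar_coe` :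
`ph N (k : ZMod N) = exp (2 π i k / N)`, and `u k / q + v k / m' = k (u m' + v q) / (q m') = k/(q m')`.
`kCls_zero`: the list `[]` gives `A = 0`, `ph_zero`.
`kCls_norm`: `norm_ph`.
`kCls_step`: `mder a b f` for `f = ph A * ph B` is `ph (ader a b A) * ph (ader a b B)` (`ph_sub`);
`iader l (ader a b A) = iader ((a, b) :: l) A = 0` for `l.length = j`; `ader a b B ∈ lowDeg`
(`lowDeg_comp` with `β i z = z + a i`, subtract).
`kCls_of_phCls`: `ph_crt`, `lowDeg_hom`, `iader_lowDeg`.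
-/

theorem ph_crt {q m' : ℕ} [NeZero q] [NeZero m'] (h : Nat.Coprime q m') :
    ∃ (φ : ZMod (q * m') →+ ZMod q) (ψ : ZMod (q * m') →+ ZMod m'),
      ∀ z, ph (q * m') z = ph q (φ z) * ph m' (ψ z) := by
  have hb := Nat.gcd_eq_gcd_ab m' q
  rw [Nat.Coprime.gcd_eq_one h.symm] at hb
  obtain ⟨u, v, huv⟩ : ∃ u v : ℤ, u * m' + v * q = 1 := by
    refine ⟨Nat.gcdA m' q, Nat.gcdB m' q, ?_⟩
    rw [mul_comm, mul_comm (Nat.gcdB m' q)]
    exact_mod_cast hb.symm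
  refine ⟨(AddMonoidHom.mulLeft (u : ZMod q)).comp
      (ZMod.castHom (Dvd.intro m' rfl) (ZMod q)).toAddMonoidHom,
    (AddMonoidHom.mulLeft (v : ZMod m')).comp
      (ZMod.castHom (Dvd.intro_left q rfl) (ZMod m')).toAddMonoidHom, ?_⟩
  intro z
  obtain ⟨k, rfl⟩ := ZMod.intCast_surjective z
  have h1 : ((AddMonoidHom.mulLeft (u : ZMod q)).comp
      (ZMod.castHom (Dvd.intro m' rfl) (ZMod q)).toAddMonoidHom) (k : ZMod (q * m')) =
      ((u * k : ℤ) : ZMod q) := by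
    show (u : ZMod q) * ZMod.castHom (Dvd.intro m' rfl) (ZMod q) (k : ZMod (q * m')) = _
    rw [map_intCast, Int.cast_mul]
  have h2 : ((AddMonoidHom.mulLeft (v : ZMod m')).comp
      (ZMod.castHom (Dvd.intro_left q rfl) (ZMod m')).toAddMonoidHom) (k : ZMod (q * m')) =
      ((v * k : ℤ) : ZMod m') := by
    show (v : ZMod m') * ZMod.castHom (Dvd.intro_left q rfl) (ZMod m') (k : ZMod (q * m')) = _
    rw [map_intCast, Int.cast_mul]
  rw [h1, h2]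
  unfold ph
  rw [ZMod.stdAddChar_coe, ZMod.stdAddChar_coe, ZMod.stdAddChar_coe, ← Complex.exp_add]
  congr 1
  have hq : (q : ℂ) ≠ 0 := Nat.cast_ne_zero.2 (NeZero.ne q)
  have hm : (m' : ℂ) ≠ 0 := Nat.cast_ne_zero.2 (NeZero.ne m')
  have h3 : (u : ℂ) * m' + v * q = 1 := by exact_mod_cast huv
  push_cast
  field_simp
  linear_combination (-(k : ℂ)) * h3

variable {Z : Type} [AddCommGroup Z] {q m' d n : ℕ} [NeZero q] [NeZero m']

theorem kCls_zero {f : (Fin n → Z) → ℂ} (hf : f ∈ kCls q m' Z d 0 n) : f ∈ phCls m' Z d n := by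
  obtain ⟨A, hA, B, hB, rfl⟩ := hf
  have h1 : A = 0 := hA [] rfl
  refine ⟨B, hB, ?_⟩
  funext x
  rw [h1, Pi.zero_apply, ph_zero, one_mul]

theorem kCls_norm {j : ℕ} {f : (Fin n → Z) → ℂ} (hf : f ∈ kCls q m' Z d j n)
    (x : Fin n → Z) : ‖f x‖ ≤ 1 := by
  obtain ⟨A, _, B, _, rfl⟩ := hf
  show ‖ph q (A x) * ph m' (B x)‖ ≤ 1
  rw [norm_mul, norm_ph, norm_ph, one_mul]

theorem kCls_step {j : ℕ} {f : (Fin n → Z) → ℂ} (hf : f ∈ kCls q m' Z d (j + 1) n)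
    (a b : Fin n → Z) : mder a b f ∈ kCls q m' Z d j n := by
  obtain ⟨A, hA, B, hB, rfl⟩ := hf
  refine ⟨ader a b A, fun l hl => hA ((a, b) :: l) (by rw [List.length_cons, hl]),
    ader a b B, ?_, ?_⟩
  · have h1 := lowDeg_comp (fun i z => z + a i) hB
    have h2 := lowDeg_comp (fun i z => z + b i) hB
    exact AddSubgroup.sub_mem _ h1 h2
  · funext y
    unfold mder ader
    rw [ph_sub, ph_sub, map_mul]
    ring

theorem kCls_of_phCls [Fintype Z] {p a : ℕ} [NeZero (p ^ a)] [NeZero (p ^ a * m')]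
    (hp : p.Prime) (hZ : ∀ z : Z, p • z = 0)
    (h : Nat.Coprime (p ^ a) m') {f : (Fin n → Z) → ℂ}
    (hf : f ∈ phCls (p ^ a * m') Z d n) :
    f ∈ kCls (p ^ a) m' Z d (Fintype.card Z ^ d * (p * a)) n := by
  obtain ⟨P, hP, rfl⟩ := hf
  obtain ⟨φ, ψ, hφ⟩ := ph_crt h
  refine ⟨fun x => φ (P x), fun l hl => ?_, fun x => ψ (P x), lowDeg_hom ψ hP, ?_⟩
  · exact iader_lowDeg hp hZ (lowDeg_hom φ hP) l hl.ge
  · funext x
    exact hφ (P x)

end Pool.Agent.MP_ca1109_lc.Mpg
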