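import Pool.Agent.MP_ca1109_lc.Mpg.Defs
import Pool.Agent.Lib.PCP.MGG

/-!
# Walks on the Margulis-Gabber-Galil graph
-/

namespace Pool.Agent.MP_ca1109_lc.Mpg

open Finset

/-- The end of the walk of `L` steps from the vertex `p` of the graph on `M * M` vertices; the
steps are the digits of `e` in base `8`. -/
def wk (M : ℕ) : ℕ → ℕ → ℕ → ℕ
  | 0, p, _ => p
  | L + 1, p, e => wk M L (Pool.Agent.Lib.PCP.mgg M p ⟨e % 8, Nat.mod_lt _ (by norm_num)⟩) (e / 8)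

/- PROOF NOTES [MPG-D1].  From `Pool/Agent/Lib/PCP/MGG.lean`: `mgg_lt`, `mggE_sum`
(each `mgg M · i` permutes `range (M * M)`), `mgg_spec` :
`∑ p ∈ range (M*M), f p = 0 → ∑ p, (∑ i, f (mgg M p i)) ^ 2 ≤ (73/10) ^ 2 * ∑ p, (f p) ^ 2` (real `f`).
`sum_digits`: `∑ e ∈ range (8 ^ (L+1)), φ (e % 8) (e / 8) = ∑ i : Fin 8, ∑ e' ∈ range (8 ^ L), φ i e'`
(`8 ^ (L+1) = 8 ^ L * 8`, bijection `e ↔ (e % 8, e / 8)`).
`wk_sum`: for every `e`, hence after summing: `∑ p, ∑ e, f (wk M L p e) = 8 ^ L * ∑ p, f p`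
(induction on `L` with `mggE_sum`; the cited lemma is for real functions: apply it to real and
imaginary parts, or prove that `p ↦ mgg M p i` is a bijection of `range (M*M)` from `mgg_bk`).
`wk_contract`: induction on `L`: with `g p = ∑ e ∈ range (8 ^ L), f (wk M L p e)`,
`∑ e ∈ range (8 ^ (L+1)), f (wk M (L+1) p e) = ∑ i, g (mgg M p i)`; `∑ p, g p = 0` by `wk_sum`;
`mgg_spec` for `re` and `im` (`‖z‖² = re² + im²`).
`mixing`: put `N = M * M`, `b = (∑ p, B p) / N`, `B₀ = B - b`, `∑ B₀ = 0`,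
`∑ ‖B₀‖² = ∑ ‖B‖² - N ‖b‖² ≤ N`.
`∑ p, ∑ e, A p * B (wk p e) = 8^L * b * ∑ A + ∑ p, A p * (∑ e, B₀ (wk p e))` and by Cauchy-Schwarz the
last sum has norm `≤ √(∑ ‖A‖²) √((73/10)^(2L) N) ≤ N (73/10)^L`.
Divide by `N 8^L`: `(73/10)^L / 8^L = (73/80)^L`.  If `M = 0` all sums are empty (`0 / 0 = 0`).
-/

theorem wk_lt {M : ℕ} : ∀ (L : ℕ) {p : ℕ} (e : ℕ), p < M * M → wk M L p e < M * M := by
  intro L
  induction L with
  | zero => intro p e hp; exact hp
  | succ L ih => intro p e hp; exact ih (e / 8) (Pool.Agent.Lib.PCP.mgg_lt hp _)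

private lemma d1_sum_digits {β : Type*} [AddCommMonoid β] (L : ℕ) (φ : Fin 8 → ℕ → β) :
    ∑ e ∈ range (8 ^ (L + 1)), φ ⟨e % 8, Nat.mod_lt _ (by norm_num)⟩ (e / 8) =
      ∑ i : Fin 8, ∑ e ∈ range (8 ^ L), φ i e := by
  rw [← Finset.sum_product']
  refine Finset.sum_nbij' (fun e => (⟨e % 8, Nat.mod_lt _ (by norm_num)⟩, e / 8))
    (fun x => x.2 * 8 + x.1.1) ?_ ?_ ?_ ?_ ?_
  · intro e he
    rw [Finset.mem_range, pow_succ] at he
    simp only [Finset.mem_product, Finset.mem_univ, true_and, Finset.mem_range]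
    omega
  · rintro ⟨i, e⟩ he
    simp only [Finset.mem_product, Finset.mem_univ, true_and, Finset.mem_range] at he
    rw [Finset.mem_range, pow_succ]
    have := i.2
    omega
  · intro e _
    show e / 8 * 8 + e % 8 = e
    omega
  · rintro ⟨i, e⟩ _
    have := i.2
    refine Prod.ext (Fin.ext ?_) ?_
    · show (e * 8 + i.1) % 8 = i.1
      omega
    · show (e * 8 + i.1) / 8 = e
      omega
  · intro e _
    rfl

private lemma d1_mgg_sum (M : ℕ) (i : Fin 8) (φ : ℕ → ℂ) :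
    ∑ p ∈ range (M * M), φ (Pool.Agent.Lib.PCP.mgg M p i) = ∑ p ∈ range (M * M), φ p := by
  refine Finset.sum_nbij' (fun p => Pool.Agent.Lib.PCP.mgg M p i)
    (fun p => Pool.Agent.Lib.PCP.mgg M p (Pool.Agent.Lib.PCP.bk8 i)) ?_ ?_ ?_ ?_ ?_
  · intro p hp
    exact Finset.mem_range.2 (Pool.Agent.Lib.PCP.mgg_lt (Finset.mem_range.1 hp) i)
  · intro p hp
    exact Finset.mem_range.2 (Pool.Agent.Lib.PCP.mgg_lt (Finset.mem_range.1 hp) _)
  · intro p hp
    exact Pool.Agent.Lib.PCP.mgg_bk (Finset.mem_range.1 hp) i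
  · intro p hp
    have h := Pool.Agent.Lib.PCP.mgg_bk (Finset.mem_range.1 hp) (Pool.Agent.Lib.PCP.bk8 i)
    rw [Pool.Agent.Lib.PCP.mggE_bk8] at h
    exact h
  · intro p _
    rfl

private lemma d1_spec (M : ℕ) (g : ℕ → ℂ) (hg : ∑ p ∈ range (M * M), g p = 0) :
    ∑ p ∈ range (M * M), ‖∑ i, g (Pool.Agent.Lib.PCP.mgg M p i)‖ ^ 2 ≤
      (73 / 10 : ℝ) ^ 2 * ∑ p ∈ range (M * M), ‖g p‖ ^ 2 := by
  have hre := Pool.Agent.Lib.PCP.mgg_spec M (fun p => (g p).re)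
    (by rw [← Complex.re_sum, hg]; rfl)
  have him := Pool.Agent.Lib.PCP.mgg_spec M (fun p => (g p).im)
    (by rw [← Complex.im_sum, hg]; rfl)
  have key : ∀ z : ℂ, ‖z‖ ^ 2 = z.re ^ 2 + z.im ^ 2 := fun z => by
    rw [Complex.sq_norm, Complex.normSq_apply]; ring
  simp only [key, Complex.re_sum, Complex.im_sum, Finset.sum_add_distrib, mul_add]
  exact add_le_add hre him

theorem wk_sum (M L : ℕ) (f : ℕ → ℂ) :
    ∑ p ∈ range (M * M), ∑ e ∈ range (8 ^ L), f (wk M L p e) =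
      8 ^ L * ∑ p ∈ range (M * M), f p := by
  induction L with
  | zero => simp [wk]
  | succ L ih =>
    have h1 : ∀ p, ∑ e ∈ range (8 ^ (L + 1)), f (wk M (L + 1) p e) =
        ∑ i : Fin 8, ∑ e ∈ range (8 ^ L), f (wk M L (Pool.Agent.Lib.PCP.mgg M p i) e) := fun p =>
      d1_sum_digits L fun i e => f (wk M L (Pool.Agent.Lib.PCP.mgg M p i) e)
    simp only [h1]
    rw [Finset.sum_comm]
    have h2 : ∀ i : Fin 8, ∑ p ∈ range (M * M), ∑ e ∈ range (8 ^ L),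
        f (wk M L (Pool.Agent.Lib.PCP.mgg M p i) e) = 8 ^ L * ∑ p ∈ range (M * M), f p := fun i => by
      rw [d1_mgg_sum M i fun p => ∑ e ∈ range (8 ^ L), f (wk M L p e), ih]
    simp only [h2, Finset.sum_const, Finset.card_univ, Fintype.card_fin, nsmul_eq_mul]
    push_cast
    ring

theorem wk_contract (M L : ℕ) (f : ℕ → ℂ) (hf : ∑ p ∈ range (M * M), f p = 0) :
    ∑ p ∈ range (M * M), ‖∑ e ∈ range (8 ^ L), f (wk M L p e)‖ ^ 2 ≤
      ((73 / 10 : ℝ) ^ L) ^ 2 * ∑ p ∈ range (M * M), ‖f p‖ ^ 2 := by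
  induction L with
  | zero => simp [wk]
  | succ L ih =>
    have h1 : ∀ p, ∑ e ∈ range (8 ^ (L + 1)), f (wk M (L + 1) p e) =
        ∑ i : Fin 8, ∑ e ∈ range (8 ^ L), f (wk M L (Pool.Agent.Lib.PCP.mgg M p i) e) := fun p =>
      d1_sum_digits L fun i e => f (wk M L (Pool.Agent.Lib.PCP.mgg M p i) e)
    simp only [h1]
    have h2 := d1_spec M (fun p => ∑ e ∈ range (8 ^ L), f (wk M L p e))
      (by rw [wk_sum, hf, mul_zero])
    refine h2.trans ?_
    calc (73 / 10 : ℝ) ^ 2 * ∑ p ∈ range (M * M), ‖∑ e ∈ range (8 ^ L), f (wk M L p e)‖ ^ 2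
        ≤ (73 / 10 : ℝ) ^ 2 * (((73 / 10 : ℝ) ^ L) ^ 2 * ∑ p ∈ range (M * M), ‖f p‖ ^ 2) :=
          mul_le_mul_of_nonneg_left ih (by norm_num)
      _ = _ := by ring

theorem mixing (M L : ℕ) (A B : ℕ → ℂ) (hA : ∀ p, ‖A p‖ ≤ 1) (hB : ∀ p, ‖B p‖ ≤ 1) :
    ‖(∑ p ∈ range (M * M), ∑ e ∈ range (8 ^ L), A p * B (wk M L p e)) /
        ((M * M * 8 ^ L : ℕ) : ℂ)‖ ≤
      ‖(∑ p ∈ range (M * M), A p) / ((M * M : ℕ) : ℂ)‖ *
        ‖(∑ p ∈ range (M * M), B p) / ((M * M : ℕ) : ℂ)‖ + (73 / 80 : ℝ) ^ L := by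
  rcases Nat.eq_zero_or_pos M with hM | hM
  · subst hM
    simp only [Nat.zero_mul, Finset.range_zero, Finset.sum_empty, zero_div, norm_zero, mul_zero,
      zero_add]
    positivity
  set N : ℕ := M * M with hN
  have hNpos : 0 < N := Nat.mul_pos hM hM
  have hNR : (0 : ℝ) < (N : ℝ) := by exact_mod_cast hNpos
  have hNC : (N : ℂ) ≠ 0 := by exact_mod_cast hNpos.ne'
  set b : ℂ := (∑ p ∈ range N, B p) / (N : ℂ) with hb
  have hbN : (N : ℂ) * b = ∑ p ∈ range N, B p := by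
    rw [hb]
    field_simp
  have hB0 : ∑ p ∈ range N, (B p - b) = 0 := by
    rw [Finset.sum_sub_distrib, Finset.sum_const, Finset.card_range, nsmul_eq_mul, hbN, sub_self]
  have hB2 : ∑ p ∈ range N, ‖B p - b‖ ^ 2 ≤ N := by
    have key : ∀ z : ℂ, ‖z‖ ^ 2 = z.re ^ 2 + z.im ^ 2 := fun z => by
      rw [Complex.sq_norm, Complex.normSq_apply]; ring
    have hre : ∑ p ∈ range N, (B p).re = N * b.re := by
      have h := congrArg Complex.re hbN
      rw [Complex.re_sum] at h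
      rw [← h]
      simp
    have him : ∑ p ∈ range N, (B p).im = N * b.im := by
      have h := congrArg Complex.im hbN
      rw [Complex.im_sum] at h
      rw [← h]
      simp
    have h1 : ∑ p ∈ range N, ‖B p - b‖ ^ 2 =
        ∑ p ∈ range N, ‖B p‖ ^ 2 - N * ‖b‖ ^ 2 := by
      have h2 : ∀ p, ‖B p - b‖ ^ 2 = ‖B p‖ ^ 2 - 2 * b.re * (B p).re - 2 * b.im * (B p).im
          + ‖b‖ ^ 2 := fun p => by
        rw [key, key, key, Complex.sub_re, Complex.sub_im]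
        ring
      simp only [h2, Finset.sum_add_distrib, Finset.sum_sub_distrib, ← Finset.mul_sum, hre, him,
        Finset.sum_const, Finset.card_range, nsmul_eq_mul]
      rw [key b]
      ring
    have h3 : ∑ p ∈ range N, ‖B p‖ ^ 2 ≤ ∑ p ∈ range N, (1 : ℝ) :=
      Finset.sum_le_sum fun p _ => pow_le_one₀ (norm_nonneg _) (hB p)
    rw [Finset.sum_const, Finset.card_range, nsmul_eq_mul, mul_one] at h3
    rw [h1]
    have h4 : 0 ≤ (N : ℝ) * ‖b‖ ^ 2 := by positivity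
    linarith
  have hcon := wk_contract M L (fun p => B p - b) hB0
  set R : ℂ := ∑ p ∈ range N, A p * ∑ e ∈ range (8 ^ L), (B (wk M L p e) - b) with hR
  have hsum : ∑ p ∈ range N, ∑ e ∈ range (8 ^ L), A p * B (wk M L p e) =
      8 ^ L * b * ∑ p ∈ range N, A p + R := by
    rw [hR, Finset.mul_sum, ← Finset.sum_add_distrib]
    refine Finset.sum_congr rfl fun p _ => ?_
    rw [← Finset.mul_sum, Finset.sum_sub_distrib, Finset.sum_const, Finset.card_range,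
      nsmul_eq_mul]
    push_cast
    ring
  have hRn : ‖R‖ ≤ N * (73 / 10 : ℝ) ^ L := by
    have h1 : ‖R‖ ≤ ∑ p ∈ range N, ‖∑ e ∈ range (8 ^ L), (B (wk M L p e) - b)‖ := by
      refine (norm_sum_le _ _).trans (Finset.sum_le_sum fun p _ => ?_)
      rw [norm_mul]
      exact mul_le_of_le_one_left (norm_nonneg _) (hA p)
    have h2 := sq_sum_le_card_mul_sum_sq (s := range N)
      (f := fun p => ‖∑ e ∈ range (8 ^ L), (B (wk M L p e) - b)‖)
    rw [Finset.card_range] at h2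
    have h3 : (∑ p ∈ range N, ‖∑ e ∈ range (8 ^ L), (B (wk M L p e) - b)‖) ^ 2 ≤
        (N * (73 / 10 : ℝ) ^ L) ^ 2 := by
      calc _ ≤ _ := h2
        _ ≤ (N : ℝ) * (((73 / 10 : ℝ) ^ L) ^ 2 * N) :=
          mul_le_mul_of_nonneg_left
            (hcon.trans (mul_le_mul_of_nonneg_left hB2 (by positivity))) hNR.le
        _ = _ := by ring
    exact h1.trans ((pow_le_pow_iff_left₀ (Finset.sum_nonneg fun _ _ => norm_nonneg _)
      (by positivity) two_ne_zero).1 h3)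
  have h8 : (8 : ℂ) ^ L ≠ 0 := pow_ne_zero _ (by norm_num)
  have hdiv : (∑ p ∈ range N, ∑ e ∈ range (8 ^ L), A p * B (wk M L p e)) /
      ((N * 8 ^ L : ℕ) : ℂ) = (∑ p ∈ range N, A p) / (N : ℂ) * b + R / ((N * 8 ^ L : ℕ) : ℂ) := by
    rw [hsum]
    push_cast
    field_simp
  rw [hdiv]
  refine (norm_add_le _ _).trans (add_le_add (norm_mul _ _).le ?_)
  rw [norm_div, Complex.norm_natCast, div_le_iff₀ (by positivity)]
  calc ‖R‖ ≤ N * (73 / 10 : ℝ) ^ L := hRn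
    _ = (73 / 80 : ℝ) ^ L * ((N * 8 ^ L : ℕ) : ℝ) := by
      push_cast
      rw [show (73 / 80 : ℝ) = 73 / 10 / 8 by norm_num, div_pow (73 / 10 : ℝ) 8]
      field_simp

end Pool.Agent.MP_ca1109_lc.Mpg
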