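import Pool.Agent.MP_ca1109_lc.Mpg.D1

/-!
# The generator of Impagliazzo, Nisan and Wigderson and products of nontrivial characters
-/

namespace Pool.Agent.MP_ca1109_lc.Mpg

open Finset

/-- The side of the graph at level `k`. -/
def sd (b v k : ℕ) : ℕ := 2 ^ (b + 3 * v * k)

/-- The `i`-th output (a number below `4 ^ b`) for the seed `p < (sd b v k) ^ 2`, `i < 2 ^ k`. -/
def gi (b v : ℕ) : ℕ → ℕ → ℕ → ℕ
  | 0, p, _ => p
  | k + 1, p, i =>
    if i < 2 ^ k then gi b v k (p / 8 ^ (2 * v)) i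
    else gi b v k (wk (sd b v k) (2 * v) (p / 8 ^ (2 * v)) (p % 8 ^ (2 * v))) (i - 2 ^ k)

/- PROOF NOTES [MPG-D2].  `sd b v (k+1) * sd b v (k+1) = sd b v k * sd b v k * 8 ^ (2*v)`
(`64 ^ v = 8 ^ (2 v)`), and `sd b v 0 * sd b v 0 = 4 ^ b`.
`F k g p = ∏ i ∈ range (2 ^ k), g i (gi b v k p i)`; `g' i = g (2^k + i)`:
`F (k+1) g p = F k g (p / D) * F k g' (wk .. (p / D) (p % D))`, `D = 8 ^ (2 v)`
(`pow_succ`, `Finset.prod_range_add` after `2 ^ (k+1) = 2 ^ k + 2 ^ k`), and
`∑ p < M_{k+1}², φ (p / D) (p % D) = ∑ p' < M_k², ∑ e < D, φ p' e` (bijection, `Nat.div_add_mod`).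
`gi_bias` by induction on `k`, for all `g`:
the statement: if all `g i` (`i < 2 ^ k`) are constant `1` nothing is claimed; otherwise average `≤ δ`.
`k = 0`: the only index is `0`.  Step: if both halves contain a nontrivial index: `mixing` and the
induction hypothesis give `≤ δ * δ + (73/80) ^ (2 v) ≤ δ`.  If only the first half does, `F k g' = 1`
identically, so the average is the one of the first half (`≤ δ`); if only the second half does,
the average is the one of the second half by `wk_sum`.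
-/

theorem d2_sd_zero (b v : ℕ) : sd b v 0 * sd b v 0 = 4 ^ b := by
  unfold sd
  rw [mul_zero, add_zero, ← mul_pow]
  norm_num

/-- Division with remainder in a sum. -/
theorem d2_sum_div (D : ℕ) (hD : 0 < D) (φ : ℕ → ℕ → ℂ) (m : ℕ) :
    ∑ p ∈ range (m * D), φ (p / D) (p % D) = ∑ p ∈ range m, ∑ e ∈ range D, φ p e := by
  induction m with
  | zero => simp
  | succ m ih =>
    rw [Nat.succ_mul, Finset.sum_range_add, ih, Finset.sum_range_succ]
    congr 1
    apply Finset.sum_congr rfl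
    intro e he
    have he' : e < D := Finset.mem_range.mp he
    have h1 : (m * D + e) / D = m := by
      rw [mul_comm m D, Nat.mul_add_div hD, Nat.div_eq_of_lt he', add_zero]
    have h2 : (m * D + e) % D = e := by
      rw [mul_comm m D, Nat.mul_add_mod, Nat.mod_eq_of_lt he']
    rw [h1, h2]

/-- The product of the values. -/
def d2F (b v k : ℕ) (g : ℕ → ℕ → ℂ) (p : ℕ) : ℂ := ∏ i ∈ range (2 ^ k), g i (gi b v k p i)

theorem d2F_norm (b v k : ℕ) (g : ℕ → ℕ → ℂ) (hg : ∀ i a, ‖g i a‖ ≤ 1) (p : ℕ) :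
    ‖d2F b v k g p‖ ≤ 1 := by
  unfold d2F
  rw [norm_prod]
  exact Finset.prod_le_one (fun i _ => norm_nonneg _) (fun i _ => hg _ _)

theorem d2F_one (b v k : ℕ) (g : ℕ → ℕ → ℂ) (hg : ∀ i < 2 ^ k, ∀ a, g i a = 1) (p : ℕ) :
    d2F b v k g p = 1 := by
  unfold d2F
  exact Finset.prod_eq_one fun i hi => hg i (Finset.mem_range.mp hi) _

theorem d2F_succ (b v k : ℕ) (g : ℕ → ℕ → ℂ) (p : ℕ) :
    d2F b v (k + 1) g p = d2F b v k g (p / 8 ^ (2 * v)) *
      d2F b v k (fun i => g (2 ^ k + i))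
        (wk (sd b v k) (2 * v) (p / 8 ^ (2 * v)) (p % 8 ^ (2 * v))) := by
  unfold d2F
  have h2 : 2 ^ (k + 1) = 2 ^ k + 2 ^ k := by rw [pow_succ, mul_two]
  rw [h2, Finset.prod_range_add]
  congr 1
  · apply Finset.prod_congr rfl
    intro i hi
    have hi' : i < 2 ^ k := Finset.mem_range.mp hi
    have h3 : gi b v (k + 1) p i = gi b v k (p / 8 ^ (2 * v)) i := by
      rw [gi, if_pos hi']
    rw [h3]
  · apply Finset.prod_congr rfl
    intro i hi
    have h3 : gi b v (k + 1) p (2 ^ k + i) = gi b v k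
        (wk (sd b v k) (2 * v) (p / 8 ^ (2 * v)) (p % 8 ^ (2 * v))) i := by
      rw [gi, if_neg (by omega), Nat.add_sub_cancel_left]
    rw [h3]

theorem sd_succ (b v k : ℕ) :
    sd b v (k + 1) * sd b v (k + 1) = sd b v k * sd b v k * 8 ^ (2 * v) := by
  unfold sd
  have h8 : (8 : ℕ) = 2 ^ 3 := by norm_num
  rw [h8, ← pow_mul, ← pow_add, ← pow_add, ← pow_add]
  congr 1
  ring

theorem gi_lt {b v : ℕ} : ∀ {k p : ℕ} (i : ℕ), p < sd b v k * sd b v k → gi b v k p i < 4 ^ b := by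
  intro k
  induction k with
  | zero =>
    intro p i hp
    rw [d2_sd_zero] at hp
    exact hp
  | succ k ih =>
    intro p i hp
    rw [sd_succ] at hp
    have h1 : p / 8 ^ (2 * v) < sd b v k * sd b v k :=
      Nat.div_lt_of_lt_mul (by rw [mul_comm]; exact hp)
    rw [gi]
    split_ifs
    · exact ih i h1
    · exact ih _ (wk_lt _ _ h1)

theorem gi_bias {b v : ℕ} {δ : ℝ} (hδ : 0 ≤ δ) (hv : (73 / 80 : ℝ) ^ (2 * v) ≤ δ - δ ^ 2) (k : ℕ)
    (g : ℕ → ℕ → ℂ) (hg1 : ∀ i a, ‖g i a‖ ≤ 1)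
    (hg : ∀ i < 2 ^ k, (∀ a, g i a = 1) ∨ ‖(∑ a ∈ range (4 ^ b), g i a) / ((4 ^ b : ℕ) : ℂ)‖ ≤ δ)
    {i₀ : ℕ} (hi₀ : i₀ < 2 ^ k)
    (hg₀ : ‖(∑ a ∈ range (4 ^ b), g i₀ a) / ((4 ^ b : ℕ) : ℂ)‖ ≤ δ) :
    ‖(∑ p ∈ range (sd b v k * sd b v k), ∏ i ∈ range (2 ^ k), g i (gi b v k p i)) /
      ((sd b v k * sd b v k : ℕ) : ℂ)‖ ≤ δ := by
  have main : ∀ (k : ℕ) (g : ℕ → ℕ → ℂ), (∀ i a, ‖g i a‖ ≤ 1) →
      (∀ i < 2 ^ k, (∀ a, g i a = 1) ∨
        ‖(∑ a ∈ range (4 ^ b), g i a) / ((4 ^ b : ℕ) : ℂ)‖ ≤ δ) →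
      (∃ i₀ < 2 ^ k, ‖(∑ a ∈ range (4 ^ b), g i₀ a) / ((4 ^ b : ℕ) : ℂ)‖ ≤ δ) →
      ‖(∑ p ∈ range (sd b v k * sd b v k), d2F b v k g p) /
        ((sd b v k * sd b v k : ℕ) : ℂ)‖ ≤ δ := by
    intro k
    induction k with
    | zero =>
      intro g _ _ hex
      obtain ⟨i₀, hi, hi2⟩ := hex
      have h0 : i₀ = 0 := by
        rw [pow_zero] at hi
        omega
      subst h0
      rw [d2_sd_zero]
      have h1 : ∀ p, d2F b v 0 g p = g 0 p := by
        intro p
        unfold d2F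
        rw [pow_zero, Finset.prod_range_one]
        rfl
      rw [Finset.sum_congr rfl fun p _ => h1 p]
      exact hi2
    | succ k ih =>
      intro g hg1 hg hex
      have hD : 0 < 8 ^ (2 * v) := by positivity
      have hDc : ((8 ^ (2 * v) : ℕ) : ℂ) ≠ 0 := by
        exact_mod_cast hD.ne'
      have h2k : 2 ^ (k + 1) = 2 ^ k + 2 ^ k := by rw [pow_succ, mul_two]
      have hsum : ∑ p ∈ range (sd b v (k + 1) * sd b v (k + 1)), d2F b v (k + 1) g p
          = ∑ p ∈ range (sd b v k * sd b v k), ∑ e ∈ range (8 ^ (2 * v)),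
            d2F b v k g p * d2F b v k (fun i => g (2 ^ k + i)) (wk (sd b v k) (2 * v) p e) := by
        rw [sd_succ, Finset.sum_congr rfl fun p _ => d2F_succ b v k g p]
        exact d2_sum_div _ hD (fun p e => d2F b v k g p *
          d2F b v k (fun i => g (2 ^ k + i)) (wk (sd b v k) (2 * v) p e)) _
      rw [hsum, sd_succ]
      have hg1' : ∀ i a, ‖(fun i => g (2 ^ k + i)) i a‖ ≤ 1 := fun i a => hg1 _ _
      have hgA : ∀ i < 2 ^ k, (∀ a, g i a = 1) ∨
          ‖(∑ a ∈ range (4 ^ b), g i a) / ((4 ^ b : ℕ) : ℂ)‖ ≤ δ :=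
        fun i hi => hg i (by omega)
      have hgB : ∀ i < 2 ^ k, (∀ a, (fun i => g (2 ^ k + i)) i a = 1) ∨
          ‖(∑ a ∈ range (4 ^ b), (fun i => g (2 ^ k + i)) i a) / ((4 ^ b : ℕ) : ℂ)‖ ≤ δ :=
        fun i hi => hg (2 ^ k + i) (by omega)
      by_cases hA : ∃ i₀ < 2 ^ k, ‖(∑ a ∈ range (4 ^ b), g i₀ a) / ((4 ^ b : ℕ) : ℂ)‖ ≤ δ
      · have ihA := ih g hg1 hgA hA
        by_cases hB : ∃ i₀ < 2 ^ k, ‖(∑ a ∈ range (4 ^ b), (fun i => g (2 ^ k + i)) i₀ a) /
            ((4 ^ b : ℕ) : ℂ)‖ ≤ δ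
        · have ihB := ih (fun i => g (2 ^ k + i)) hg1' hgB hB
          have hmix := mixing (sd b v k) (2 * v) (d2F b v k g)
            (d2F b v k (fun i => g (2 ^ k + i))) (d2F_norm b v k g hg1)
            (d2F_norm b v k _ hg1')
          have hprod := mul_le_mul ihA ihB (norm_nonneg _) hδ
          calc _ ≤ _ := hmix
            _ ≤ δ * δ + (δ - δ ^ 2) := add_le_add hprod hv
            _ = δ := by ring
        · push Not at hB
          have hone : ∀ i < 2 ^ k, ∀ a, (fun i => g (2 ^ k + i)) i a = 1 := by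
            intro i hi
            rcases hgB i hi with h | h
            · exact h
            · exact absurd h (not_le.mpr (hB i hi))
          have h3 : ∑ p ∈ range (sd b v k * sd b v k), ∑ e ∈ range (8 ^ (2 * v)),
              d2F b v k g p * d2F b v k (fun i => g (2 ^ k + i)) (wk (sd b v k) (2 * v) p e)
              = (∑ p ∈ range (sd b v k * sd b v k), d2F b v k g p) *
                ((8 ^ (2 * v) : ℕ) : ℂ) := by
            rw [Finset.sum_mul]
            apply Finset.sum_congr rfl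
            intro p _
            rw [Finset.sum_congr rfl fun e _ => by rw [d2F_one b v k _ hone, mul_one],
              Finset.sum_const, Finset.card_range, nsmul_eq_mul, mul_comm]
          rw [h3, Nat.cast_mul (sd b v k * sd b v k), mul_div_mul_right _ _ hDc]
          exact ihA
      · push Not at hA
        have hone : ∀ i < 2 ^ k, ∀ a, g i a = 1 := by
          intro i hi
          rcases hgA i hi with h | h
          · exact h
          · exact absurd h (not_le.mpr (hA i hi))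
        have hB : ∃ i₀ < 2 ^ k, ‖(∑ a ∈ range (4 ^ b), (fun i => g (2 ^ k + i)) i₀ a) /
            ((4 ^ b : ℕ) : ℂ)‖ ≤ δ := by
          obtain ⟨i₀, hi, hi2⟩ := hex
          by_cases hlt : i₀ < 2 ^ k
          · exact absurd hi2 (not_le.mpr (hA i₀ hlt))
          · refine ⟨i₀ - 2 ^ k, by omega, ?_⟩
            have h4 : 2 ^ k + (i₀ - 2 ^ k) = i₀ := by omega
            show ‖(∑ a ∈ range (4 ^ b), g (2 ^ k + (i₀ - 2 ^ k)) a) / ((4 ^ b : ℕ) : ℂ)‖ ≤ δ
            rw [h4]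
            exact hi2
        have ihB := ih (fun i => g (2 ^ k + i)) hg1' hgB hB
        have h3 : ∑ p ∈ range (sd b v k * sd b v k), ∑ e ∈ range (8 ^ (2 * v)),
            d2F b v k g p * d2F b v k (fun i => g (2 ^ k + i)) (wk (sd b v k) (2 * v) p e)
            = (∑ p ∈ range (sd b v k * sd b v k), d2F b v k (fun i => g (2 ^ k + i)) p) *
              ((8 ^ (2 * v) : ℕ) : ℂ) := by
          have h5 := wk_sum (sd b v k) (2 * v) (d2F b v k (fun i => g (2 ^ k + i)))
          rw [Nat.cast_pow, Nat.cast_ofNat, mul_comm (∑ p ∈ range (sd b v k * sd b v k),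
            d2F b v k (fun i => g (2 ^ k + i)) p), ← h5]
          apply Finset.sum_congr rfl
          intro p _
          apply Finset.sum_congr rfl
          intro e _
          rw [d2F_one b v k g hone, one_mul]
        rw [h3, Nat.cast_mul (sd b v k * sd b v k), mul_div_mul_right _ _ hDc]
        exact ihB
  exact main k g hg1 hg ⟨i₀, hi₀, hg₀⟩

end Pool.Agent.MP_ca1109_lc.Mpg
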