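import Pool.Agent.MP_ca1109_lc.Mpg.D2
import Pool.Agent.MP_ca1109_lc.SymMod

/-!
# The generator is computable in polynomial time
-/

namespace Pool.Agent.MP_ca1109_lc.Mpg

open Pool.Agent.H66 Finset

/- PROOF NOTES [MPG-D3].  Naturals are encoded in unary, so polynomial time means polynomial in the
numbers.  Tools: `Pool/Agent/Lib/helper66/{Basic,Closure,Iterate}.lean`, `polyTime_modCol`,
`div_eq_filter` (`SymMod`), `polyTime_clog`, `two_pow_clog_le` (`MonoPoly`), `PolyTime.iterate` (with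
a polynomial bound for the encodings of the intermediate states), `PolyTime.ite`, `PolyTime.ltb`.
`polyTime_mod_const`/`polyTime_div_const`: `modCol (fun _ => c)` resp.
`a / c = ((List.range a).filter (fun j => decide ((j+1) * c ≤ a))).length`.
`polyTime_wk`: for a fixed number `L` of steps, by induction on `L`; `mgg` is a combination of
`/, %, *, +, -` and a case distinction on `e % 8` (nested `ite`s by `PolyTime.eqb`).
`polyTime_gi`: iterate `clog 2 n` times the step on the state `(j, (p, i))`, `j` from `clog 2 n` down: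
`(j, p, i) ↦ (j-1, (if i < 2^(j-1) then (p/D, i) else (wk (sd b v (j-1)) (2v) (p/D) (p%D), i - 2^(j-1))))`.
Start with `p % (sd² )`, so that the invariant `p < (sd b v j)^2 ≤ (4^b * 64^(v * clog 2 n)) ≤
4^b * (2n+1)^(6 v)` holds (for `wk`: `wk_lt`) and all numbers stay polynomial in `n`
(`two_pow_clog_le`/`two_pow_min_clog_le`); `2 ^ (j-1)` and `sd b v (j-1) = 2^b * (8^v)^(j-1)` are
polynomial-time functions of `(n, j)` for `j ≤ clog 2 n`: use `2 ^ min j (clog 2 n)`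
(see `two_pow_min_clog_le` and how `nseed` is treated in `SymGen.lean`), e.g. carry the powers
`2 ^ j`, `sd b v j` in the state and divide them by the constants `2`, `8 ^ v` in every step.
-/

/-- Quotients of polynomial-time functions. -/
theorem d3_div {γ : Type} [Enc γ] {m n : γ → ℕ} (hm : PolyTime m) (hn : PolyTime n) :
    PolyTime fun c => m c / n c := by
  have h1 : PolyTime fun c => ((List.range (m c)).filter fun i =>
      decide ((i + 1) * n c ≤ m c)).length := by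
    refine PolyTime.length (PolyTime.filter (l := fun c => List.range (m c))
      (f := fun c i => decide ((i + 1) * n c ≤ m c)) (PolyTime.range hm) ?_)
    exact PolyTime.leb (PolyTime.mul (PolyTime.succ.comp PolyTime.snd)
      (hn.comp PolyTime.fst)) (hm.comp PolyTime.fst)
  refine (PolyTime.ite (PolyTime.eqb hn (PolyTime.const 0)) (PolyTime.const 0) h1).of_eq fun c => ?_
  rcases Nat.eq_zero_or_pos (n c) with h | h
  · simp [h]
  · rw [if_neg (by rw [decide_eq_true_eq]; omega), div_eq_filter h]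

/-- Remainders of polynomial-time functions. -/
theorem d3_mod {γ : Type} [Enc γ] {m n : γ → ℕ} (hm : PolyTime m) (hn : PolyTime n) :
    PolyTime fun c => m c % n c :=
  (PolyTime.sub hm (PolyTime.mul hn (d3_div hm hn))).of_eq fun c => by
    have := Nat.div_add_mod (m c) (n c)
    omega

theorem polyTime_mod_const (c : ℕ) : PolyTime fun a : ℕ => a % c :=
  d3_mod PolyTime.id (PolyTime.const c)

theorem polyTime_div_const (c : ℕ) : PolyTime fun a : ℕ => a / c :=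
  d3_div PolyTime.id (PolyTime.const c)

theorem d3_mgg_eq (M p : ℕ) (i : Fin 8) : Pool.Agent.Lib.PCP.mgg M p i =
    if decide (i.val = 0) then ((p / M + 2 * (p % M)) % M) * M + p % M
    else if decide (i.val = 1) then ((p / M + 2 * (M - p % M)) % M) * M + p % M
    else if decide (i.val = 2) then p / M * M + (p % M + 2 * (p / M)) % M
    else if decide (i.val = 3) then p / M * M + (p % M + 2 * (M - p / M)) % M
    else if decide (i.val = 4) then ((p / M + 2 * (p % M) + 1) % M) * M + p % M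
    else if decide (i.val = 5) then ((p / M + 2 * (M - p % M) + (M - 1)) % M) * M + p % M
    else if decide (i.val = 6) then p / M * M + (p % M + 2 * (p / M) + 1) % M
    else p / M * M + (p % M + 2 * (M - p / M) + (M - 1)) % M := by
  fin_cases i <;> rfl

theorem d3_mgg : PolyTime fun q : ℕ × (ℕ × ℕ) =>
    Pool.Agent.Lib.PCP.mgg q.1 q.2.1 ⟨q.2.2 % 8, Nat.mod_lt _ (by norm_num)⟩ := by
  have hM : PolyTime fun q : ℕ × (ℕ × ℕ) => q.1 := PolyTime.fst
  have hp : PolyTime fun q : ℕ × (ℕ × ℕ) => q.2.1 := PolyTime.fst.comp PolyTime.snd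
  have hr : PolyTime fun q : ℕ × (ℕ × ℕ) => q.2.2 % 8 :=
    d3_mod (PolyTime.snd.comp PolyTime.snd) (PolyTime.const 8)
  have ha : PolyTime fun q : ℕ × (ℕ × ℕ) => q.2.1 / q.1 := d3_div hp hM
  have hb : PolyTime fun q : ℕ × (ℕ × ℕ) => q.2.1 % q.1 := d3_mod hp hM
  have h2 : PolyTime fun _ : ℕ × (ℕ × ℕ) => 2 := PolyTime.const 2
  have h1 : PolyTime fun _ : ℕ × (ℕ × ℕ) => 1 := PolyTime.const 1
  have hM1 : PolyTime fun q : ℕ × (ℕ × ℕ) => q.1 - 1 := PolyTime.sub hM h1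
  have f0 : PolyTime fun q : ℕ × (ℕ × ℕ) =>
      ((q.2.1 / q.1 + 2 * (q.2.1 % q.1)) % q.1) * q.1 + q.2.1 % q.1 :=
    PolyTime.add (PolyTime.mul (d3_mod (PolyTime.add ha (PolyTime.mul h2 hb)) hM) hM) hb
  have f1 : PolyTime fun q : ℕ × (ℕ × ℕ) =>
      ((q.2.1 / q.1 + 2 * (q.1 - q.2.1 % q.1)) % q.1) * q.1 + q.2.1 % q.1 :=
    PolyTime.add (PolyTime.mul (d3_mod (PolyTime.add ha
      (PolyTime.mul h2 (PolyTime.sub hM hb))) hM) hM) hb
  have f2 : PolyTime fun q : ℕ × (ℕ × ℕ) =>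
      q.2.1 / q.1 * q.1 + (q.2.1 % q.1 + 2 * (q.2.1 / q.1)) % q.1 :=
    PolyTime.add (PolyTime.mul ha hM) (d3_mod (PolyTime.add hb (PolyTime.mul h2 ha)) hM)
  have f3 : PolyTime fun q : ℕ × (ℕ × ℕ) =>
      q.2.1 / q.1 * q.1 + (q.2.1 % q.1 + 2 * (q.1 - q.2.1 / q.1)) % q.1 :=
    PolyTime.add (PolyTime.mul ha hM) (d3_mod (PolyTime.add hb
      (PolyTime.mul h2 (PolyTime.sub hM ha))) hM)
  have f4 : PolyTime fun q : ℕ × (ℕ × ℕ) =>
      ((q.2.1 / q.1 + 2 * (q.2.1 % q.1) + 1) % q.1) * q.1 + q.2.1 % q.1 :=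
    PolyTime.add (PolyTime.mul (d3_mod (PolyTime.add
      (PolyTime.add ha (PolyTime.mul h2 hb)) h1) hM) hM) hb
  have f5 : PolyTime fun q : ℕ × (ℕ × ℕ) =>
      ((q.2.1 / q.1 + 2 * (q.1 - q.2.1 % q.1) + (q.1 - 1)) % q.1) * q.1 + q.2.1 % q.1 :=
    PolyTime.add (PolyTime.mul (d3_mod (PolyTime.add (PolyTime.add ha
      (PolyTime.mul h2 (PolyTime.sub hM hb))) hM1) hM) hM) hb
  have f6 : PolyTime fun q : ℕ × (ℕ × ℕ) =>
      q.2.1 / q.1 * q.1 + (q.2.1 % q.1 + 2 * (q.2.1 / q.1) + 1) % q.1 :=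
    PolyTime.add (PolyTime.mul ha hM) (d3_mod (PolyTime.add
      (PolyTime.add hb (PolyTime.mul h2 ha)) h1) hM)
  have f7 : PolyTime fun q : ℕ × (ℕ × ℕ) =>
      q.2.1 / q.1 * q.1 + (q.2.1 % q.1 + 2 * (q.1 - q.2.1 / q.1) + (q.1 - 1)) % q.1 :=
    PolyTime.add (PolyTime.mul ha hM) (d3_mod (PolyTime.add (PolyTime.add hb
      (PolyTime.mul h2 (PolyTime.sub hM ha))) hM1) hM)
  have hc : ∀ j : ℕ, PolyTime fun q : ℕ × (ℕ × ℕ) => decide (q.2.2 % 8 = j) :=
    fun j => PolyTime.eqb hr (PolyTime.const j)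
  exact ((hc 0).ite f0 ((hc 1).ite f1 ((hc 2).ite f2 ((hc 3).ite f3 ((hc 4).ite f4
    ((hc 5).ite f5 ((hc 6).ite f6 f7))))))).of_eq fun q =>
      (d3_mgg_eq q.1 q.2.1 ⟨q.2.2 % 8, Nat.mod_lt _ (by norm_num)⟩).symm

theorem polyTime_wk (L : ℕ) : PolyTime fun q : ℕ × (ℕ × ℕ) => wk q.1 L q.2.1 q.2.2 := by
  induction L with
  | zero => exact PolyTime.fst.comp PolyTime.snd
  | succ L ih =>
    have h : PolyTime fun q : ℕ × (ℕ × ℕ) => (q.1, (Pool.Agent.Lib.PCP.mgg q.1 q.2.1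
        ⟨q.2.2 % 8, Nat.mod_lt _ (by norm_num)⟩, q.2.2 / 8)) :=
      PolyTime.fst.pair (d3_mgg.pair (d3_div (PolyTime.snd.comp PolyTime.snd) (PolyTime.const 8)))
    exact ih.comp h

theorem d3_sd_eq (b v n : ℕ) : sd b v (Nat.clog 2 n) = 2 ^ b * nseed (3 * v) n := by
  unfold sd nseed
  rw [pow_add, ← pow_mul, mul_comm (Nat.clog 2 n)]

theorem polyTime_sd (b v : ℕ) : PolyTime fun n : ℕ => sd b v (Nat.clog 2 n) :=
  (PolyTime.mul (PolyTime.const (2 ^ b)) (polyTime_nseed (3 * v))).of_eq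
    fun n => (d3_sd_eq b v n).symm

/-- One level of the recursion; the state is the side, the number of outputs, the seed and the
index. -/
def d3_step (v : ℕ) (s : ℕ × (ℕ × (ℕ × ℕ))) : ℕ × (ℕ × (ℕ × ℕ)) :=
  (s.1 / 8 ^ v, (s.2.1 / 2,
    if decide (s.2.2.2 < s.2.1 / 2) then (s.2.2.1 / 8 ^ (2 * v), s.2.2.2)
    else (wk (s.1 / 8 ^ v) (2 * v) (s.2.2.1 / 8 ^ (2 * v)) (s.2.2.1 % 8 ^ (2 * v)),
      s.2.2.2 - s.2.1 / 2)))

theorem d3_polyTime_step (v : ℕ) : PolyTime (d3_step v) := by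
  have h1 : PolyTime fun s : ℕ × (ℕ × (ℕ × ℕ)) => s.1 / 8 ^ v :=
    d3_div PolyTime.fst (PolyTime.const _)
  have h2 : PolyTime fun s : ℕ × (ℕ × (ℕ × ℕ)) => s.2.1 / 2 :=
    d3_div (PolyTime.fst.comp PolyTime.snd) (PolyTime.const _)
  have hp : PolyTime fun s : ℕ × (ℕ × (ℕ × ℕ)) => s.2.2.1 :=
    PolyTime.fst.comp (PolyTime.snd.comp PolyTime.snd)
  have hi : PolyTime fun s : ℕ × (ℕ × (ℕ × ℕ)) => s.2.2.2 :=
    PolyTime.snd.comp (PolyTime.snd.comp PolyTime.snd)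
  have h3 : PolyTime fun s : ℕ × (ℕ × (ℕ × ℕ)) => s.2.2.1 / 8 ^ (2 * v) :=
    d3_div hp (PolyTime.const _)
  have h4 : PolyTime fun s : ℕ × (ℕ × (ℕ × ℕ)) => s.2.2.1 % 8 ^ (2 * v) :=
    d3_mod hp (PolyTime.const _)
  have h5 : PolyTime fun s : ℕ × (ℕ × (ℕ × ℕ)) =>
      wk (s.1 / 8 ^ v) (2 * v) (s.2.2.1 / 8 ^ (2 * v)) (s.2.2.1 % 8 ^ (2 * v)) :=
    (polyTime_wk (2 * v)).comp (h1.pair (h3.pair h4))
  exact h1.pair (h2.pair ((PolyTime.ltb hi h2).ite (h3.pair hi)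
    (h5.pair (PolyTime.sub hi h2))))

theorem d3_sd_div (b v k : ℕ) : sd b v (k + 1) / 8 ^ v = sd b v k := by
  have h : sd b v (k + 1) = sd b v k * 8 ^ v := by
    unfold sd
    rw [show (8 : ℕ) = 2 ^ 3 by norm_num, ← pow_mul, ← pow_add]
    congr 1
    ring
  rw [h, Nat.mul_div_cancel _ (by positivity)]

theorem d3_sd_pos (b v k : ℕ) : 0 < sd b v k := by
  unfold sd
  positivity

theorem d3_iter (b v : ℕ) : ∀ (k p i : ℕ),
    ((d3_step v)^[k] (sd b v k, (2 ^ k, (p, i)))).2.2.1 = gi b v k p i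
  | 0, p, i => rfl
  | k + 1, p, i => by
    rw [Function.iterate_succ_apply]
    have h2 : 2 ^ (k + 1) / 2 = 2 ^ k := by rw [pow_succ]; omega
    unfold d3_step gi
    simp only [d3_sd_div, h2]
    by_cases h : i < 2 ^ k
    · simp only [h, decide_true, if_true]
      exact d3_iter b v k _ _
    · simp only [h, decide_false, if_false, Bool.false_eq_true]
      exact d3_iter b v k _ _

/-- The bounds for the intermediate states. -/
def d3_inv (b v j I : ℕ) (s : ℕ × (ℕ × (ℕ × ℕ))) : Prop :=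
  s.1 = sd b v j ∧ s.2.1 = 2 ^ j ∧ s.2.2.1 < sd b v j * sd b v j ∧ s.2.2.2 ≤ I

theorem d3_inv_step {b v j I : ℕ} {s : ℕ × (ℕ × (ℕ × ℕ))} (h : d3_inv b v (j + 1) I s) :
    d3_inv b v j I (d3_step v s) := by
  obtain ⟨h1, h2, h3, h4⟩ := h
  have e2 : 2 ^ (j + 1) / 2 = 2 ^ j := by rw [pow_succ]; omega
  have h5 : s.2.2.1 / 8 ^ (2 * v) < sd b v j * sd b v j := by
    rw [Nat.div_lt_iff_lt_mul (by positivity), ← sd_succ]
    exact h3
  refine ⟨?_, ?_, ?_, ?_⟩
  · show s.1 / 8 ^ v = _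
    rw [h1, d3_sd_div]
  · show s.2.1 / 2 = _
    rw [h2, e2]
  · unfold d3_step
    simp only
    by_cases h : s.2.2.2 < s.2.1 / 2
    · rw [if_pos (decide_eq_true h)]
      exact h5
    · rw [if_neg (by rw [decide_eq_true_eq]; exact h), h1, d3_sd_div]
      exact wk_lt _ _ h5
  · unfold d3_step
    simp only
    by_cases h : s.2.2.2 < s.2.1 / 2
    · rw [if_pos (decide_eq_true h)]
      exact h4
    · rw [if_neg (by rw [decide_eq_true_eq]; exact h)]
      exact (Nat.sub_le _ _).trans h4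

theorem d3_inv_iter {b v I : ℕ} : ∀ (m j : ℕ) (s : ℕ × (ℕ × (ℕ × ℕ))), d3_inv b v (j + m) I s →
    d3_inv b v j I ((d3_step v)^[m] s)
  | 0, _, _, h => h
  | m + 1, j, s, h => by
    rw [Function.iterate_succ_apply]
    exact d3_inv_iter m j _ (d3_inv_step h)

theorem polyTime_gi (b v : ℕ) : PolyTime fun q : ℕ × (ℕ × ℕ) =>
    gi b v (Nat.clog 2 q.1)
      (q.2.1 % (sd b v (Nat.clog 2 q.1) * sd b v (Nat.clog 2 q.1))) q.2.2 := by
  have hk : PolyTime fun q : ℕ × (ℕ × ℕ) => Nat.clog 2 q.1 := polyTime_clog.comp PolyTime.fst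
  have hsd : PolyTime fun q : ℕ × (ℕ × ℕ) => sd b v (Nat.clog 2 q.1) :=
    (polyTime_sd b v).comp PolyTime.fst
  have hT : PolyTime fun q : ℕ × (ℕ × ℕ) => 2 ^ Nat.clog 2 q.1 :=
    ((polyTime_nseed 1).comp PolyTime.fst).of_eq fun q => by
      unfold nseed
      rw [pow_one]
  have hp : PolyTime fun q : ℕ × (ℕ × ℕ) =>
      q.2.1 % (sd b v (Nat.clog 2 q.1) * sd b v (Nat.clog 2 q.1)) :=
    d3_mod (PolyTime.fst.comp PolyTime.snd) (PolyTime.mul hsd hsd)
  have hi : PolyTime fun q : ℕ × (ℕ × ℕ) => q.2.2 := PolyTime.snd.comp PolyTime.snd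
  obtain ⟨s1, hs1, hs1'⟩ := hsd.size
  obtain ⟨s2, hs2, hs2'⟩ := hT.size
  have h := PolyTime.iterate (n := fun q : ℕ × (ℕ × ℕ) => Nat.clog 2 q.1)
    (ini := fun q : ℕ × (ℕ × ℕ) => (sd b v (Nat.clog 2 q.1), (2 ^ Nat.clog 2 q.1,
      (q.2.1 % (sd b v (Nat.clog 2 q.1) * sd b v (Nat.clog 2 q.1)), q.2.2))))
    (step := d3_step v) hk (hsd.pair (hT.pair (hp.pair hi))) (d3_polyTime_step v)
    (fun n => 7 + s1 n + s2 n + 2 * (s1 n * s1 n) + n + n)
    ((((((PB.const 7).add hs1).add hs2).add ((PB.const 2).mul (hs1.mul hs1))).add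
      PB.id).add PB.id) (fun q i hi' => by
      have hinv : d3_inv b v (Nat.clog 2 q.1 - i) q.2.2 ((d3_step v)^[i]
          (sd b v (Nat.clog 2 q.1), (2 ^ Nat.clog 2 q.1,
          (q.2.1 % (sd b v (Nat.clog 2 q.1) * sd b v (Nat.clog 2 q.1)), q.2.2)))) := by
        refine d3_inv_iter i _ _ ?_
        rw [Nat.sub_add_cancel hi']
        exact ⟨rfl, rfl, Nat.mod_lt _ (Nat.mul_pos (d3_sd_pos _ _ _) (d3_sd_pos _ _ _)), le_rfl⟩
      revert hinv
      generalize (d3_step v)^[i]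
          (sd b v (Nat.clog 2 q.1), (2 ^ Nat.clog 2 q.1,
          (q.2.1 % (sd b v (Nat.clog 2 q.1) * sd b v (Nat.clog 2 q.1)), q.2.2))) = s
      rintro ⟨g1, g2, g3, g4⟩
      have e1 := hs1' q
      have e2 := hs2' q
      rw [enc_nat_length] at e1 e2
      have e3 : sd b v (Nat.clog 2 q.1 - i) ≤ sd b v (Nat.clog 2 q.1) := by
        unfold sd
        refine Nat.pow_le_pow_right (by norm_num) ?_
        have : 3 * v * (Nat.clog 2 q.1 - i) ≤ 3 * v * Nat.clog 2 q.1 :=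
          Nat.mul_le_mul_left _ (Nat.sub_le _ _)
        omega
      have e4 : 2 ^ (Nat.clog 2 q.1 - i) ≤ 2 ^ Nat.clog 2 q.1 :=
        Nat.pow_le_pow_right (by norm_num) (Nat.sub_le _ _)
      have e5 : sd b v (Nat.clog 2 q.1 - i) * sd b v (Nat.clog 2 q.1 - i) ≤
          s1 (enc q).length * s1 (enc q).length :=
        Nat.mul_le_mul (by omega) (by omega)
      have e6 : 2 * q.2.2 + 1 ≤ (enc q).length := by
        rw [enc_prod, enc_prod]
        simp only [List.length_cons, List.length_append, enc_nat_length]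
        omega
      rw [enc_prod, enc_prod, enc_prod]
      simp only [List.length_cons, List.length_append, enc_nat_length]
      omega)
  exact (PolyTime.fst.comp (PolyTime.snd.comp (PolyTime.snd.comp h))).of_eq fun q =>
    d3_iter b v (Nat.clog 2 q.1) _ _

end Pool.Agent.MP_ca1109_lc.Mpg
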