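import Pool.Agent.MP_ca1109_lc.Mpg.D3
import Pool.Agent.MP_ca1109_lc.SymEasy

/-!
# Explicit small-bias generators over every finite abelian group
-/

namespace Pool.Agent.MP_ca1109_lc.Mpg

open Pool.Agent.H66 Finset

variable {Z : Type} [AddCommGroup Z] [Fintype Z] {r : ℕ} [NeZero r]

/- PROOF NOTES [MPG-D4].
`char_sum`: `ψ : AddChar Z ℂ` nontrivial, `φ a = ψ (e (Fin.ofNat r a))` is `r`-periodic with sum `0`
over every full period (`AddChar.sum_eq_zero_of_ne_one`, `Equiv.sum_comp`), so the sum over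
`range K` has norm `≤ r` (remaining `K % r` terms).
`small_bias`: `δ' = min δ (1/2)`; choose `b` with `r / 4 ^ b ≤ δ'`, `v` with
`(73/80) ^ (2 v) ≤ δ' - δ'^2` (`exists_pow_lt_of_lt_one`).
`D n = 2 b + 6 v clog 2 n`, `2 ^ D n = (sd b v (clog 2 n))^2 = 4 ^ b * (2 ^ clog 2 n)^(6 v) ≤
4 ^ b * (2 n + 1)^(6 v)` (growth condition: `c = 4 ^ b * 2 ^ (6 v) + 6 v + ..`).
`G n s = (List.range n).map (fun i => gi b v (clog 2 n) (cval (2 ^ D n) s % sd²) i % r)`,
length `n`, entries `< r`.  PolyTime: `polyTime_gi`, `polyTime_cval` (see `polyTime_sgen` in `SymEasy`),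
`PolyTime.map`, `PolyTime.range`.
For `χ ≠ 1` on `Fin n → Z`: `χ x = ∏ i, χ (Pi.single i (x i))`
(`Finset.univ_sum_single`, `AddChar.map_sum_eq_prod`); `g i a = χ (Pi.single i (e (Fin.ofNat r a)))` for
`i < n`, `g i a = 1` for `i ≥ n`.  Each `z ↦ χ (Pi.single i z)` is a character of `Z`, trivial or
not; for a nontrivial one the average over `range (4 ^ b)` has norm `≤ r / 4 ^ b ≤ δ'`; some one is
nontrivial as `χ ≠ 1`.  `2 ^ clog 2 n ≥ n` (`Nat.le_pow_clog`).  The average over the seeds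
`s : Fin (D n) → Bool` is the average over `p ∈ range (2 ^ D n)` (complex version of `sum_seeds` in
`SymEasy`: `bval`, `cval_eq`).  `gi_bias`.  Finally `av χ = 0` (`AddChar.sum_eq_zero_of_ne_one`).
-/

omit [NeZero r] in
theorem d4_ofNat_mod [NeZero r] (a : ℕ) : Fin.ofNat r (a % r) = Fin.ofNat r a := by
  ext
  simp [Fin.ofNat]

theorem char_sum (e : Fin r ≃ Z) {ψ : AddChar Z ℂ} (hψ : ψ ≠ 1) (K : ℕ) :
    ‖∑ a ∈ range K, ψ (e (Fin.ofNat r a))‖ ≤ r := by
  have hr : 0 < r := Nat.pos_of_ne_zero (NeZero.ne r)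
  induction K using Nat.strong_induction_on with
  | _ K ih =>
    rcases lt_or_ge K r with h | h
    · refine (norm_sum_le _ _).trans ?_
      have h1 : ∑ a ∈ range K, ‖ψ (e (Fin.ofNat r a))‖ = K := by
        simp [AddChar.norm_apply]
      rw [h1]
      exact_mod_cast h.le
    · obtain ⟨K', rfl⟩ := Nat.exists_eq_add_of_le h
      rw [Finset.sum_range_add]
      have h0 : ∑ a ∈ range r, ψ (e (Fin.ofNat r a)) = 0 := by
        rw [Finset.sum_range]
        have h1 : ∀ a : Fin r, ψ (e (Fin.ofNat r (a : ℕ))) = ψ (e a) := by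
          intro a
          congr 2
          ext
          simp [Fin.ofNat, Nat.mod_eq_of_lt a.2]
        simp only [h1]
        rw [Equiv.sum_comp e (fun z => ψ z)]
        exact AddChar.sum_eq_zero_of_ne_one hψ
      have h2 : ∀ a : ℕ, Fin.ofNat r (r + a) = Fin.ofNat r a := by
        intro a
        ext
        simp [Fin.ofNat]
      rw [h0, zero_add]
      simp only [h2]
      exact ih K' (by omega)

theorem d4_sum_seeds (D : ℕ) (F : ℕ → ℂ) :
    ∑ s : Fin D → Bool, F (bval (List.ofFn s)) = ∑ i ∈ range (2 ^ D), F i := by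
  have hinj : Function.Injective fun s : Fin D → Bool => bval (List.ofFn s) := by
    intro s s' h
    have h1 := bval_inj _ _ (by simp) h
    exact List.ofFn_injective h1
  have himg : (univ.image fun s : Fin D → Bool => bval (List.ofFn s)) = range (2 ^ D) := by
    apply Finset.eq_of_subset_of_card_le
    · intro i hi
      rw [Finset.mem_image] at hi
      obtain ⟨s, -, rfl⟩ := hi
      rw [Finset.mem_range]
      have := bval_lt (List.ofFn s)
      rwa [List.length_ofFn] at this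
    · rw [Finset.card_image_of_injective _ hinj]
      simp
  rw [← himg, Finset.sum_image hinj.injOn]

/-- The number of seeds. -/
def d4_M (b v n : ℕ) : ℕ := sd b v (Nat.clog 2 n) * sd b v (Nat.clog 2 n)

theorem d4_M_eq (b v n : ℕ) : 2 ^ (2 * b + 6 * v * Nat.clog 2 n) = d4_M b v n := by
  unfold d4_M sd
  rw [← pow_add]
  congr 1
  ring

theorem d4_M_pos (b v n : ℕ) : 0 < d4_M b v n := by
  rw [← d4_M_eq]
  positivity

theorem d4_M_le (b v n : ℕ) : 2 ^ (2 * b + 6 * v * Nat.clog 2 n) ≤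
    (4 ^ b * 2 ^ (6 * v) + 6 * v) * (n + 1) ^ (4 ^ b * 2 ^ (6 * v) + 6 * v) := by
  have h1 : 2 ^ (2 * b + 6 * v * Nat.clog 2 n) = 4 ^ b * nseed (6 * v) n := by
    unfold nseed
    have h2 : (2 : ℕ) ^ (6 * v * Nat.clog 2 n) = (2 ^ Nat.clog 2 n) ^ (6 * v) := by
      rw [← pow_mul, mul_comm]
    have h3 : (2 : ℕ) ^ (2 * b) = 4 ^ b := by
      rw [pow_mul]
      norm_num
    rw [pow_add, h2, h3]
  rw [h1]
  calc 4 ^ b * nseed (6 * v) n ≤ 4 ^ b * (2 * (n + 1)) ^ (6 * v) := by
        refine Nat.mul_le_mul_left _ ((nseed_le _ _).trans (Nat.pow_le_pow_left (by omega) _))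
    _ = (4 ^ b * 2 ^ (6 * v)) * (n + 1) ^ (6 * v) := by rw [mul_pow]; ring
    _ ≤ _ := Nat.mul_le_mul (by omega) (Nat.pow_le_pow_right (by omega) (by omega))

/-- The generator. -/
def d4_G (r b v n : ℕ) (s : List Bool) : List ℕ :=
  (List.range n).map fun i => gi b v (Nat.clog 2 n) (cval (d4_M b v n) s % d4_M b v n) i % r

theorem d4_G_poly (r b v : ℕ) : PolyTime fun p : ℕ × List Bool => d4_G r b v p.1 p.2 := by
  have hM : PolyTime fun n : ℕ => d4_M b v n := PolyTime.mul (polyTime_sd b v) (polyTime_sd b v)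
  have hc : PolyTime fun p : ℕ × List Bool => cval (d4_M b v p.1) p.2 :=
    polyTime_cval (hM.comp PolyTime.fst) PolyTime.snd
  unfold d4_G
  refine PolyTime.map (l := fun p : ℕ × List Bool => List.range p.1)
    (f := fun p i => gi b v (Nat.clog 2 p.1)
      (cval (d4_M b v p.1) p.2 % d4_M b v p.1) i % r) (PolyTime.range PolyTime.fst) ?_
  have h1 : PolyTime fun q : (ℕ × List Bool) × ℕ => (q.1.1, (cval (d4_M b v q.1.1) q.1.2, q.2)) :=
    (PolyTime.fst.comp PolyTime.fst).pair ((hc.comp PolyTime.fst).pair PolyTime.snd)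
  exact (polyTime_mod_const r).comp ((polyTime_gi b v).comp h1)

theorem d4_G_getD {r b v n : ℕ} (s : List Bool) (i : Fin n) : (d4_G r b v n s).getD i 0 =
    gi b v (Nat.clog 2 n) (cval (d4_M b v n) s % d4_M b v n) i % r := by
  unfold d4_G
  rw [List.getD_eq_getElem?_getD, List.getElem?_map, List.getElem?_range i.2]
  rfl

omit [Fintype Z] in
theorem d4_char_prod {n : ℕ} (χ : AddChar (Fin n → Z) ℂ) (x : Fin n → Z) :
    χ x = ∏ i, χ (Pi.single i (x i)) := by
  conv_lhs => rw [← Finset.univ_sum_single x]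
  have h : ∀ s : Finset (Fin n), χ (∑ i ∈ s, Pi.single i (x i)) =
      ∏ i ∈ s, χ (Pi.single i (x i)) := by
    classical
    intro s
    induction s using Finset.induction_on with
    | empty => simp
    | insert a s ha ih => rw [Finset.sum_insert ha, Finset.prod_insert ha,
        AddChar.map_add_eq_mul, ih]
  exact h univ

theorem d4_bias (e : Fin r ≃ Z) {b v : ℕ} {δ : ℝ} (hδ : 0 ≤ δ)
    (hb : (r : ℝ) / ((4 ^ b : ℕ) : ℝ) ≤ δ) (hv : (73 / 80 : ℝ) ^ (2 * v) ≤ δ - δ ^ 2) (n : ℕ)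
    {χ : AddChar (Fin n → Z) ℂ} (hχ : χ ≠ 1) :
    ‖av (fun s : Fin (2 * b + 6 * v * Nat.clog 2 n) → Bool =>
      χ (word e n (d4_G r b v n (List.ofFn s))))‖ ≤ δ := by
  classical
  set k := Nat.clog 2 n with hk
  set g : ℕ → ℕ → ℂ := fun i a =>
    if h : i < n then χ (Pi.single ⟨i, h⟩ (e (Fin.ofNat r a))) else 1 with hg
  have hψ : ∀ i : Fin n, ∃ ψ : AddChar Z ℂ, ∀ z, ψ z = χ (Pi.single i z) := fun i =>
    ⟨χ.compAddMonoidHom (AddMonoidHom.single (fun _ : Fin n => Z) i), fun z => rfl⟩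
  have hbias : ∀ i : Fin n, (∀ z, χ (Pi.single i z) = 1) ∨
      ‖(∑ a ∈ range (4 ^ b), g i a) / ((4 ^ b : ℕ) : ℂ)‖ ≤ δ := by
    intro i
    obtain ⟨ψ, hψi⟩ := hψ i
    by_cases h : ψ = 1
    · left
      intro z
      rw [← hψi, h]
      rfl
    · right
      have h1 := char_sum e h (4 ^ b)
      have h2 : ∑ a ∈ range (4 ^ b), g i a = ∑ a ∈ range (4 ^ b), ψ (e (Fin.ofNat r a)) := by
        refine Finset.sum_congr rfl fun a _ => ?_
        rw [hψi, hg]
        simp only [i.2, dif_pos]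
      rw [h2, norm_div, Complex.norm_natCast]
      refine le_trans ?_ hb
      gcongr
  have hex : ∃ i : Fin n, ‖(∑ a ∈ range (4 ^ b), g i a) / ((4 ^ b : ℕ) : ℂ)‖ ≤ δ := by
    by_contra hcon
    push Not at hcon
    apply hχ
    ext x
    rw [d4_char_prod]
    rw [Finset.prod_eq_one]
    · rfl
    · intro i _
      rcases hbias i with h | h
      · exact h _
      · exact absurd h (not_le.2 (hcon i))
  obtain ⟨i₀, hi₀⟩ := hex
  have hn : n ≤ 2 ^ k := Nat.le_pow_clog one_lt_two n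
  have hnorm : ∀ i a, ‖g i a‖ ≤ 1 := by
    intro i a
    rw [hg]
    by_cases h : i < n
    · simp only [h, dif_pos]
      rw [AddChar.norm_apply]
    · simp [h]
  have key := gi_bias (b := b) (v := v) hδ hv k g hnorm (fun i _ => by
    by_cases h : i < n
    · rcases hbias ⟨i, h⟩ with h' | h'
      · left
        intro a
        rw [hg]
        simp only [h, dif_pos]
        exact h' _
      · right
        exact h'
    · left
      intro a
      rw [hg]
      simp [h]) (i₀ := i₀) (lt_of_lt_of_le i₀.2 hn) hi₀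
  refine le_trans (le_of_eq ?_) key
  congr 1
  unfold av
  rw [Fintype.card_fun, Fintype.card_bool, Fintype.card_fin, d4_M_eq]
  congr 1
  rw [show sd b v k * sd b v k = d4_M b v n from rfl, ← d4_M_eq, ← d4_sum_seeds]
  refine Finset.sum_congr rfl fun s _ => ?_
  have hs : (List.ofFn s).length = 2 * b + 6 * v * Nat.clog 2 n := List.length_ofFn
  have hc : cval (d4_M b v n) (List.ofFn s) = bval (List.ofFn s) := by
    refine cval_eq _ _ ?_
    rw [hs, d4_M_eq]
    omega
  have hlt : bval (List.ofFn s) < d4_M b v n := by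
    have := bval_lt (List.ofFn s)
    rwa [hs, d4_M_eq] at this
  show χ (word e n (d4_G r b v n (List.ofFn s))) = _
  rw [d4_char_prod]
  have h3 : ∏ i ∈ range (2 ^ k), g i (gi b v k (bval (List.ofFn s)) i) =
      ∏ i ∈ range n, g i (gi b v k (bval (List.ofFn s)) i) := by
    symm
    refine Finset.prod_subset (Finset.range_mono hn) ?_
    intro i _ hi
    rw [Finset.mem_range] at hi
    rw [hg]
    simp [hi]
  rw [h3, Finset.prod_range]
  refine Finset.prod_congr rfl fun i _ => ?_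
  rw [hg]
  simp only [i.2, dif_pos]
  unfold word
  rw [d4_G_getD, d4_ofNat_mod, hc, Nat.mod_eq_of_lt hlt]

/-- Explicit small-bias generators with logarithmic seeds. -/
theorem small_bias (e : Fin r ≃ Z) {δ : ℝ} (hδ : 0 < δ) : Gen e (chCls Z) δ := by
  set δ' : ℝ := min δ (1 / 2) with hδ'
  have h0 : 0 < δ' := lt_min hδ (by norm_num)
  have h1 : δ' ≤ 1 / 2 := min_le_right _ _
  have hr : 0 < r := Nat.pos_of_ne_zero (NeZero.ne r)
  have hr' : (0 : ℝ) < r := by exact_mod_cast hr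
  obtain ⟨b, hb⟩ := exists_pow_lt_of_lt_one (div_pos h0 hr') (by norm_num : (1 / 4 : ℝ) < 1)
  obtain ⟨v, hv⟩ := exists_pow_lt_of_lt_one (show 0 < δ' - δ' ^ 2 by nlinarith)
    (by norm_num : (73 / 80 : ℝ) ^ 2 < 1)
  have hb' : (r : ℝ) / ((4 ^ b : ℕ) : ℝ) ≤ δ' := by
    rw [lt_div_iff₀ hr', one_div, inv_pow] at hb
    push_cast
    rw [div_eq_mul_inv, mul_comm]
    exact hb.le
  have hv' : (73 / 80 : ℝ) ^ (2 * v) ≤ δ' - δ' ^ 2 := by
    rw [pow_mul]
    exact hv.le
  refine ⟨fun n => 2 * b + 6 * v * Nat.clog 2 n, fun n s => d4_G r b v n s, ?_, d4_G_poly r b v,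
    ⟨_, fun n => d4_M_le b v n⟩, ?_, ?_⟩
  · exact PolyTime.add (PolyTime.const _) (PolyTime.mul (PolyTime.const _) polyTime_clog)
  · intro n s
    refine ⟨by simp [d4_G], ?_⟩
    intro a ha
    unfold d4_G at ha
    rw [List.mem_map] at ha
    obtain ⟨i, -, rfl⟩ := ha
    exact Nat.mod_lt _ hr
  · rintro n f ⟨χ, hχ, rfl⟩
    have h2 : av (fun x => χ x) = 0 := by
      unfold av
      rw [AddChar.sum_eq_zero_of_ne_one hχ, zero_div]
    rw [h2, sub_zero]
    exact (d4_bias e h0.le hb' hv' n hχ).trans (min_le_left _ _)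

end Pool.Agent.MP_ca1109_lc.Mpg
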