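import Pool.Agent.MP_ca1109_lc.MonoThreshold

/-!
# Polynomials modulo a composite number: definitions

* `lowDeg ι Ω R d`: sums of functions of at most `d` coordinates.
* `ph m z = exp (2 π i z / m)`.
* `ex w f`, `rex w g`: expectations with respect to the product of the weights `w i` on `Ω`.
* `Gen e 𝒯 δ`: explicit generators with logarithmic seeds for the classes `𝒯 n` of functions on
  `Z ^ n`, where `e` numbers the letters of the alphabet `Z`.
-/

namespace Pool.Agent.MP_ca1109_lc.Mpg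

open Pool.Agent.H66 Finset

/-- The subgroup generated by the functions which depend on at most `d` coordinates. -/
def lowDeg (ι Ω R : Type*) [AddCommGroup R] (d : ℕ) : AddSubgroup ((ι → Ω) → R) :=
  AddSubgroup.closure {g | ∃ T : Finset ι, T.card ≤ d ∧ DependsOn g (T : Set ι)}

/-- The phase `exp (2 π i z / m)`. -/
noncomputable def ph (m : ℕ) [NeZero m] (z : ZMod m) : ℂ := ZMod.stdAddChar z

/-- The average of a complex function. -/
noncomputable def av {A : Type*} [Fintype A] (f : A → ℂ) : ℂ := (∑ a, f a) / (Fintype.card A : ℂ)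

/-! ## Product measures -/

section measure

variable {ι Ω : Type*}

/-- The `w i` are probability weights. -/
structure IsPM [Fintype Ω] (w : ι → Ω → ℝ) : Prop where
  nonneg : ∀ i a, 0 ≤ w i a
  sum_one : ∀ i, ∑ a, w i a = 1

/-- The weight of a point of the product. -/
def wt [Fintype ι] (w : ι → Ω → ℝ) (x : ι → Ω) : ℝ := ∏ i, w i (x i)

/-- The expectation of a complex function. -/
noncomputable def ex [Fintype ι] [DecidableEq ι] [Fintype Ω] (w : ι → Ω → ℝ) (f : (ι → Ω) → ℂ) : ℂ :=
  ∑ x, (wt w x : ℂ) * f x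

/-- The expectation of a real function. -/
noncomputable def rex [Fintype ι] [DecidableEq ι] [Fintype Ω] (w : ι → Ω → ℝ) (g : (ι → Ω) → ℝ) : ℝ :=
  ∑ x, wt w x * g x

/-- Mixtures `(1 - t) u + t v`, coordinatewise. -/
def mix (t : ℝ) (u v : ι → Ω → ℝ) : ι → Ω → ℝ := fun i a => (1 - t) * u i a + t * v i a

/-- Independent bits which are `true` with probability `ρ`: a random subset of `ι`. -/
def ber (ι : Type*) (ρ : ℝ) : ι → Bool → ℝ := fun _ b => if b then ρ else 1 - ρ

/-- The uniform weights. -/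
noncomputable def uni (ι Ω : Type*) [Fintype Ω] : ι → Ω → ℝ := fun _ _ => 1 / (Fintype.card Ω : ℝ)

/-- `x` on `V` and `y` outside `V`. -/
def sel (V : ι → Bool) (x y : ι → Ω) : ι → Ω := fun i => if V i then x i else y i

/-- The coordinates outside `V` are averaged over `u`. -/
noncomputable def hV [Fintype ι] [DecidableEq ι] [Fintype Ω] (u : ι → Ω → ℝ) (f : (ι → Ω) → ℂ) (V : ι → Bool)
    (x : ι → Ω) : ℂ := ex u fun y => f (sel V x y)

end measure

/-- Stability of the phases of the sums of functions of at most `d` coordinates with values in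
`ZMod m` under small changes of product measures. -/
def Stab (m : ℕ) [NeZero m] (Ω : Type*) [Fintype Ω] (d : ℕ) : Prop :=
  ∀ c > 0, ∀ ε > 0, ∃ η : ℝ, 0 < η ∧ η ≤ 1 ∧ ∀ (n : ℕ) (P : (Fin n → Ω) → ZMod m),
    P ∈ lowDeg (Fin n) Ω (ZMod m) d → ∀ M ν : Fin n → Ω → ℝ, IsPM M → IsPM ν →
      (∀ i a, c ≤ M i a) →
        ‖ex (mix η M ν) (fun x => ph m (P x)) - ex M (fun x => ph m (P x))‖ ≤ ε

/-! ## Small bias and derivatives -/

section group

variable {H : Type*} [AddCommGroup H]

/-- All nontrivial characters have average at most `δ` along `E`. -/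
def Biased {S : Type*} [Fintype S] (E : S → H) (δ : ℝ) : Prop :=
  ∀ χ : AddChar H ℂ, χ ≠ 1 → ‖av (fun s => χ (E s))‖ ≤ δ

/-- The map `D` fools the function `f` with error `δ`. -/
def FoolsF {S : Type*} [Fintype S] [Fintype H] (D : S → H) (f : H → ℂ) (δ : ℝ) : Prop :=
  ‖av (fun s => f (D s)) - av f‖ ≤ δ

/-- Multiplicative derivatives. -/
noncomputable def mder (a b : H) (f : H → ℂ) : H → ℂ :=
  fun y => f (y + a) * (starRingEnd ℂ) (f (y + b))

/-- Additive derivatives. -/
def ader {R : Type*} [AddCommGroup R] (a b : H) (A : H → R) : H → R := fun y => A (y + a) - A (y + b)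

/-- Iterated additive derivatives. -/
def iader {R : Type*} [AddCommGroup R] : List (H × H) → (H → R) → (H → R)
  | [], A => A
  | p :: l, A => iader l (ader p.1 p.2 A)

end group

/-! ## Generators -/

/-- The word over `Z` which is coded by a list of numbers. -/
def word {Z : Type*} {r : ℕ} [NeZero r] (e : Fin r ≃ Z) (n : ℕ) (l : List ℕ) : Fin n → Z :=
  fun i => e (Fin.ofNat r (l.getD i 0))

/-- There is an explicit generator of words over `Z` with logarithmic seeds, which fools the
functions in `𝒯 n` with error `δ` for all `n`. -/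
def Gen {Z : Type} [Fintype Z] {r : ℕ} [NeZero r] (e : Fin r ≃ Z)
    (𝒯 : ∀ n : ℕ, Set ((Fin n → Z) → ℂ)) (δ : ℝ) : Prop :=
  ∃ (D : ℕ → ℕ) (G : ℕ → List Bool → List ℕ),
    PolyTime D ∧ PolyTime (fun p : ℕ × List Bool => G p.1 p.2) ∧
    (∃ c : ℕ, ∀ n, 2 ^ D n ≤ c * (n + 1) ^ c) ∧
    (∀ n s, (G n s).length = n ∧ ∀ a ∈ G n s, a < r) ∧
    ∀ n, ∀ f ∈ 𝒯 n,
      ‖av (fun s : Fin (D n) → Bool => f (word e n (G n (List.ofFn s)))) - av f‖ ≤ δ

/-- The phases of the functions in `lowDeg` modulo `m`. -/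
def phCls (m : ℕ) [NeZero m] (Z : Type) (d n : ℕ) : Set ((Fin n → Z) → ℂ) :=
  {f | ∃ P ∈ lowDeg (Fin n) Z (ZMod m) d, f = fun x => ph m (P x)}

/-- The nontrivial characters of `Z ^ n`. -/
def chCls (Z : Type) [AddCommGroup Z] (n : ℕ) : Set ((Fin n → Z) → ℂ) :=
  {f | ∃ χ : AddChar (Fin n → Z) ℂ, χ ≠ 1 ∧ f = χ}

/-- Products of a phase modulo `q` which is killed by all `j` derivatives and of a phase of low
degree modulo `m'`. -/
def kCls (q m' : ℕ) [NeZero q] [NeZero m'] (Z : Type) [AddCommGroup Z] (d j n : ℕ) :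
    Set ((Fin n → Z) → ℂ) :=
  {f | ∃ A : (Fin n → Z) → ZMod q, (∀ l : List ((Fin n → Z) × (Fin n → Z)), l.length = j →
    iader l A = 0) ∧ ∃ B ∈ lowDeg (Fin n) Z (ZMod m') d, f = fun x => ph q (A x) * ph m' (B x)}

end Pool.Agent.MP_ca1109_lc.Mpg
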