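import Pool.Agent.MP_ca1109_lc.Mpg.Defs

/-!
# Operations on generators: trivial generators, change of the alphabet
-/

namespace Pool.Agent.MP_ca1109_lc.Mpg

open Pool.Agent.H66 Finset

/- PROOF NOTES [MPG-E1].
`polyTime_tbl`: `fun a => T.getD a 0` for a fixed list `T`: `PolyTime.getD` with `PolyTime.const T`.
`gen_trivial`: `D n = 0`, `G n s = List.replicate n 0` (entries `0 < r`); `f` is constant on words, so
both averages are equal to the constant (`Fin n → Z` is nonempty as `r ≠ 0`).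
`gen_map`: `T = List.ofFn (fun i : Fin r => ((e'.symm (β (e i))) : ℕ))`, new `G n s =
(G n s).map (fun a => T.getD a 0)`; entries `< r'`; `word e' n (G' n s) = β ∘ word e n (G n s)`:
for `i < n` the entry `a = (G n s).getD i 0 < r`, `Fin.ofNat r a = ⟨a, _⟩`,
`T.getD a 0 = (e'.symm (β (e ⟨a, _⟩))).val`, and `Fin.ofNat r' (j : Fin r').val = j`.
Triangle inequality.
-/

theorem polyTime_tbl (T : List ℕ) : PolyTime fun a : ℕ => T.getD a 0 :=
  PolyTime.getD PolyTime.id (PolyTime.const T) 0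

private theorem e1_av_const {A : Type*} [Fintype A] [Nonempty A] (c : ℂ) :
    av (fun _ : A => c) = c := by
  unfold av
  rw [Finset.sum_const, Finset.card_univ, nsmul_eq_mul]
  have h : (Fintype.card A : ℂ) ≠ 0 := Nat.cast_ne_zero.2 Fintype.card_ne_zero
  field_simp

variable {Z Z' : Type} [Fintype Z] [Fintype Z'] {r r' : ℕ} [NeZero r] [NeZero r']

theorem gen_trivial (e : Fin r ≃ Z) {𝒯 : ∀ n : ℕ, Set ((Fin n → Z) → ℂ)}
    (h : ∀ n, ∀ f ∈ 𝒯 n, ∀ x y, f x = f y) {δ : ℝ} (hδ : 0 ≤ δ) : Gen e 𝒯 δ := by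
  refine ⟨fun _ => 0, fun n _ => List.replicate n 0, PolyTime.const 0,
    PolyTime.replicate PolyTime.fst (PolyTime.const 0), ⟨1, fun n => by simp⟩, ?_, ?_⟩
  · intro n s
    refine ⟨List.length_replicate, fun a ha => ?_⟩
    rw [List.eq_of_mem_replicate ha]
    exact Nat.pos_of_ne_zero (NeZero.ne r)
  · intro n f hf
    have : Nonempty Z := ⟨e 0⟩
    obtain ⟨c, hc⟩ : ∃ c : ℂ, f = fun _ => c :=
      ⟨f (fun _ => e 0), funext fun x => h n f hf _ _⟩
    subst hc
    show ‖av (fun _ : Fin 0 → Bool => c) - av (fun _ : Fin n → Z => c)‖ ≤ δ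
    rw [e1_av_const, e1_av_const, sub_self, norm_zero]
    exact hδ

theorem gen_mono {e : Fin r ≃ Z} {𝒯 𝒯' : ∀ n : ℕ, Set ((Fin n → Z) → ℂ)} {δ δ' : ℝ}
    (h : Gen e 𝒯 δ) (h𝒯 : ∀ n, 𝒯' n ⊆ 𝒯 n) (hδ : δ ≤ δ') : Gen e 𝒯' δ' := by
  obtain ⟨D, G, h1, h2, h3, h4, h5⟩ := h
  exact ⟨D, G, h1, h2, h3, h4, fun n f hf => (h5 n f (h𝒯 n hf)).trans hδ⟩

theorem gen_map {e : Fin r ≃ Z} (e' : Fin r' ≃ Z') (β : Z → Z')
    {𝒯 : ∀ n : ℕ, Set ((Fin n → Z) → ℂ)} {𝒯' : ∀ n : ℕ, Set ((Fin n → Z') → ℂ)} {δ ε : ℝ}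
    (h : Gen e 𝒯 δ)
    (H : ∀ n, ∀ f ∈ 𝒯' n, (fun x : Fin n → Z => f (fun i => β (x i))) ∈ 𝒯 n ∧
      ‖av (fun x : Fin n → Z => f (fun i => β (x i))) - av f‖ ≤ ε) :
    Gen e' 𝒯' (δ + ε) := by
  obtain ⟨D, G, h1, h2, h3, h4, h5⟩ := h
  have hT : ∀ a : ℕ, a < r → (List.ofFn (fun i : Fin r => ((e'.symm (β (e i))) : ℕ))).getD a 0
      = ((e'.symm (β (e (Fin.ofNat r a)))) : ℕ) := by
    intro a ha
    have h6 : a < (List.ofFn (fun i : Fin r => ((e'.symm (β (e i))) : ℕ))).length := by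
      rw [List.length_ofFn]; exact ha
    rw [List.getD_eq_getElem _ _ h6, List.getElem_ofFn]
    have h7 : (⟨a, ha⟩ : Fin r) = Fin.ofNat r a := by
      apply Fin.ext
      simp [Nat.mod_eq_of_lt ha]
    rw [← h7]
  refine ⟨D, fun n s => (G n s).map
    (fun a => (List.ofFn (fun i : Fin r => ((e'.symm (β (e i))) : ℕ))).getD a 0), h1, ?_, h3,
    ?_, ?_⟩
  · exact PolyTime.map
      (f := fun _ a => (List.ofFn (fun i : Fin r => ((e'.symm (β (e i))) : ℕ))).getD a 0) h2
      ((polyTime_tbl _).comp PolyTime.snd)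
  · intro n s
    refine ⟨by rw [List.length_map]; exact (h4 n s).1, fun b hb => ?_⟩
    rw [List.mem_map] at hb
    obtain ⟨a, ha, rfl⟩ := hb
    rw [hT a ((h4 n s).2 a ha)]
    exact (e'.symm (β (e (Fin.ofNat r a)))).2
  · intro n f hf
    have hw : ∀ s : List Bool, word e' n ((G n s).map
        (fun a => (List.ofFn (fun i : Fin r => ((e'.symm (β (e i))) : ℕ))).getD a 0))
        = fun i => β (word e n (G n s) i) := by
      intro s
      funext i
      have hl : (i : ℕ) < (G n s).length := by rw [(h4 n s).1]; exact i.2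
      have hl' : (i : ℕ) < ((G n s).map (fun a => (List.ofFn (fun i : Fin r =>
          ((e'.symm (β (e i))) : ℕ))).getD a 0)).length := by
        rw [List.length_map]; exact hl
      have h8 := (h4 n s).2 _ (List.getElem_mem hl)
      unfold word
      rw [List.getD_eq_getElem _ _ hl', List.getD_eq_getElem _ _ hl, List.getElem_map, hT _ h8]
      have h9 : Fin.ofNat r' ((e'.symm (β (e (Fin.ofNat r ((G n s)[(i : ℕ)]))))) : ℕ)
          = e'.symm (β (e (Fin.ofNat r ((G n s)[(i : ℕ)])))) := by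
        apply Fin.ext
        simp
      rw [h9, Equiv.apply_symm_apply]
    obtain ⟨h10, h11⟩ := H n f hf
    have h12 := h5 n _ h10
    have h13 : (fun s : Fin (D n) → Bool => f (word e' n ((G n (List.ofFn s)).map
        (fun a => (List.ofFn (fun i : Fin r => ((e'.symm (β (e i))) : ℕ))).getD a 0))))
        = fun s : Fin (D n) → Bool => (fun x : Fin n → Z => f (fun i => β (x i)))
          (word e n (G n (List.ofFn s))) := by
      funext s
      rw [hw]
    rw [h13]
    calc ‖av (fun s : Fin (D n) → Bool => (fun x : Fin n → Z => f (fun i => β (x i)))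
          (word e n (G n (List.ofFn s)))) - av f‖
        = ‖(av (fun s : Fin (D n) → Bool => (fun x : Fin n → Z => f (fun i => β (x i)))
          (word e n (G n (List.ofFn s)))) - av (fun x : Fin n → Z => f (fun i => β (x i))))
          + (av (fun x : Fin n → Z => f (fun i => β (x i))) - av f)‖ := by
            congr 1; ring
      _ ≤ δ + ε := (norm_add_le _ _).trans (add_le_add h12 h11)

end Pool.Agent.MP_ca1109_lc.Mpg
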