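import Pool.Agent.MP_ca1109_lc.Mpg.B2
import Pool.Agent.MP_ca1109_lc.Mpg.E1

/-!
# Operations on generators: adding a small-bias generator
-/

namespace Pool.Agent.MP_ca1109_lc.Mpg

open Pool.Agent.H66 Finset

variable {Z : Type} [AddCommGroup Z] [Fintype Z] {r : ℕ} [NeZero r]

/- PROOF NOTES [MPG-E2].  Let `(D', G')` and `(D, G)` be the generators of `h'` and `hE`.  New
generator: seed length `D' n + D n`,
`K n s = (List.range n).map (fun i => T.getD (a_i * r + b_i) 0)`, where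
`a_i = (G' n (seg 0 (D' n) s)).getD i 0`, `b_i = (G n (seg (D' n) (D n) s)).getD i 0`
(`seg`, `polyTime_seg`, `seg_ofFn`, `seg_append_left/right`, see `MonoPoly.lean`, `segs` and
`polyTime_hyb` in `MonoStep.lean`; `List.ofFn_fin_append`), and
`T = List.ofFn (fun q : Fin (r * r) => ((e.symm (e ⟨q / r, _⟩ + e ⟨q % r, _⟩)) : ℕ))`.  All entries
are `< r` (also for seeds of a wrong length, because `a_i, b_i < r` or default `0 < r`).
`2 ^ (D' n + D n) ≤ c c' (n+1) ^ (c + c')`.
`word e n (K n (List.ofFn s)) = word e n (G' n s') + word e n (G n s'')` for `s = Fin.append s' s''`,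
and `av` over `Fin (D' n + D n) → Bool` is `av` over the pairs (`Fin.appendEquiv`/
`Fin.appendEquiv (α := Bool)`, `Fintype.sum_equiv`, cardinalities).
`hE` says: `Biased (fun s => word e n (G n (List.ofFn s))) ε₀` (for `χ ≠ 1` `av χ = 0`,
`AddChar.sum_eq_zero_of_ne_one`), `h'` says that `FoolsF` holds with `ε'` for the derivatives.
`viola`.
-/

/-- averages are invariant under bijections -/
theorem e2_av_equiv {A B : Type*} [Fintype A] [Fintype B] (e : A ≃ B) (f : B → ℂ) :
    av (fun a => f (e a)) = av f := by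
  unfold av
  rw [Fintype.card_congr e, Equiv.sum_comp e f]

/-- the addition table -/
noncomputable def e2_tab (e : Fin r ≃ Z) : List ℕ :=
  (List.range (r * r)).map fun q =>
    ((e.symm (e (Fin.ofNat r (q / r)) + e (Fin.ofNat r (q % r))) : Fin r) : ℕ)

omit [Fintype Z] in
theorem e2_tab_lt (e : Fin r ≃ Z) (k : ℕ) : (e2_tab e).getD k 0 < r := by
  unfold e2_tab
  rw [List.getD_eq_getElem?_getD, List.getElem?_map]
  rcases h : (List.range (r * r))[k]? with _ | q
  · simpa using Nat.pos_of_ne_zero (NeZero.ne r)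
  · simpa using (e.symm (e (Fin.ofNat r (q / r)) + e (Fin.ofNat r (q % r)))).isLt

omit [Fintype Z] in
theorem e2_tab_get (e : Fin r ≃ Z) {a b : ℕ} (ha : a < r) (hb : b < r) :
    (e2_tab e).getD (a * r + b) 0 =
      ((e.symm (e (Fin.ofNat r a) + e (Fin.ofNat r b)) : Fin r) : ℕ) := by
  have h1 : a * r + b < r * r := by
    calc a * r + b < a * r + r := by omega
      _ = (a + 1) * r := by ring
      _ ≤ r * r := Nat.mul_le_mul_right _ ha
  have h2 : (a * r + b) / r = a := by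
    rw [Nat.add_comm, Nat.add_mul_div_right _ _ (by omega), Nat.div_eq_of_lt hb, Nat.zero_add]
  have h3 : (a * r + b) % r = b := by
    rw [Nat.add_comm, Nat.add_mul_mod_self_right, Nat.mod_eq_of_lt hb]
  unfold e2_tab
  rw [List.getD_eq_getElem?_getD, List.getElem?_map, List.getElem?_range h1, Option.map_some,
    Option.getD_some, h2, h3]

/-- entrywise sum of two generators -/
noncomputable def e2_K (e : Fin r ≃ Z) (D' D : ℕ → ℕ) (G' G : ℕ → List Bool → List ℕ) (n : ℕ)
    (s : List Bool) : List ℕ :=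
  (List.range n).map fun i => (e2_tab e).getD
    ((G' n (seg 0 (D' n) s)).getD i 0 * r + (G n (seg (D' n) (D n) s)).getD i 0) 0

omit [Fintype Z] in
theorem e2_polyTime_K (e : Fin r ≃ Z) {D' D : ℕ → ℕ} {G' G : ℕ → List Bool → List ℕ}
    (hD' : PolyTime D') (hD : PolyTime D)
    (hG' : PolyTime fun p : ℕ × List Bool => G' p.1 p.2)
    (hG : PolyTime fun p : ℕ × List Bool => G p.1 p.2) :
    PolyTime fun p : ℕ × List Bool => e2_K e D' D G' G p.1 p.2 := by
  unfold e2_K
  have hn : PolyTime fun q : (ℕ × List Bool) × ℕ => q.1.1 := PolyTime.fst.comp PolyTime.fst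
  have hs : PolyTime fun q : (ℕ × List Bool) × ℕ => q.1.2 := PolyTime.snd.comp PolyTime.fst
  have hi : PolyTime fun q : (ℕ × List Bool) × ℕ => q.2 := PolyTime.snd
  have hA : PolyTime fun q : (ℕ × List Bool) × ℕ => G' q.1.1 (seg 0 (D' q.1.1) q.1.2) :=
    hG'.comp (hn.pair (polyTime_seg (PolyTime.const 0) (hD'.comp hn) hs))
  have hB : PolyTime fun q : (ℕ × List Bool) × ℕ => G q.1.1 (seg (D' q.1.1) (D q.1.1) q.1.2) :=
    hG.comp (hn.pair (polyTime_seg (hD'.comp hn) (hD.comp hn) hs))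
  refine PolyTime.map (f := fun (p : ℕ × List Bool) i => (e2_tab e).getD
    ((G' p.1 (seg 0 (D' p.1) p.2)).getD i 0 * r + (G p.1 (seg (D' p.1) (D p.1) p.2)).getD i 0) 0)
    (PolyTime.range PolyTime.fst) ?_
  exact PolyTime.getD (PolyTime.add (PolyTime.mul (PolyTime.getD hi hA 0) (PolyTime.const r))
    (PolyTime.getD hi hB 0)) (PolyTime.const (e2_tab e)) 0

omit [Fintype Z] in
theorem e2_word_K (e : Fin r ≃ Z) {D' D : ℕ → ℕ} {G' G : ℕ → List Bool → List ℕ} (n : ℕ)
    (hG' : ∀ s, (G' n s).length = n ∧ ∀ a ∈ G' n s, a < r)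
    (hG : ∀ s, (G n s).length = n ∧ ∀ a ∈ G n s, a < r)
    (s' : Fin (D' n) → Bool) (s'' : Fin (D n) → Bool) :
    word e n (e2_K e D' D G' G n (List.ofFn (Fin.append s' s''))) =
      word e n (G' n (List.ofFn s')) + word e n (G n (List.ofFn s'')) := by
  have h1 : seg 0 (D' n) (List.ofFn (Fin.append s' s'')) = List.ofFn s' := by
    rw [List.ofFn_fin_append, seg_append_left (by simp), seg_ofFn]
  have h2 : seg (D' n) (D n) (List.ofFn (Fin.append s' s'')) = List.ofFn s'' := by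
    have h3 := seg_append_right (List.ofFn s') (List.ofFn s'') 0 (D n)
    rw [List.length_ofFn, Nat.add_zero, seg_ofFn] at h3
    rw [List.ofFn_fin_append, h3]
  have hget : ∀ l : List ℕ, (∀ a ∈ l, a < r) → ∀ i : ℕ, l.getD i 0 < r := by
    intro l hl i
    rw [List.getD_eq_getElem?_getD]
    rcases h : l[i]? with _ | q
    · simpa using Nat.pos_of_ne_zero (NeZero.ne r)
    · simpa using hl q (List.mem_of_getElem? h)
  funext i
  rw [Pi.add_apply]
  unfold word
  have h4 : (e2_K e D' D G' G n (List.ofFn (Fin.append s' s''))).getD i 0 =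
      ((e.symm (e (Fin.ofNat r ((G' n (List.ofFn s')).getD i 0)) +
        e (Fin.ofNat r ((G n (List.ofFn s'')).getD i 0))) : Fin r) : ℕ) := by
    unfold e2_K
    rw [h1, h2, List.getD_eq_getElem?_getD, List.getElem?_map, List.getElem?_range i.isLt,
      Option.map_some, Option.getD_some]
    exact e2_tab_get e (hget _ (hG' _).2 _) (hget _ (hG _).2 _)
  rw [h4]
  have h5 : ∀ x : Fin r, Fin.ofNat r (x : ℕ) = x := by
    intro x
    apply Fin.ext
    simp [Nat.mod_eq_of_lt x.isLt]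
  rw [h5, Equiv.apply_symm_apply]

theorem gen_add {e : Fin r ≃ Z} {𝒯 𝒯' : ∀ n : ℕ, Set ((Fin n → Z) → ℂ)} {ε' ε₀ : ℝ}
    (hε' : 0 < ε') (hε₀ : 0 ≤ ε₀) (h' : Gen e 𝒯' ε') (hE : Gen e (chCls Z) ε₀)
    (H : ∀ n, ∀ f ∈ 𝒯 n, (∀ x, ‖f x‖ ≤ 1) ∧ ∀ a b, mder a b f ∈ 𝒯' n) :
    Gen e 𝒯 (3 * √ε' + ε₀) := by
  obtain ⟨D', G', hD', hG', ⟨c', hc'⟩, hl', hf'⟩ := h'
  obtain ⟨D, G, hD, hG, ⟨c, hc⟩, hl, hf⟩ := hE
  refine ⟨fun n => D' n + D n, e2_K e D' D G' G, PolyTime.add hD' hD,
    e2_polyTime_K e hD' hD hG' hG, ⟨c' * c + (c' + c), fun n => ?_⟩, fun n s => ⟨?_, ?_⟩,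
    fun n f hfn => ?_⟩
  · calc 2 ^ (D' n + D n) = 2 ^ D' n * 2 ^ D n := pow_add _ _ _
      _ ≤ (c' * (n + 1) ^ c') * (c * (n + 1) ^ c) := Nat.mul_le_mul (hc' n) (hc n)
      _ = (c' * c) * (n + 1) ^ (c' + c) := by rw [pow_add]; ring
      _ ≤ (c' * c + (c' + c)) * (n + 1) ^ (c' * c + (c' + c)) :=
        Nat.mul_le_mul (by omega) (Nat.pow_le_pow_right (by omega) (by omega))
  · simp [e2_K]
  · intro a ha
    unfold e2_K at ha
    rw [List.mem_map] at ha
    obtain ⟨i, _, rfl⟩ := ha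
    exact e2_tab_lt e _
  · obtain ⟨hf1, hf2⟩ := H n f hfn
    have hB : Biased (fun s : Fin (D n) → Bool => word e n (G n (List.ofFn s))) ε₀ := by
      intro χ hχ
      have h1 := hf n (χ : (Fin n → Z) → ℂ) ⟨χ, hχ, rfl⟩
      have h2 : av (fun x : Fin n → Z => χ x) = 0 := by
        unfold av
        rw [AddChar.sum_eq_zero_of_ne_one hχ, zero_div]
      have h3 : av (χ : (Fin n → Z) → ℂ) = 0 := h2
      rw [h3, sub_zero] at h1
      exact h1
    have hF : ∀ a b, FoolsF (fun s : Fin (D' n) → Bool => word e n (G' n (List.ofFn s)))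
        (mder a b f) ε' := fun a b => hf' n _ (hf2 a b)
    have h1 := viola hε' hε₀ hB hf1 hF
    unfold FoolsF at h1
    have h2 : av (fun s : Fin (D' n + D n) → Bool =>
        f (word e n (e2_K e D' D G' G n (List.ofFn s)))) =
        av (fun p : (Fin (D' n) → Bool) × (Fin (D n) → Bool) =>
          f (word e n (G' n (List.ofFn p.1)) + word e n (G n (List.ofFn p.2)))) := by
      rw [← e2_av_equiv (Fin.appendEquiv (D' n) (D n))]
      refine congrArg av (funext fun p => ?_)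
      rw [← e2_word_K e n (hl' n) (hl n) p.1 p.2]
      rfl
    show ‖av (fun s : Fin (D' n + D n) → Bool =>
        f (word e n (e2_K e D' D G' G n (List.ofFn s)))) - av f‖ ≤ 3 * √ε' + ε₀
    rw [h2]
    exact h1

end Pool.Agent.MP_ca1109_lc.Mpg
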