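import Pool.Agent.MP_ca1109_lc.Mpg.A9
import Pool.Agent.MP_ca1109_lc.Mpg.A2
import Pool.Agent.MP_ca1109_lc.Mpg.E1

/-!
# Large alphabets simulate small ones
-/

namespace Pool.Agent.MP_ca1109_lc.Mpg

open Pool.Agent.H66 Finset

variable {Z Z' : Type} [Fintype Z] [Fintype Z'] {r r' : ℕ} [NeZero r] [NeZero r']

/- PROOF NOTES [MPG-F1].  `Z'` has `r'` letters, `Z` has `r` letters, `β z = e (e'.symm z % r)`.
`push_count`: every `a : Fin r` has at least `r'/r - 1` (real division), i.e. the number `N_a` of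
`j < r'` with `j % r = a` satisfies `r' < (N_a + 1) * r` (`Nat.count_modEq_card` or directly:
`j = a + r t` for `t < (r' - a + r - 1) / r`).
`alphabet`: `stab m Z d` with `c = 1 / r` and `ε` gives `η`; take `K` with `r / K ≤ η`.  For
`r' ≥ K`: weights `w i b = N_b / r'` (image of the uniform weights, `ex_push`), so
`av (fun x => f (β ∘ x)) = ex w f` (`ex_uni`), and `w = mix η (uni) ν` with
`ν = (w - (1-η)/r)/η ≥ 0` as `N_b / r' ≥ 1/r - 1/r' ≥ (1 - η)/r` (`r/r' ≤ η`).  `av f = ex uni f`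
(`ex_uni`).  The function `x ↦ ph m (P (β ∘ x))` is in `phCls m Z' d n` by `lowDeg_comp`.
-/

/-- The change of letters. -/
def chg (e : Fin r ≃ Z) (e' : Fin r' ≃ Z') (z : Z') : Z := e (Fin.ofNat r (e'.symm z : ℕ))

theorem f1_card (a : Fin r) : (univ.filter fun j : Fin r' => Fin.ofNat r (j : ℕ) = a).card =
    r' / r + if (a : ℕ) % r < r' % r then 1 else 0 := by
  have hr : 0 < r := Nat.pos_of_ne_zero (NeZero.ne r)
  rw [← Nat.count_modEq_card r' hr (a : ℕ), Nat.count_eq_card_filter_range]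
  refine Finset.card_bij (fun j _ => (j : ℕ)) ?_ ?_ ?_
  · intro j hj
    rw [Finset.mem_filter] at hj ⊢
    refine ⟨Finset.mem_range.mpr j.2, ?_⟩
    have h := congrArg Fin.val hj.2
    rw [Fin.val_ofNat] at h
    rw [Nat.ModEq, h, Nat.mod_eq_of_lt a.2]
  · intro j _ j' _ h
    exact Fin.ext h
  · intro b hb
    rw [Finset.mem_filter] at hb
    refine ⟨⟨b, Finset.mem_range.mp hb.1⟩, ?_, rfl⟩
    rw [Finset.mem_filter]
    refine ⟨Finset.mem_univ _, ?_⟩
    apply Fin.ext
    have h := hb.2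
    rw [Nat.ModEq, Nat.mod_eq_of_lt a.2] at h
    rw [Fin.val_ofNat]
    exact h

theorem push_count (a : Fin r) : r' < ((univ.filter fun j : Fin r' => Fin.ofNat r (j : ℕ) = a).card
    + 1) * r := by
  have hr : 0 < r := Nat.pos_of_ne_zero (NeZero.ne r)
  rw [f1_card]
  have h1 := Nat.div_add_mod r' r
  have h2 := Nat.mod_lt r' hr
  have h3 : (r' / r + 1) * r ≤ (r' / r + (if (a : ℕ) % r < r' % r then 1 else 0) + 1) * r :=
    Nat.mul_le_mul_right r (by omega)
  refine lt_of_lt_of_le ?_ h3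
  rw [add_mul, one_mul, mul_comm (r' / r) r]
  omega

theorem f1_upper (a : Fin r) :
    (univ.filter fun j : Fin r' => Fin.ofNat r (j : ℕ) = a).card * r ≤ r' + r := by
  rw [f1_card]
  have h1 := Nat.div_add_mod r' r
  have h3 : (r' / r + (if (a : ℕ) % r < r' % r then 1 else 0)) * r ≤ (r' / r + 1) * r :=
    Nat.mul_le_mul_right r (by split_ifs <;> omega)
  refine h3.trans ?_
  rw [add_mul, one_mul, mul_comm (r' / r) r]
  omega

theorem f1_count [DecidableEq Z] (e : Fin r ≃ Z) (e' : Fin r' ≃ Z') (b : Z) :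
    (univ.filter fun z : Z' => chg e e' z = b).card =
      (univ.filter fun j : Fin r' => Fin.ofNat r (j : ℕ) = e.symm b).card := by
  refine Finset.card_bij (fun z _ => e'.symm z) ?_ ?_ ?_
  · intro z hz
    rw [Finset.mem_filter] at hz ⊢
    refine ⟨Finset.mem_univ _, ?_⟩
    rw [← hz.2, chg, Equiv.symm_apply_apply]
  · intro z _ z' _ h
    exact e'.symm.injective h
  · intro j hj
    rw [Finset.mem_filter] at hj
    refine ⟨e' j, ?_, Equiv.symm_apply_apply _ _⟩
    rw [Finset.mem_filter]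
    refine ⟨Finset.mem_univ _, ?_⟩
    rw [chg, Equiv.symm_apply_apply, hj.2, Equiv.apply_symm_apply]

theorem f1_close {N R R' : ℝ} (hR : 0 < R) (hR' : 0 < R') (h1 : R' ≤ (N + 1) * R)
    (h2 : N * R ≤ R' + R) : |N / R' - 1 / R| ≤ 1 / R' := by
  rw [abs_le]
  constructor
  · rw [neg_le_iff_add_nonneg, ← sub_nonneg]
    have : N / R' - 1 / R + 1 / R' - 0 = ((N + 1) * R - R') / (R' * R) := by
      field_simp
      ring
    rw [this]
    exact div_nonneg (by linarith) (by positivity)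
  · rw [← sub_nonneg]
    have : 1 / R' - (N / R' - 1 / R) = (R' + R - N * R) / (R' * R) := by
      field_simp
      ring
    rw [this]
    exact div_nonneg (by linarith) (by positivity)

theorem alphabet (m : ℕ) [NeZero m] (d : ℕ) (e : Fin r ≃ Z) {ε : ℝ} (hε : 0 < ε) :
    ∃ K : ℕ, ∀ (Z' : Type) [Fintype Z'] (r' : ℕ) [NeZero r'] (e' : Fin r' ≃ Z'), K ≤ r' →
      ∀ n, ∀ f ∈ phCls m Z d n, (fun x : Fin n → Z' => f (fun i => chg e e' (x i))) ∈ phCls m Z' d n ∧
        ‖av (fun x : Fin n → Z' => f (fun i => chg e e' (x i))) - av f‖ ≤ ε := by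
  classical
  have hr : 0 < r := Nat.pos_of_ne_zero (NeZero.ne r)
  have hrR : (0 : ℝ) < r := Nat.cast_pos.mpr hr
  obtain ⟨η, hη, H⟩ := stab_close m Z d (1 / r) (by positivity) ε hε
  obtain ⟨K, hK⟩ := exists_nat_gt (1 / η)
  refine ⟨K, ?_⟩
  intro Z' _ r' _ e' hKr n f hf
  obtain ⟨P, hP, rfl⟩ := hf
  have hr' : 0 < r' := Nat.pos_of_ne_zero (NeZero.ne r')
  have hrR' : (0 : ℝ) < r' := Nat.cast_pos.mpr hr'
  have hcZ : Fintype.card Z = r := by
    rw [← Fintype.card_congr e, Fintype.card_fin]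
  have hcZ' : Fintype.card Z' = r' := by
    rw [← Fintype.card_congr e', Fintype.card_fin]
  haveI : Nonempty Z := ⟨e ⟨0, hr⟩⟩
  haveI : Nonempty Z' := ⟨e' ⟨0, hr'⟩⟩
  refine ⟨⟨fun x => P (fun i => chg e e' (x i)), lowDeg_comp (fun _ => chg e e') hP, rfl⟩, ?_⟩
  rw [← ex_uni, ← ex_uni,
    ex_push (uni (Fin n) Z') (fun _ => chg e e') (fun x : Fin n → Z => ph m (P x))]
  refine H n P hP (uni (Fin n) Z) _ isPM_uni ⟨?_, ?_⟩ ?_ ?_
  · intro i b
    refine Finset.sum_nonneg fun z _ => ?_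
    split_ifs
    · rw [uni]
      positivity
    · exact le_refl _
  · intro i
    rw [Finset.sum_comm]
    have h1 : ∀ z : Z', (∑ b : Z, if chg e e' z = b then uni (Fin n) Z' i z else 0) =
        uni (Fin n) Z' i z := by
      intro z
      rw [Finset.sum_ite_eq]
      simp
    rw [Finset.sum_congr rfl fun z _ => h1 z]
    exact (isPM_uni (ι := Fin n) (Ω := Z')).sum_one i
  · intro i a
    rw [uni, hcZ]
  · intro i b
    have h1 : (∑ z : Z', if chg e e' z = b then uni (Fin n) Z' i z else 0) =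
        ((univ.filter fun j : Fin r' => Fin.ofNat r (j : ℕ) = e.symm b).card : ℝ) / r' := by
      rw [← f1_count e e' b, ← Finset.sum_filter]
      simp only [uni]
      rw [Finset.sum_const, nsmul_eq_mul, hcZ', mul_one_div]
    rw [h1, uni, hcZ]
    refine (f1_close hrR hrR' ?_ ?_).trans ?_
    · have := push_count (r' := r') (e.symm b)
      exact_mod_cast this.le
    · have := f1_upper (r' := r') (e.symm b)
      exact_mod_cast this
    · rw [one_div_le hrR' hη]
      exact hK.le.trans (by exact_mod_cast hKr)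

end Pool.Agent.MP_ca1109_lc.Mpg
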