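import Pool.Agent.MP_ca1109_lc.Mpg.C2
import Pool.Agent.MP_ca1109_lc.Mpg.D4
import Pool.Agent.MP_ca1109_lc.Mpg.E2
import Pool.Agent.MP_ca1109_lc.Mpg.F1

/-!
# Generators for phases of low degree modulo an arbitrary number
-/

namespace Pool.Agent.MP_ca1109_lc.Mpg

open Pool.Agent.H66 Finset

/- PROOF NOTES [MPG-F2].
`gen_kCls`: induction on `j`, for all `ε`.  `j = 0`: `gen_mono` with `kCls_zero`.
`j + 1`: the hypothesis for `j` with `ε' = (ε/6)^2`, `small_bias e` with `ε₀ = ε/2`, `gen_add` with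
`kCls_norm`, `kCls_step`: error `3 * √((ε/6)^2) + ε/2 = ε`.
`gen_phase`: strong induction on `m` (for all `Z, r, e, ε`).  `m = 1`: `ZMod 1` is a subsingleton, so
all `f ∈ phCls 1` are constant: `gen_trivial`.  `m > 1`: `p = m.minFac`,
`m = p ^ a * m'`, `¬ p ∣ m'` (`Nat.exists_eq_pow_mul_and_not_dvd`), `0 < a`, `m' < m`,
coprime.  `alphabet m d e (ε/2)` gives `K`; `Z' = Fin K → ZMod p`, which has `r' = p ^ K ≥ K`
elements, `p • z = 0`, `e' : Fin (p ^ K) ≃ Z'` (`Fintype.equivFinOfCardEq`..), `NeZero (p ^ K)`.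
Induction hypothesis for `m'`, `Z'` and all errors; `gen_kCls` with
`j = Fintype.card Z' ^ d * (p * a)`, `gen_mono` with `kCls_of_phCls` gives `Gen e' (phCls m Z' d) (ε/2)`,
and `gen_map` with `β = chg e e'` gives `Gen e (phCls m Z d) (ε/2 + ε/2)`.  (`subst` `m = p ^ a * m'`
early; `NeZero` is a proposition, instances agree.)
-/

theorem gen_kCls {q m' : ℕ} [NeZero q] [NeZero m'] {Z : Type} [AddCommGroup Z] [Fintype Z] {r : ℕ}
    [NeZero r] (e : Fin r ≃ Z) (d : ℕ) (h : ∀ ε > 0, Gen e (phCls m' Z d) ε) (j : ℕ) :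
    ∀ ε > 0, Gen e (kCls q m' Z d j) ε := by
  induction j with
  | zero =>
    intro ε hε
    exact gen_mono (h ε hε) (fun n f hf => kCls_zero hf) le_rfl
  | succ j ih =>
    intro ε hε
    have h1 := ih ((ε / 6) ^ 2) (by positivity)
    have h2 := small_bias e (show (0:ℝ) < ε / 2 by positivity)
    have h3 := gen_add (𝒯 := kCls q m' Z d (j + 1)) (by positivity) (by positivity) h1 h2
      (fun n f hf => ⟨fun x => kCls_norm hf x, fun a b => kCls_step hf a b⟩)
    have h4 : 3 * √((ε / 6) ^ 2) + ε / 2 = ε := by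
      rw [Real.sqrt_sq (by positivity)]
      ring
    rwa [h4] at h3

theorem gen_phase (m : ℕ) [NeZero m] (d : ℕ) {Z : Type} [Fintype Z] {r : ℕ} [NeZero r]
    (e : Fin r ≃ Z) {ε : ℝ} (hε : 0 < ε) : Gen e (phCls m Z d) ε := by
  have main : ∀ (N m : ℕ) [NeZero m], m ≤ N → ∀ (Z : Type) [Fintype Z] (r : ℕ) [NeZero r]
      (e : Fin r ≃ Z) (ε : ℝ), 0 < ε → Gen e (phCls m Z d) ε := by
    intro N
    induction N with
    | zero =>
      intro m hm0 hm
      exact absurd (Nat.le_zero.1 hm) (NeZero.ne m)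
    | succ N ih =>
      intro m hm0 hm Z _ r _ e ε hε
      by_cases h1 : m = 1
      · subst h1
        refine gen_trivial e ?_ hε.le
        rintro n f ⟨P, _, rfl⟩ x y
        have hxy : P x = P y := Subsingleton.elim _ _
        simp only [hxy]
      · obtain ⟨p, hp, hpm⟩ := Nat.exists_prime_and_dvd h1
        obtain ⟨a, m', hm', hmm⟩ := Nat.exists_eq_pow_mul_and_not_dvd (NeZero.ne m) p hp.ne_one
        subst hmm
        have hne : p ^ a * m' ≠ 0 := NeZero.ne _
        have hm'0 : m' ≠ 0 := fun h => hne (by rw [h, mul_zero])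
        have hpa0 : p ^ a ≠ 0 := pow_ne_zero _ hp.ne_zero
        have ha : a ≠ 0 := by
          rintro rfl
          rw [pow_zero, one_mul] at hpm
          exact hm' hpm
        have : NeZero m' := ⟨hm'0⟩
        have : NeZero (p ^ a) := ⟨hpa0⟩
        have : NeZero p := ⟨hp.ne_zero⟩
        have hpa2 : 2 ≤ p ^ a := hp.two_le.trans (Nat.le_self_pow ha p)
        have hlt : m' ≤ N := by
          have h2 : 2 * m' ≤ p ^ a * m' := Nat.mul_le_mul_right m' hpa2
          have h3 : 0 < m' := Nat.pos_of_ne_zero hm'0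
          omega
        have hcop : Nat.Coprime (p ^ a) m' :=
          Nat.Coprime.pow_left a ((Nat.Prime.coprime_iff_not_dvd hp).2 hm')
        obtain ⟨K, hK⟩ := alphabet (p ^ a * m') d e (half_pos hε)
        have hcard : Fintype.card (Fin K → ZMod p) = p ^ K := by
          rw [Fintype.card_fun, ZMod.card, Fintype.card_fin]
        have : NeZero (p ^ K) := ⟨pow_ne_zero _ hp.ne_zero⟩
        let e' : Fin (p ^ K) ≃ (Fin K → ZMod p) := (Fintype.equivFinOfCardEq hcard).symm
        have hle : K ≤ p ^ K := (Nat.lt_pow_self hp.one_lt).le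
        have hZ : ∀ z : Fin K → ZMod p, p • z = 0 := by
          intro z
          funext i
          rw [Pi.smul_apply, nsmul_eq_mul, ZMod.natCast_self, zero_mul]
          rfl
        have hk := gen_kCls (q := p ^ a) (m' := m') e' d
          (fun δ hδ => ih m' hlt (Fin K → ZMod p) (p ^ K) e' δ hδ)
          (Fintype.card (Fin K → ZMod p) ^ d * (p * a)) (ε / 2) (half_pos hε)
        have h2 : Gen e' (phCls (p ^ a * m') (Fin K → ZMod p) d) (ε / 2) :=
          gen_mono hk (fun n f hf => kCls_of_phCls hp hZ hcop hf) le_rfl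
        have h3 := gen_map e (chg e e') h2
          (fun n f hf => hK (Fin K → ZMod p) (p ^ K) e' hle n f hf)
        rwa [add_halves] at h3
  exact main m m le_rfl Z r e ε hε

end Pool.Agent.MP_ca1109_lc.Mpg
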