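import Pool.Agent.MP_ca1109_lc.Mpg.G0
import Pool.Agent.MP_ca1109_lc.Mpg.A4
import Pool.Agent.MP_ca1109_lc.Mpg.A5

/-!
# From phases to arbitrary functions of several polynomials
-/

namespace Pool.Agent.MP_ca1109_lc.Mpg

open Pool.Agent.H66 Finset

/- PROOF NOTES [MPG-G1].
`sum_ph`: `∑ c : ZMod m, ph m (c * w) = if w = 0 then m else 0` (`AddChar.sum_mulShift` with
`ZMod.isPrimitive_stdAddChar`; see `mggTwo_sum_e` in `Pool/Agent/Lib/PCP/MGG2.lean`).
`sum_ph_pi`: for `z : Fin k → ZMod m`: `∑ c : Fin k → ZMod m, ph m (∑ i, c i * z i) =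
∏ i, ∑ c, ph m (c * z i)` (`ph_sum`, `Finset.prod_univ_sum`) `= if z = 0 then m ^ k else 0`.
`test_error`: `b c = (1 / m ^ k) ∑ z, ind (F z) * conj (ph m (∑ i, c i * z i))`, `‖b c‖ ≤ 1`,
`(ind (F z) : ℂ) = ∑ c, b c * ph m (∑ i, c i * z i)`.  So for every map `W` and the tests
`ind (T (W s)) = ∑ c, b c * f_c (W s)`, `f_c x = ph m (∑ i, c i * P i x)`, `f_c ∈ phCls m Bool d n`
(`lowDeg_hom` with `AddMonoidHom.mulLeft (c i)`, sums in a subgroup).  `prob = avg ind`
(`prob_eq_avg`), `((avg g : ℝ) : ℂ) = av (fun a => (g a : ℂ))`; sum of `m ^ k` errors `≤ δ`.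
-/

theorem sum_ph_pi (m k : ℕ) [NeZero m] (z : Fin k → ZMod m) :
    ∑ c : Fin k → ZMod m, ph m (∑ i, c i * z i) = if z = 0 then ((m : ℂ)) ^ k else 0 := by
  have h1 : ∀ x : ZMod m, ∑ c : ZMod m, ph m (c * x) = if x = 0 then (m : ℂ) else 0 := by
    intro x
    have := AddChar.sum_mulShift (R' := ℂ) x (ZMod.isPrimitive_stdAddChar m)
    simp only [ph]
    rw [this]
    simp [ZMod.card]
  have h2 : ∑ c : Fin k → ZMod m, ph m (∑ i, c i * z i)
      = ∏ i, ∑ c : ZMod m, ph m (c * z i) := by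
    rw [Finset.prod_univ_sum, Fintype.piFinset_univ]
    exact Finset.sum_congr rfl fun c _ => ph_sum m _ _
  rw [h2, Finset.prod_congr rfl fun i _ => h1 (z i)]
  by_cases hz : z = 0
  · subst hz
    simp
  · rw [if_neg hz]
    obtain ⟨i, hi⟩ := Function.ne_iff.1 hz
    exact Finset.prod_eq_zero (Finset.mem_univ i) (if_neg hi)

private theorem g1_av {A : Type*} [Fintype A] (g : A → Bool) :
    ((prob g : ℝ) : ℂ) = av (fun a => ((ind (g a) : ℝ) : ℂ)) := by
  rw [prob_eq_avg]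
  unfold avg av
  push_cast
  rfl

private theorem g1_av_sum {A C : Type*} [Fintype A] [Fintype C] (b : C → ℂ) (f : C → A → ℂ) :
    av (fun a => ∑ c, b c * f c a) = ∑ c, b c * av (f c) := by
  unfold av
  rw [Finset.sum_comm, Finset.sum_div]
  refine Finset.sum_congr rfl fun c _ => ?_
  rw [← Finset.mul_sum, mul_div_assoc]

private theorem g1_fourier {m k : ℕ} [NeZero m] (F : (Fin k → ZMod m) → Bool) :
    ∃ b : (Fin k → ZMod m) → ℂ, (∀ c, ‖b c‖ ≤ 1) ∧ ∀ v : Fin k → ZMod m,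
      ((ind (F v) : ℝ) : ℂ) = ∑ c, b c * ph m (∑ i, c i * v i) := by
  have hm : (m : ℂ) ≠ 0 := by exact_mod_cast NeZero.ne m
  have hmk : (m : ℂ) ^ k ≠ 0 := pow_ne_zero _ hm
  refine ⟨fun c => (1 / (m : ℂ) ^ k) * ∑ z, ((ind (F z) : ℝ) : ℂ) *
    (starRingEnd ℂ) (ph m (∑ i, c i * z i)), ?_, ?_⟩
  · intro c
    rw [norm_mul, norm_div, norm_one, norm_pow, Complex.norm_natCast]
    have h1 : ‖∑ z : Fin k → ZMod m, ((ind (F z) : ℝ) : ℂ) *
        (starRingEnd ℂ) (ph m (∑ i, c i * z i))‖ ≤ (m : ℝ) ^ k := by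
      refine (norm_sum_le _ _).trans ?_
      have h2 : ∀ z ∈ (Finset.univ : Finset (Fin k → ZMod m)), ‖((ind (F z) : ℝ) : ℂ) *
          (starRingEnd ℂ) (ph m (∑ i, c i * z i))‖ ≤ 1 := by
        intro z _
        rw [norm_mul, RCLike.norm_conj, norm_ph, mul_one, Complex.norm_real,
          Real.norm_of_nonneg (ind_nonneg _)]
        exact ind_le_one _
      refine (Finset.sum_le_sum h2).trans ?_
      rw [Finset.sum_const, Finset.card_univ, Fintype.card_fun, ZMod.card, Fintype.card_fin]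
      simp
    have hpos : (0 : ℝ) < (m : ℝ) ^ k := by
      have : (0 : ℝ) < (m : ℝ) := by exact_mod_cast Nat.pos_of_ne_zero (NeZero.ne m)
      positivity
    rw [one_div, inv_mul_le_iff₀ hpos, mul_one]
    exact h1
  · intro v
    have h3 : ∀ c : Fin k → ZMod m, (1 / (m : ℂ) ^ k) * (∑ z, ((ind (F z) : ℝ) : ℂ) *
        (starRingEnd ℂ) (ph m (∑ i, c i * z i))) * ph m (∑ i, c i * v i)
        = ∑ z, (1 / (m : ℂ) ^ k) * ((ind (F z) : ℝ) : ℂ) * ph m (∑ i, c i * (v i - z i)) := by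
      intro c
      rw [Finset.mul_sum, Finset.sum_mul]
      refine Finset.sum_congr rfl fun z _ => ?_
      have h4 : ∑ i, c i * (v i - z i) = (∑ i, c i * v i) - ∑ i, c i * z i := by
        rw [← Finset.sum_sub_distrib]
        exact Finset.sum_congr rfl fun i _ => mul_sub _ _ _
      rw [h4, ph_sub]
      ring
    rw [Finset.sum_congr rfl fun c _ => h3 c, Finset.sum_comm]
    have h5 : ∀ z : Fin k → ZMod m, ∑ c : Fin k → ZMod m,
        (1 / (m : ℂ) ^ k) * ((ind (F z) : ℝ) : ℂ) * ph m (∑ i, c i * (v i - z i))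
        = if z = v then ((ind (F z) : ℝ) : ℂ) else 0 := by
      intro z
      rw [← Finset.mul_sum]
      have h6 := sum_ph_pi m k (fun i => v i - z i)
      rw [h6]
      by_cases hz : z = v
      · subst hz
        have h7 : (fun i => z i - z i) = (0 : Fin k → ZMod m) := by
          funext i; simp
        rw [if_pos h7, if_pos rfl]
        field_simp
      · have h7 : (fun i => v i - z i) ≠ (0 : Fin k → ZMod m) := by
          intro h
          apply hz
          funext i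
          exact (sub_eq_zero.1 (congrFun h i)).symm
        rw [if_neg h7, if_neg hz, mul_zero]
    rw [Finset.sum_congr rfl fun z _ => h5 z, Finset.sum_ite_eq']
    simp

theorem test_error {m d k n : ℕ} [NeZero m] {T : (Fin n → Bool) → Bool} (hT : LowTest m d k n T)
    {S : Type*} [Fintype S] (W : S → Fin n → Bool) {δ : ℝ}
    (h : ∀ f ∈ phCls m Bool d n, ‖av (fun s => f (W s)) - av f‖ ≤ δ) :
    |prob (fun s => T (W s)) - prob T| ≤ (m : ℝ) ^ k * δ := by
  obtain ⟨P, F, hP, hTF⟩ := hT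
  obtain ⟨b, hb, hF⟩ := g1_fourier F
  have e1 : ((prob (fun s => T (W s)) : ℝ) : ℂ)
      = ∑ c, b c * av (fun s => ph m (∑ i, c i * P i (W s))) := by
    rw [g1_av, ← g1_av_sum]
    congr 1
    funext s
    rw [hTF, hF]
  have e2 : ((prob T : ℝ) : ℂ) = ∑ c, b c * av (fun x => ph m (∑ i, c i * P i x)) := by
    rw [g1_av, ← g1_av_sum]
    congr 1
    funext x
    rw [hTF, hF]
  have h1 : |prob (fun s => T (W s)) - prob T|
      = ‖((prob (fun s => T (W s)) : ℝ) : ℂ) - ((prob T : ℝ) : ℂ)‖ := by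
    rw [← Complex.ofReal_sub, Complex.norm_real, Real.norm_eq_abs]
  rw [h1, e1, e2, ← Finset.sum_sub_distrib]
  refine (norm_sum_le _ _).trans ?_
  have h2 : ∀ c ∈ (Finset.univ : Finset (Fin k → ZMod m)),
      ‖b c * av (fun s => ph m (∑ i, c i * P i (W s)))
        - b c * av (fun x => ph m (∑ i, c i * P i x))‖ ≤ δ := by
    intro c _
    rw [← mul_sub, norm_mul]
    have hmem : (fun x => ph m (∑ i, c i * P i x)) ∈ phCls m Bool d n := by
      refine ⟨fun x => ∑ i, c i * P i x, ?_, rfl⟩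
      have h3 : (fun x : Fin n → Bool => ∑ i, c i * P i x)
          = ∑ i, (fun x => (AddMonoidHom.mulLeft (c i)) (P i x)) := by
        funext x
        rw [Finset.sum_apply]
        rfl
      rw [h3]
      exact AddSubgroup.sum_mem _ fun i _ => lowDeg_hom _ (hP i)
    have h4 := h _ hmem
    have h5 : 0 ≤ ‖av (fun s => ph m (∑ i, c i * P i (W s)))
        - av (fun x => ph m (∑ i, c i * P i x))‖ := norm_nonneg _
    calc ‖b c‖ * ‖av (fun s => ph m (∑ i, c i * P i (W s)))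
          - av (fun x => ph m (∑ i, c i * P i x))‖
        ≤ 1 * ‖av (fun s => ph m (∑ i, c i * P i (W s)))
          - av (fun x => ph m (∑ i, c i * P i x))‖ := mul_le_mul_of_nonneg_right (hb c) h5
      _ ≤ δ := by rw [one_mul]; exact h4
  refine (Finset.sum_le_sum h2).trans ?_
  rw [Finset.sum_const, Finset.card_univ, Fintype.card_fun, ZMod.card, Fintype.card_fin,
    nsmul_eq_mul]
  push_cast
  exact le_refl _

end Pool.Agent.MP_ca1109_lc.Mpg
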