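import Pool.Agent.MP_ca1109_lc.Mpg.F2
import Pool.Agent.MP_ca1109_lc.Mpg.G1

/-!
# Logarithmic-seed generators for functions of low-degree polynomials modulo `m`
-/

namespace Pool.Agent.MP_ca1109_lc.Mpg

open Pool.Agent.H66 Finset

/- PROOF NOTES [MPG-G2].
`growth`: from `2 ^ D n ≤ c * (n+1) ^ c`: for large `n`, `c * (n+1)^c ≤ n ^ (2c + 1)`, so
`D n ≤ (2 c + 1) * logb 2 n`, and `n ^ (2c+1) < 2 ^ n` for large `n`, so `D n < n`
(see the proofs of `UFam.gen` in `MonoThreshold.lean` and of `sym_easy` in `SymEasy.lean`).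
`logGen_low`: `gen_phase m d (finTwoEquiv : Fin 2 ≃ Bool)` with error `ε / m ^ k`; new
`G' n s = (G n s).map (fun a => decide (a = 1))` (`PolyTime.map`, `PolyTime.eqb`), length `n`;
`bits n (G' n s) = word finTwoEquiv n (G n s)` as the entries are `< 2`; `test_error`.
-/

theorem growth {D : ℕ → ℕ} (h : ∃ c : ℕ, ∀ n, 2 ^ D n ≤ c * (n + 1) ^ c) :
    ∃ c : ℝ, ∀ᶠ n : ℕ in Filter.atTop, (D n : ℝ) ≤ c * Real.logb 2 n ∧ D n < n := by
  obtain ⟨c, hc⟩ := h
  refine ⟨((2 * c + 1 : ℕ) : ℝ), ?_⟩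
  have h1 : ∀ᶠ n : ℕ in Filter.atTop, (n : ℝ) ^ (2 * c + 1) / (2 : ℝ) ^ n < 1 :=
    (tendsto_pow_const_div_const_pow_of_one_lt (2 * c + 1) (by norm_num : (1 : ℝ) < 2)).eventually
      (gt_mem_nhds one_pos)
  filter_upwards [h1, Filter.eventually_ge_atTop (c + 2)] with n hn1 hn2
  have hn0 : (0 : ℝ) < n := by exact_mod_cast (by omega : 0 < n)
  have e1 : (n + 1) ^ c ≤ n ^ (2 * c) := by
    rw [pow_mul]
    refine Nat.pow_le_pow_left ?_ c
    nlinarith
  have e2 : 2 ^ D n ≤ n ^ (2 * c + 1) := by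
    refine (hc n).trans ?_
    calc c * (n + 1) ^ c ≤ n * n ^ (2 * c) := Nat.mul_le_mul (by omega) e1
      _ = n ^ (2 * c + 1) := by ring
  refine ⟨?_, ?_⟩
  · have h2 : ((2 : ℝ) ^ D n) ≤ (n : ℝ) ^ (2 * c + 1) := by exact_mod_cast e2
    have h3 := Real.logb_le_logb_of_le (by norm_num : (1 : ℝ) < 2) (by positivity) h2
    rwa [Real.logb_pow, Real.logb_pow, Real.logb_self_eq_one (by norm_num), mul_one] at h3
  · rw [div_lt_one (by positivity)] at hn1
    have h2 : n ^ (2 * c + 1) < 2 ^ n := by exact_mod_cast hn1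
    exact (Nat.pow_lt_pow_iff_right (by norm_num)).1 (e2.trans_lt h2)

private theorem g2_letter (a : ℕ) (ha : a < 2) :
    finTwoEquiv (Fin.ofNat 2 a) = decide (a = 1) := by
  have h : a = 0 ∨ a = 1 := by omega
  rcases h with rfl | rfl <;> rfl

private theorem g2_word (n : ℕ) (l : List ℕ) (hl : l.length = n) (h2 : ∀ a ∈ l, a < 2) :
    bits n (l.map fun a => decide (a = 1)) = word finTwoEquiv n l := by
  funext i
  unfold bits word
  have hi : (i : ℕ) < l.length := by rw [hl]; exact i.2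
  have hi' : (i : ℕ) < (l.map fun a => decide (a = 1)).length := by
    rw [List.length_map]; exact hi
  rw [List.getD_eq_getElem _ _ hi', List.getD_eq_getElem _ _ hi, List.getElem_map]
  exact (g2_letter _ (h2 _ (List.getElem_mem hi))).symm

theorem logGen_low (m d k : ℕ) [NeZero m] {ε : ℝ} (hε : 0 < ε) : LogGen (LowTest m d k) ε := by
  have hm : (0 : ℝ) < (m : ℝ) ^ k := by
    have h0 : (0 : ℝ) < (m : ℝ) := by exact_mod_cast Nat.pos_of_ne_zero (NeZero.ne m)
    positivity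
  have hδ : 0 < ε / (m : ℝ) ^ k := div_pos hε hm
  obtain ⟨D, G, hD, hG, hgr, hl, hf⟩ := gen_phase m d (finTwoEquiv : Fin 2 ≃ Bool) hδ
  obtain ⟨c, hc⟩ := growth hgr
  refine ⟨D, fun n s => (G n s).map fun a => decide (a = 1), hD, ?_, fun n s _ => ?_, c, ?_⟩
  · exact PolyTime.map (l := fun p : ℕ × List Bool => G p.1 p.2)
      (f := fun _ a => decide (a = 1)) hG (PolyTime.eqb PolyTime.snd (PolyTime.const 1))
  · rw [List.length_map]; exact (hl n s).1
  · filter_upwards [hc] with n hn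
    refine ⟨hn.1, hn.2, fun T hT => ?_⟩
    have h1 := test_error hT (fun s : Fin (D n) → Bool => word finTwoEquiv n (G n (List.ofFn s)))
      (hf n)
    rw [mul_div_cancel₀ _ hm.ne'] at h1
    have h2 : (fun s : Fin (D n) → Bool =>
        T (bits n ((G n (List.ofFn s)).map fun a => decide (a = 1))))
        = fun s : Fin (D n) → Bool => T (word finTwoEquiv n (G n (List.ofFn s))) := by
      funext s
      rw [g2_word n _ (hl n _).1 (hl n _).2]
    rw [h2]
    exact h1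

end Pool.Agent.MP_ca1109_lc.Mpg
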