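import Pool.Agent.MP_ca1109_lc.Mpg.G0
import Pool.Agent.MP_ca1109_lc.Mpg.A4

/-!
# Combining polynomials modulo divisors of `m`
-/

namespace Pool.Agent.MP_ca1109_lc.Mpg

open Pool.Agent.H66 Finset

/- PROOF NOTES [MPG-G3].  For `q ∣ m`, `m = q * t`, `t ≠ 0`, the map `ZMod q →+ ZMod m`,
`z ↦ t * z` is well defined (`ZMod.lift q ⟨zmultiplesHom.. , _⟩`: the image `t` of `1` is killed by
`q`) and injective (`t * a ≡ 0 mod q t` iff `q ∣ a`; `ZMod.intCast_zmod_eq_zero_iff..`,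
`ZMod.intCast_surjective`).  `embed` states this.  `lowTest_of`: enumerate `J`
(`Fintype.equivFin J`), `P j = φ_j ∘ I j` (`lowDeg_hom`), and define
`F v = if h : ∃ x, (fun i => P i x) = v then T h.choose else false`.
-/

theorem embed {q m : ℕ} [NeZero m] (h : q ∣ m) : ∃ φ : ZMod q →+ ZMod m, Function.Injective φ := by
  obtain ⟨t, ht⟩ := h
  have hm : m ≠ 0 := NeZero.ne m
  have ht0 : t ≠ 0 := by
    rintro rfl
    exact hm (by rw [ht, mul_zero])
  have h0 : (zmultiplesHom (ZMod m) (t : ZMod m)) (q : ℤ) = 0 := by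
    rw [zmultiplesHom_apply, natCast_zsmul, nsmul_eq_mul, ← Nat.cast_mul, ← ht,
      ZMod.natCast_self]
  refine ⟨ZMod.lift q ⟨zmultiplesHom (ZMod m) (t : ZMod m), h0⟩, ?_⟩
  rw [ZMod.lift_injective]
  intro a ha
  change (zmultiplesHom (ZMod m) (t : ZMod m)) a = 0 at ha
  rw [zmultiplesHom_apply, zsmul_eq_mul] at ha
  have h1 : ((a * (t : ℤ) : ℤ) : ZMod m) = 0 := by
    push_cast
    exact ha
  rw [ZMod.intCast_zmod_eq_zero_iff_dvd] at h1 ⊢
  have h2 : (m : ℤ) = (q : ℤ) * (t : ℤ) := by rw [ht]; push_cast; ring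
  rw [h2] at h1
  exact Int.dvd_of_mul_dvd_mul_right (by exact_mod_cast ht0) h1

theorem lowTest_of {J : Type} [Fintype J] {m d n : ℕ} [NeZero m] (q : J → ℕ) (hq : ∀ j, q j ∣ m)
    (I : ∀ j, (Fin n → Bool) → ZMod (q j))
    (hI : ∀ j, I j ∈ lowDeg (Fin n) Bool (ZMod (q j)) d) {T : (Fin n → Bool) → Bool}
    (hT : ∀ x y, (∀ j, I j x = I j y) → T x = T y) : LowTest m d (Fintype.card J) n T := by
  classical
  have hφ : ∀ j, ∃ φ : ZMod (q j) →+ ZMod m, Function.Injective φ := fun j => embed (hq j)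
  choose φ hφ using hφ
  obtain ⟨e⟩ : Nonempty (J ≃ Fin (Fintype.card J)) := ⟨Fintype.equivFin J⟩
  refine ⟨fun i x => φ (e.symm i) (I (e.symm i) x), fun v =>
    if h : ∃ x, (fun i => φ (e.symm i) (I (e.symm i) x)) = v then T h.choose else false, ?_, ?_⟩
  · intro i
    exact lowDeg_hom (φ (e.symm i)) (hI (e.symm i))
  · intro x
    have h : ∃ y, (fun i => φ (e.symm i) (I (e.symm i) y)) =
        (fun i => φ (e.symm i) (I (e.symm i) x)) := ⟨x, rfl⟩
    show T x = if h : ∃ y, (fun i => φ (e.symm i) (I (e.symm i) y)) =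
        (fun i => φ (e.symm i) (I (e.symm i) x)) then T h.choose else false
    rw [dif_pos h]
    apply hT
    intro j
    obtain ⟨i, rfl⟩ : ∃ i, e.symm i = j := ⟨e j, e.symm_apply_apply j⟩
    exact (hφ (e.symm i) (congrFun h.choose_spec i)).symm

end Pool.Agent.MP_ca1109_lc.Mpg
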