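import Pool.Agent.MP_ca1109_lc.Mpg.G0
import Pool.Agent.MP_ca1109_lc.Mpg.A4

/-!
# Circuits with gates modulo a prime power are polynomials of low degree modulo the prime
-/

namespace Pool.Agent.MP_ca1109_lc.Mpg

open Pool.Agent.H66 Finset

/- PROOF NOTES [MPG-G4].  Write `[b] : ZMod p` for `if b then 1 else 0`.
`fun_of_ind`: if `p` is prime, `v_1, ..., v_k ∈ lowDeg D` with values in `ZMod p` and
`F : (Fin k → ZMod p) → ZMod p` is arbitrary, then `x ↦ F (v x) ∈ lowDeg (k * (p - 1) * D)`:
`F v = ∑ c, F c * ∏ i, (1 - (v i - c i) ^ (p - 1))` (Fermat, `ZMod.pow_card_sub_one_eq_one`),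
`lowDeg_mul`, `lowDeg_pow`, `lowDeg_const`, `lowDeg_mono`.
`esymm_mem`: if `y_j ∈ lowDeg D` (`j : Fin L`), then for `t : ℕ` the function
`x ↦ ∑ U ∈ powersetCard t univ, ∏ j ∈ U, y_j x` is in `lowDeg (t * D)`; for `y_j x = [f_j x]` it is the
binomial coefficient `C(S, t)` in `ZMod p`, `S` = the number of `j` with `f_j x`
(`Finset.card_powersetCard`).
`lucas_digits`: for `p` prime and `S, S' : ℕ` with `(C(S, p^i) : ZMod p) = C(S', p^i)` for all
`i < a`: `S ≡ S' [MOD p^a]`, as `C(S, p^i) ≡` the `i`-th base-`p` digit of `S` (Lucas,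
`Choose.choose_modEq_choose_mod_mul_choose_div_nat` / `Choose.choose_modEq_prod_range_choose`).
`modCirc_lowDeg`, `q = p ^ a`: induction on the circuit (on `h`, with the degree bound `Dg h`,
`Dg 0 = 1`, `Dg (h+1) = (a + k + 1) * p * p ^ a * Dg h`, monotone):
input: a function of one coordinate (`junta_mem`); `up`: `lowDeg_mono`; `mod`: `[A (∑ ..)]` is a
function of the `a` values `C(S, p^i) ∈ lowDeg (p^i * Dg h)`, so it is in
`lowDeg (a * (p-1) * p ^ a * Dg h)` by `fun_of_ind`; `loc`: `[F (f x)]` is a function of the `k`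
values `[f_j x]`.
-/

private theorem g4_prod {J S : Type*} [CommRing S] {D n : ℕ} (y : J → (Fin n → Bool) → S)
    (hy : ∀ j, y j ∈ lowDeg (Fin n) Bool S D) (s : Finset J) :
    (fun x => ∏ j ∈ s, y j x) ∈ lowDeg (Fin n) Bool S (s.card * D) := by
  classical
  induction s using Finset.induction_on with
  | empty =>
    simp only [Finset.prod_empty]
    exact lowDeg_const 1
  | insert a s ha ih =>
    have h1 := lowDeg_mul (hy a) ih
    have h2 : D + s.card * D = (Insert.insert a s : Finset J).card * D := by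
      rw [Finset.card_insert_of_notMem ha]
      ring
    rw [h2] at h1
    have h3 : (fun x => ∏ j ∈ Insert.insert a s, y j x) =
        fun x => y a x * ∏ j ∈ s, y j x := by
      funext x
      rw [Finset.prod_insert ha]
    rw [h3]
    exact h1

private theorem g4_sum {J S : Type*} [AddCommGroup S] {D n : ℕ} (y : J → (Fin n → Bool) → S)
    (s : Finset J) (hy : ∀ j ∈ s, y j ∈ lowDeg (Fin n) Bool S D) :
    (fun x => ∑ j ∈ s, y j x) ∈ lowDeg (Fin n) Bool S D := by
  have h1 : (fun x => ∑ j ∈ s, y j x) = ∑ j ∈ s, y j := by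
    funext x
    rw [Finset.sum_apply]
  rw [h1]
  exact AddSubgroup.sum_mem _ hy

theorem fun_of_ind {p k D n : ℕ} [Fact p.Prime] (v : Fin k → (Fin n → Bool) → ZMod p)
    (hv : ∀ i, v i ∈ lowDeg (Fin n) Bool (ZMod p) D) (F : (Fin k → ZMod p) → ZMod p) :
    (fun x => F (fun i => v i x)) ∈ lowDeg (Fin n) Bool (ZMod p) (k * (p - 1) * D) := by
  classical
  have hp : p.Prime := Fact.out
  have hid : (fun x => F (fun i => v i x)) = fun x => ∑ c : Fin k → ZMod p,
      F c * ∏ i, (1 - (v i x - c i) ^ (p - 1)) := by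
    funext x
    rw [Finset.sum_eq_single (fun i => v i x)]
    · have h1 : ∀ i, (1 - (v i x - v i x) ^ (p - 1)) = 1 := by
        intro i
        rw [sub_self, zero_pow (Nat.sub_ne_zero_of_lt hp.one_lt), sub_zero]
      simp only [h1, Finset.prod_const_one, mul_one]
    · intro c _ hc
      have h2 : ∃ i, v i x - c i ≠ 0 := by
        by_contra hcon
        push Not at hcon
        exact hc (funext fun i => (sub_eq_zero.1 (hcon i)).symm)
      obtain ⟨i, hi⟩ := h2
      rw [Finset.prod_eq_zero (Finset.mem_univ i), mul_zero]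
      rw [ZMod.pow_card_sub_one_eq_one hi, sub_self]
    · intro h
      exact absurd (Finset.mem_univ _) h
  rw [hid]
  refine g4_sum _ _ fun c _ => ?_
  have h1 : ∀ i, (fun x => 1 - (v i x - c i) ^ (p - 1)) ∈
      lowDeg (Fin n) Bool (ZMod p) ((p - 1) * D) := by
    intro i
    have h2 : (fun x => v i x - c i) ∈ lowDeg (Fin n) Bool (ZMod p) D :=
      AddSubgroup.sub_mem _ (hv i) (lowDeg_const (c i))
    exact AddSubgroup.sub_mem _ (lowDeg_const 1) (lowDeg_pow h2 (p - 1))
  have h2 := g4_prod (fun i x => 1 - (v i x - c i) ^ (p - 1)) h1 Finset.univ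
  rw [Finset.card_univ, Fintype.card_fin] at h2
  have h3 := lowDeg_mul (lowDeg_const (d := 0) (F c)) h2
  rw [zero_add, ← mul_assoc] at h3
  exact h3

theorem esymm_mem {p L D n : ℕ} (y : Fin L → (Fin n → Bool) → ZMod p)
    (hy : ∀ j, y j ∈ lowDeg (Fin n) Bool (ZMod p) D) (t : ℕ) :
    (fun x => ∑ U ∈ powersetCard t univ, ∏ j ∈ U, y j x) ∈
      lowDeg (Fin n) Bool (ZMod p) (t * D) := by
  refine g4_sum (fun U x => ∏ j ∈ U, y j x) _ fun U hU => ?_
  have h1 := g4_prod y hy U
  rw [(Finset.mem_powersetCard.1 hU).2] at h1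
  exact h1

private theorem g4_lucas (p : ℕ) [Fact p.Prime] : ∀ (a S S' : ℕ),
    (∀ i < a, S.choose (p ^ i) ≡ S'.choose (p ^ i) [MOD p]) → S ≡ S' [MOD p ^ a] := by
  have hp : p.Prime := Fact.out
  intro a
  induction a with
  | zero =>
    intro S S' _
    rw [pow_zero]
    exact Nat.modEq_one
  | succ a ih =>
    intro S S' h
    have h0 : S ≡ S' [MOD p] := by
      have := h 0 (Nat.succ_pos a)
      rwa [pow_zero, Nat.choose_one_right, Nat.choose_one_right] at this
    have hl : ∀ T i : ℕ, T.choose (p ^ (i + 1)) ≡ (T / p).choose (p ^ i) [MOD p] := by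
      intro T i
      have h1 := Choose.choose_modEq_choose_mod_mul_choose_div_nat (n := T) (k := p ^ (i + 1))
        (p := p)
      have h2 : p ^ (i + 1) % p = 0 := by
        rw [pow_succ]
        exact Nat.mul_mod_left _ _
      have h3 : p ^ (i + 1) / p = p ^ i := by
        rw [pow_succ]
        exact Nat.mul_div_cancel _ hp.pos
      rw [h2, h3, Nat.choose_zero_right, one_mul] at h1
      exact h1
    have h1 : S / p ≡ S' / p [MOD p ^ a] := by
      apply ih
      intro i hi
      exact ((hl S i).symm.trans (h (i + 1) (Nat.succ_lt_succ hi))).trans (hl S' i)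
    have h2 : p * (S / p) ≡ p * (S' / p) [MOD p * p ^ a] := Nat.ModEq.mul_left' p h1
    have h3 : S % p + p * (S / p) ≡ S' % p + p * (S' / p) [MOD p * p ^ a] := by
      have h4 : S % p = S' % p := h0
      rw [h4]
      exact Nat.ModEq.add_left _ h2
    rw [Nat.mod_add_div, Nat.mod_add_div] at h3
    rw [pow_succ, mul_comm]
    exact h3

theorem lucas_digits {p a : ℕ} [Fact p.Prime] {S S' : ℕ}
    (h : ∀ i < a, ((S.choose (p ^ i) : ℕ) : ZMod p) = ((S'.choose (p ^ i) : ℕ) : ZMod p)) :
    (S : ZMod (p ^ a)) = (S' : ZMod (p ^ a)) := by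
  rw [ZMod.natCast_eq_natCast_iff]
  exact g4_lucas p a S S' fun i hi => (ZMod.natCast_eq_natCast_iff _ _ _).1 (h i hi)

private theorem g4_choose {p L n : ℕ} (f : Fin L → (Fin n → Bool) → Bool) (t : ℕ)
    (x : Fin n → Bool) :
    ∑ U ∈ powersetCard t univ, ∏ j ∈ U, (if f j x then (1 : ZMod p) else 0) =
      (((∑ j, if f j x then 1 else 0 : ℕ).choose t : ℕ) : ZMod p) := by
  classical
  have h1 : ∀ U ∈ powersetCard t (univ : Finset (Fin L)),
      (∏ j ∈ U, (if f j x then (1 : ZMod p) else 0)) =
        if U ⊆ univ.filter (fun j => f j x = true) then 1 else 0 := by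
    intro U _
    by_cases hU : U ⊆ univ.filter (fun j => f j x = true)
    · rw [if_pos hU]
      refine Finset.prod_eq_one fun j hj => ?_
      exact if_pos (Finset.mem_filter.1 (hU hj)).2
    · rw [if_neg hU]
      rw [Finset.not_subset] at hU
      obtain ⟨j, hj, hj'⟩ := hU
      refine Finset.prod_eq_zero hj (if_neg fun h => hj' ?_)
      exact Finset.mem_filter.2 ⟨Finset.mem_univ j, h⟩
  rw [Finset.sum_congr rfl h1, Finset.sum_boole]
  have h2 : (powersetCard t (univ : Finset (Fin L))).filter
      (fun U => U ⊆ univ.filter (fun j => f j x = true)) =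
      powersetCard t (univ.filter (fun j => f j x = true)) := by
    ext U
    rw [Finset.mem_filter, Finset.mem_powersetCard, Finset.mem_powersetCard]
    constructor
    · rintro ⟨⟨_, h3⟩, h4⟩
      exact ⟨h4, h3⟩
    · rintro ⟨h3, h4⟩
      exact ⟨⟨Finset.subset_univ _, h4⟩, h3⟩
  rw [h2, Finset.card_powersetCard, Finset.card_filter]

theorem modCirc_lowDeg {p a : ℕ} (hp : p.Prime) (k h : ℕ) : ∃ D : ℕ, ∀ (n : ℕ)
    (f : (Fin n → Bool) → Bool), ModCirc (p ^ a) k h f →
      (fun x => if f x then (1 : ZMod p) else 0) ∈ lowDeg (Fin n) Bool (ZMod p) D := by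
  classical
  have : Fact p.Prime := ⟨hp⟩
  have hpa : 0 < p ^ a := pow_pos hp.pos a
  induction h with
  | zero =>
    refine ⟨1, fun n f hf => ?_⟩
    cases hf with
    | input i =>
      refine junta_mem {i} (by rw [Finset.card_singleton]) ?_
      intro x y hxy
      have h1 : x i = y i := hxy i (by simp)
      simp only [h1]
  | succ h ih =>
    obtain ⟨D, hD⟩ := ih
    have hmul : ∀ c : ℕ, c ≤ (a + k + 1) * p * p ^ a → c * D ≤ (a + k + 1) * p * p ^ a * D :=
      fun c hc => Nat.mul_le_mul_right D hc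
    refine ⟨(a + k + 1) * p * p ^ a * D, fun n f hf => ?_⟩
    cases hf with
    | up hf =>
      refine lowDeg_mono ?_ (hD n f hf)
      have h1 : 1 ≤ (a + k + 1) * p * p ^ a :=
        Nat.mul_pos (Nat.mul_pos (Nat.succ_pos _) hp.pos) hpa
      have h2 := hmul 1 h1
      rwa [one_mul] at h2
    | @mod _ L f hf A =>
      -- the values
      have hv : ∀ i : Fin a, (fun x => (((∑ j, if f j x then 1 else 0 : ℕ).choose
          (p ^ (i : ℕ)) : ℕ) : ZMod p)) ∈ lowDeg (Fin n) Bool (ZMod p) (p ^ a * D) := by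
        intro i
        have h1 := esymm_mem (fun j x => if f j x then (1 : ZMod p) else 0)
          (fun j => hD n (f j) (hf j)) (p ^ (i : ℕ))
        simp only [g4_choose] at h1
        exact lowDeg_mono (Nat.mul_le_mul_right D (Nat.pow_le_pow_right hp.pos i.2.le)) h1
      have h2 := fun_of_ind (fun (i : Fin a) x => (((∑ j, if f j x then 1 else 0 : ℕ).choose
          (p ^ (i : ℕ)) : ℕ) : ZMod p)) hv
        (fun c => if hc : ∃ s : ℕ, ∀ i : Fin a, ((s.choose (p ^ (i : ℕ)) : ℕ) : ZMod p) = c i then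
          (if A ((Classical.choose hc : ℕ) : ZMod (p ^ a)) then 1 else 0) else 0)
      have h3 : (fun x => if A (∑ j, if f j x then 1 else 0) then (1 : ZMod p) else 0) =
          fun x => (fun c : Fin a → ZMod p =>
            if hc : ∃ s : ℕ, ∀ i : Fin a, ((s.choose (p ^ (i : ℕ)) : ℕ) : ZMod p) = c i then
          (if A ((Classical.choose hc : ℕ) : ZMod (p ^ a)) then (1 : ZMod p) else 0) else 0)
            (fun i => (((∑ j, if f j x then 1 else 0 : ℕ).choose (p ^ (i : ℕ)) : ℕ) : ZMod p)) := by
        funext x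
        have hex : ∃ s : ℕ, ∀ i : Fin a, ((s.choose (p ^ (i : ℕ)) : ℕ) : ZMod p) =
            (((∑ j, if f j x then 1 else 0 : ℕ).choose (p ^ (i : ℕ)) : ℕ) : ZMod p) :=
          ⟨_, fun i => rfl⟩
        have h4 := Classical.choose_spec hex
        have h5 := lucas_digits (p := p) (a := a) (fun i hi => h4 ⟨i, hi⟩)
        have h6 : ((∑ j, if f j x then 1 else 0 : ℕ) : ZMod (p ^ a)) =
            ∑ j, if f j x then (1 : ZMod (p ^ a)) else 0 := by
          push_cast
          rfl
        show (if A (∑ j, if f j x then 1 else 0) then (1 : ZMod p) else 0) =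
          if hc : ∃ s : ℕ, ∀ i : Fin a, ((s.choose (p ^ (i : ℕ)) : ℕ) : ZMod p) =
            (((∑ j, if f j x then 1 else 0 : ℕ).choose (p ^ (i : ℕ)) : ℕ) : ZMod p) then
          (if A ((Classical.choose hc : ℕ) : ZMod (p ^ a)) then (1 : ZMod p) else 0) else 0
        rw [dif_pos hex, h5, h6]
      show (fun x => if A (∑ j, if f j x then 1 else 0) then (1 : ZMod p) else 0) ∈
        lowDeg (Fin n) Bool (ZMod p) _
      rw [h3]
      refine lowDeg_mono ?_ h2
      rw [← mul_assoc]
      apply hmul
      refine Nat.mul_le_mul_right _ (Nat.mul_le_mul ?_ (Nat.sub_le p 1))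
      omega
    | loc f hf F =>
      have h1 := fun_of_ind (fun j x => if f j x then (1 : ZMod p) else 0)
        (fun j => hD n (f j) (hf j))
        (fun c => if F (fun j => decide (c j = 1)) then 1 else 0)
      have h2 : (fun x => if F (fun j => f j x) then (1 : ZMod p) else 0) =
          fun x => (fun c : Fin k → ZMod p =>
            if F (fun j => decide (c j = 1)) then (1 : ZMod p) else 0)
            (fun j => if f j x then (1 : ZMod p) else 0) := by
        funext x
        have h3 : (fun j => f j x) =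
            fun j => decide ((if f j x then (1 : ZMod p) else 0) = 1) := by
          funext j
          cases f j x
          · simp
          · simp
        show (if F (fun j => f j x) then (1 : ZMod p) else 0) =
          if F (fun j => decide ((if f j x then (1 : ZMod p) else 0) = 1)) then (1 : ZMod p) else 0
        rw [← h3]
      show (fun x => if F (fun j => f j x) then (1 : ZMod p) else 0) ∈
        lowDeg (Fin n) Bool (ZMod p) _
      rw [h2]
      refine lowDeg_mono ?_ h1
      apply hmul
      refine le_trans (Nat.mul_le_mul (show k ≤ a + k + 1 by omega) (Nat.sub_le p 1)) ?_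
      exact Nat.le_mul_of_pos_right _ hpa

end Pool.Agent.MP_ca1109_lc.Mpg
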