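import Pool.Agent.MP_ca1109_lc.Mpg.G3
import Pool.Agent.MP_ca1109_lc.Mpg.G4

/-!
# Programs over finite groups of prime power order
-/

namespace Pool.Agent.MP_ca1109_lc.Mpg

open Pool.Agent.H66 Finset

/- PROOF NOTES [MPG-G5].  More general induction statement (`Q`): for every finite `p`-group `Γ`
(`IsPGroup p Γ`) there is `D` such that for all `n` and all lists `L` of functions
`g : (Fin n → Bool) → Γ` each depending on at most one coordinate (`∃ i, DependsOn g {i}`, or the
instruction form), and all `γ`, the function `x ↦ [∏ g(x) = γ] : ZMod p` is in `lowDeg D`.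
Induction on `Nat.card Γ`.  `card = 1`: constant `1`.  Otherwise the centre is nontrivial
(`IsPGroup.center_nontrivial`) and contains an element `c` of order `p`
(`exists_prime_orderOf_dvd_card`, or a power of an element), `C = Subgroup.zpowers c` is central,
hence normal; `Q = Γ ⧸ C` is a smaller `p`-group (`IsPGroup.to_quotient`).  Let `σ : Q → Γ` be a
section (`Quotient.out`) and `lg : C → ZMod p` the bijective homomorphism `c ^ k ↦ k`
(`zmultiplesHom`/`zmodCyclicAddEquiv`, or simply define `lg` on `Γ` by choice with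
`lg (c ^ k) = k`, additive on `C`).
For a list `g_1, ..., g_N`, `q_j = ∏_{i ≤ j} π (g_i x) ∈ Q`, `c_j = σ(q_{j-1}) g_j σ(q_j)⁻¹ ∈ C`
(`q_0 = 1`; `σ(1)` need not be `1`: put `c_0 = σ(1)⁻¹ ∈ C`).  Then
`g_1 ⋯ g_N = (c_0 c_1 ⋯ c_N) σ(q_N)` (`C` is central; induction on `N`, appending on the right:
`List.reverseRecOn`).  `z x = lg (c_0 ⋯ c_N) = lg c_0 + ∑_j lg (c_j)`, and
`lg (c_j) = ∑_{q ∈ Q, g ∈ Γ} [q_{j-1} = q] [g_j x = g] lg (σ q · g · σ(q π g)⁻¹)` is in
`lowDeg (D_Q + 1)` (`lowDeg_mul`), uniformly in `N`.  Finally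
`[∏ g = γ] = ∑_{(ζ, q) : c^ζ σ(q) = γ} [z = ζ] [q_N = q]`, `[z = ζ] = 1 - (z - ζ) ^ (p-1)`:
`D_Γ = (p-1) (D_Q + 1) + D_Q`.
-/

/-- translations of functions on `Γ` -/
private def g5_T (p : ℕ) {Γ : Type} [Group Γ] (g : Γ) : (Γ → ZMod p) ≃+ (Γ → ZMod p) where
  toFun f := fun h => f (g⁻¹ * h)
  invFun f := fun h => f (g * h)
  left_inv f := by
    funext h
    show f (g⁻¹ * (g * h)) = f h
    rw [inv_mul_cancel_left]
  right_inv f := by
    funext h
    show f (g * (g⁻¹ * h)) = f h
    rw [mul_inv_cancel_left]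
  map_add' f f' := rfl

private theorem g5_T_mul (p : ℕ) {Γ : Type} [Group Γ] (g g' : Γ) (f : Γ → ZMod p) :
    g5_T p (g * g') f = g5_T p g (g5_T p g' f) := by
  funext h
  show f ((g * g')⁻¹ * h) = f (g'⁻¹ * (g⁻¹ * h))
  rw [mul_inv_rev, mul_assoc]

private theorem g5_T_one (p : ℕ) {Γ : Type} [Group Γ] (f : Γ → ZMod p) :
    g5_T p (1 : Γ) f = f := by
  funext h
  show f ((1 : Γ)⁻¹ * h) = f h
  rw [inv_one, one_mul]

private def g5_phi (p : ℕ) (Γ : Type) [Group Γ] : Γ →* MulAut (Multiplicative (Γ → ZMod p)) where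
  toFun g := AddEquiv.toMultiplicative (g5_T p g)
  map_one' := by
    apply MulEquiv.ext
    intro f
    exact congrArg Multiplicative.ofAdd (g5_T_one p f.toAdd)
  map_mul' g g' := by
    apply MulEquiv.ext
    intro f
    exact congrArg Multiplicative.ofAdd (g5_T_mul p g g' f.toAdd)

/-- iterated differences -/
private def g5_D (p : ℕ) {Γ : Type} [Group Γ] : List Γ → (Γ → ZMod p) → (Γ → ZMod p)
  | [], f => f
  | g :: l, f => g5_T p g (g5_D p l f) - g5_D p l f

open scoped commutatorElement in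
private theorem g5_mem (p : ℕ) {Γ : Type} [Group Γ] (l : List Γ) (f : Γ → ZMod p) :
    (SemidirectProduct.inl (Multiplicative.ofAdd (g5_D p l f)) :
      Multiplicative (Γ → ZMod p) ⋊[g5_phi p Γ] Γ) ∈
      (⊤ : Subgroup (Multiplicative (Γ → ZMod p) ⋊[g5_phi p Γ] Γ)).lowerCentralSeries l.length := by
  induction l with
  | nil => exact Subgroup.mem_top _
  | cons g l ih =>
    have h1 := Subgroup.commutator_mem_commutator ih
      (Subgroup.mem_top (SemidirectProduct.inr g :
        Multiplicative (Γ → ZMod p) ⋊[g5_phi p Γ] Γ))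
    rw [← Subgroup.lowerCentralSeries_succ] at h1
    have h2 := Subgroup.inv_mem _ h1
    rw [List.length_cons]
    have h3 : (⁅(SemidirectProduct.inl (Multiplicative.ofAdd (g5_D p l f)) :
        Multiplicative (Γ → ZMod p) ⋊[g5_phi p Γ] Γ),
        (SemidirectProduct.inr g : Multiplicative (Γ → ZMod p) ⋊[g5_phi p Γ] Γ)⁆)⁻¹ =
        SemidirectProduct.inl (Multiplicative.ofAdd (g5_D p (g :: l) f)) := by
      rw [commutatorElement_inv, commutatorElement_def,
        ← map_inv (SemidirectProduct.inr : Γ →* Multiplicative (Γ → ZMod p) ⋊[g5_phi p Γ] Γ),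
        ← SemidirectProduct.inl_aut, ← map_inv SemidirectProduct.inl, ← map_mul]
      congr 1
      show g5_phi p Γ g (Multiplicative.ofAdd (g5_D p l f)) *
        (Multiplicative.ofAdd (g5_D p l f))⁻¹ =
        Multiplicative.ofAdd (g5_T p g (g5_D p l f) - g5_D p l f)
      rw [sub_eq_add_neg]
      rfl
    rw [h3] at h2
    exact h2

private theorem g5_nilp {p : ℕ} (hp : p.Prime) (Γ : Type) [Group Γ] [Finite Γ] (hΓ : IsPGroup p Γ) :
    ∃ D : ℕ, ∀ (l : List Γ) (f : Γ → ZMod p), D ≤ l.length → g5_D p l f = 0 := by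
  have : Fact p.Prime := ⟨hp⟩
  have : Finite (Multiplicative (Γ → ZMod p) ⋊[g5_phi p Γ] Γ) :=
    Finite.of_equiv _ (SemidirectProduct.equivProd (N := Multiplicative (Γ → ZMod p))
      (G := Γ) (φ := g5_phi p Γ)).symm
  have hG : IsPGroup p (Multiplicative (Γ → ZMod p) ⋊[g5_phi p Γ] Γ) := by
    obtain ⟨k, hk⟩ := isPGroup_iff_card_dvd_pow.1 hΓ
    refine isPGroup_iff_card_dvd_pow.2 ⟨Nat.card Γ + k, ?_⟩
    rw [SemidirectProduct.card, pow_add]
    refine mul_dvd_mul ?_ hk
    have h1 : Nat.card (Multiplicative (Γ → ZMod p)) = p ^ Nat.card Γ := by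
      have h2 : Nat.card (Multiplicative (Γ → ZMod p)) = Nat.card (Γ → ZMod p) := rfl
      rw [h2, Nat.card_fun, Nat.card_zmod]
    rw [h1]
  have hnil : Group.IsNilpotent (Multiplicative (Γ → ZMod p) ⋊[g5_phi p Γ] Γ) := hG.isNilpotent
  obtain ⟨D, hD⟩ := Subgroup.nilpotent_iff_lowerCentralSeries.1 hnil
  refine ⟨D, fun l f hl => ?_⟩
  have h1 := g5_mem p l f
  have h2 := Subgroup.lowerCentralSeries_antitone
    (⊤ : Subgroup (Multiplicative (Γ → ZMod p) ⋊[g5_phi p Γ] Γ)) hl h1
  rw [hD, Subgroup.mem_bot] at h2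
  have h3 : (SemidirectProduct.inl (Multiplicative.ofAdd (g5_D p l f)) :
      Multiplicative (Γ → ZMod p) ⋊[g5_phi p Γ] Γ) = SemidirectProduct.inl 1 := by
    rw [h2, map_one]
  exact congrArg Multiplicative.toAdd (SemidirectProduct.inl_injective h3)

/-- the factor of one instruction -/
private def g5_v {Γ : Type} {n : ℕ} (t : Fin n × Γ × Γ) (x : Fin n → Bool) : Γ :=
  if x t.1 then t.2.2 else t.2.1

private theorem g5_sum (p : ℕ) {Γ : Type} [Group Γ] {n : ℕ} (l : List (Fin n × Γ × Γ))
    (x : Fin n → Bool) (f : Γ → ZMod p) :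
    g5_T p (progVal l x) f =
      (l.sublists'.map (fun S => g5_D p (S.map fun t => g5_v t x) f)).sum := by
  induction l with
  | nil =>
    have h1 : progVal ([] : List (Fin n × Γ × Γ)) x = 1 := rfl
    rw [h1, g5_T_one]
    simp [g5_D]
  | cons t l ih =>
    have h1 : progVal (t :: l) x = g5_v t x * progVal l x := by
      unfold progVal g5_v
      rw [List.map_cons, List.prod_cons]
    rw [h1, g5_T_mul, List.sublists'_cons, List.map_append, List.sum_append, List.map_map]
    have h2 : ((fun S : List (Fin n × Γ × Γ) => g5_D p (S.map fun t => g5_v t x) f) ∘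
        List.cons t) = fun S => g5_T p (g5_v t x) (g5_D p (S.map fun t => g5_v t x) f) -
          g5_D p (S.map fun t => g5_v t x) f := by
      funext S
      simp only [Function.comp_apply, List.map_cons, g5_D]
    rw [h2]
    have h3 : ∀ (M : List (List (Fin n × Γ × Γ))),
        (M.map (fun S => g5_T p (g5_v t x) (g5_D p (S.map fun t => g5_v t x) f) -
          g5_D p (S.map fun t => g5_v t x) f)).sum =
        g5_T p (g5_v t x) (M.map (fun S => g5_D p (S.map fun t => g5_v t x) f)).sum -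
          (M.map (fun S => g5_D p (S.map fun t => g5_v t x) f)).sum := by
      intro M
      induction M with
      | nil => simp
      | cons S M ihM =>
        rw [List.map_cons, List.sum_cons, ihM, List.map_cons, List.sum_cons, map_add]
        abel
    rw [h3, ← ih]
    abel

private theorem g5_dep (p : ℕ) {Γ : Type} [Group Γ] {n : ℕ} (S : List (Fin n × Γ × Γ))
    (f : Γ → ZMod p) (x y : Fin n → Bool)
    (h : ∀ i ∈ (S.map fun t => t.1).toFinset, x i = y i) :
    g5_D p (S.map fun t => g5_v t x) f = g5_D p (S.map fun t => g5_v t y) f := by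
  congr 1
  refine List.map_congr_left fun t ht => ?_
  unfold g5_v
  rw [h t.1 (by
    rw [List.mem_toFinset]
    exact List.mem_map.2 ⟨t, ht, rfl⟩)]

theorem prog_lowDeg {p : ℕ} (hp : p.Prime) (Γ : Type) [Group Γ] [Finite Γ] (hΓ : IsPGroup p Γ)
    [DecidableEq Γ] : ∃ D : ℕ, ∀ (n : ℕ) (l : List (Fin n × Γ × Γ)) (γ : Γ),
      (fun x => if progVal l x = γ then (1 : ZMod p) else 0) ∈ lowDeg (Fin n) Bool (ZMod p) D := by
  obtain ⟨D, hD⟩ := g5_nilp hp Γ hΓ
  refine ⟨D, fun n l γ => ?_⟩
  have h1 : (fun x : Fin n → Bool => if progVal l x = γ then (1 : ZMod p) else 0) =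
      (l.sublists'.map (fun S => fun x : Fin n → Bool =>
        g5_D p (S.map fun t => g5_v t x) (fun h => if h = 1 then 1 else 0) γ)).sum := by
    funext x
    have h2 := congrFun (g5_sum p l x (fun h => if h = 1 then 1 else 0)) γ
    have h3 : g5_T p (progVal l x) (fun h => if h = 1 then 1 else 0) γ =
        if progVal l x = γ then (1 : ZMod p) else 0 := by
      show (if (progVal l x)⁻¹ * γ = 1 then (1 : ZMod p) else 0) = _
      by_cases h : progVal l x = γ
      · rw [if_pos h, if_pos (by rw [h, inv_mul_cancel])]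
      · rw [if_neg h, if_neg]
        intro h'
        exact h (inv_mul_eq_one.1 h')
    have hs1 : ∀ M : List (Γ → ZMod p), M.sum γ = (M.map (fun F => F γ)).sum := fun M =>
      map_list_sum (Pi.evalAddMonoidHom (fun _ => ZMod p) γ) M
    have hs2 : ∀ M : List ((Fin n → Bool) → ZMod p), M.sum x = (M.map (fun F => F x)).sum :=
      fun M => map_list_sum (Pi.evalAddMonoidHom (fun _ => ZMod p) x) M
    rw [← h3, h2, hs1, hs2, List.map_map, List.map_map]
    rfl
  rw [h1]
  refine AddSubgroup.list_sum_mem _ fun F hF => ?_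
  obtain ⟨S, _, rfl⟩ := List.mem_map.1 hF
  by_cases hS : D ≤ S.length
  · have h4 : (fun x : Fin n → Bool =>
        g5_D p (S.map fun t => g5_v t x) (fun h => if h = 1 then 1 else 0) γ) = 0 := by
      funext x
      rw [hD _ _ (by rw [List.length_map]; exact hS)]
      rfl
    rw [h4]
    exact AddSubgroup.zero_mem _
  · refine junta_mem (S.map fun t => t.1).toFinset ?_ ?_
    · have h5 := List.toFinset_card_le (S.map fun t => t.1)
      rw [List.length_map] at h5
      omega
    · intro x y hxy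
      exact congrFun (g5_dep p S _ x y fun i hi => hxy i (Finset.mem_coe.2 hi)) γ

end Pool.Agent.MP_ca1109_lc.Mpg
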