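import Pool.Agent.MP_ca1109_lc.Mpg.G5

/-!
# Circuits with several primes and programs over nilpotent groups are low-degree tests
-/

namespace Pool.Agent.MP_ca1109_lc.Mpg

open Pool.Agent.H66 Finset

/- PROOF NOTES [MPG-G6].
`circ_low`: `q i = p_i ^ {a_i}` (`IsPrimePow`, `isPrimePow_nat_iff`), `D_i` from `modCirc_lowDeg` for `p_i`,
`m = ∏ i, p_i`, `d = ∑ D_i` (or sup), `J = Fin k`, `I_i x = [f_i x] : ZMod p_i`; `[b]` determines `b`
as `p_i ≠ 1`; `lowTest_of`, `lowDeg_mono`.  `m ≠ 0`.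
`prog_low`: `Group.isNilpotent_of_finite_tfae` (last item): `Γ ≃* ∀ p : (Nat.card Γ).primeFactors,
∀ P : Sylow p Γ, P`; let `J = Σ (p : (Nat.card Γ).primeFactors) (P : Sylow p Γ), P` (finite:
`Fintype.ofFinite`), and for `j = (p, P, γ)`: `I_j x = [π_{p,P} (progVal l x) = γ] : ZMod p`, where
`π_{p,P} : Γ →* P`; `π (progVal l x) = progVal (l.map ..) x` (`map_list_prod`), so
`prog_lowDeg` (`P.isPGroup'`) applies to the finitely many groups `P`; `m = ∏ of the primes` or
`Nat.card Γ` (each prime factor divides it, `≠ 0`).  The `I_j x` determine all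
`π_{p,P} (progVal l x)`, hence `progVal l x`, hence `T x`.  `d` = sum/sup of the finitely many `D`.
If `Γ` is trivial, `J` is empty: fine.
-/

theorem circ_low (k h : ℕ) (q : Fin k → ℕ) (hq : ∀ i, IsPrimePow (q i)) :
    ∃ m d k' : ℕ, 0 < m ∧ ∀ n T, CircTest k h q n T → LowTest m d k' n T := by
  have h1 : ∀ i, ∃ (p a D : ℕ), p.Prime ∧ q i = p ^ a ∧ ∀ (n : ℕ)
      (f : (Fin n → Bool) → Bool), ModCirc (q i) k h f →
        (fun x => if f x then (1 : ZMod p) else 0) ∈ lowDeg (Fin n) Bool (ZMod p) D := by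
    intro i
    obtain ⟨p, a, hp, _, hpa⟩ := (isPrimePow_nat_iff (q i)).1 (hq i)
    obtain ⟨D, hD⟩ := modCirc_lowDeg (a := a) hp k h
    refine ⟨p, a, D, hp, hpa.symm, fun n f hf => hD n f ?_⟩
    rw [hpa]
    exact hf
  choose p a D hp _ hD using h1
  have hm : 0 < ∏ i, p i := Finset.prod_pos fun i _ => (hp i).pos
  refine ⟨∏ i, p i, ∑ i, D i, Fintype.card (Fin k), hm, fun n T hT => ?_⟩
  obtain ⟨f, F, hf, hTF⟩ := hT
  have : NeZero (∏ i, p i) := ⟨hm.ne'⟩
  refine lowTest_of (J := Fin k) (m := ∏ i, p i) (d := ∑ i, D i) p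
    (fun j => Finset.dvd_prod_of_mem p (Finset.mem_univ j))
    (fun j x => if f j x then (1 : ZMod (p j)) else 0) (fun j => ?_) (fun x y hxy => ?_)
  · exact lowDeg_mono (Finset.single_le_sum (f := D) (fun i _ => Nat.zero_le _) (Finset.mem_univ j))
      (hD j n (f j) (hf j))
  · rw [hTF x, hTF y]
    congr 1
    funext j
    have h2 := hxy j
    have : Fact (p j).Prime := ⟨hp j⟩
    have h3 : (1 : ZMod (p j)) ≠ 0 := one_ne_zero
    by_cases hx : f j x = true
    · by_cases hy : f j y = true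
      · rw [hx, hy]
      · rw [if_pos hx, if_neg hy] at h2
        exact absurd h2 h3
    · by_cases hy : f j y = true
      · rw [if_neg hx, if_pos hy] at h2
        exact absurd h2.symm h3
      · rw [Bool.not_eq_true] at hx hy
        rw [hx, hy]

private theorem g6_progVal {Γ Δ : Type} [Group Γ] [Group Δ] (π : Γ →* Δ) {n : ℕ}
    (l : List (Fin n × Γ × Γ)) (x : Fin n → Bool) :
    progVal (l.map fun t => (t.1, π t.2.1, π t.2.2)) x = π (progVal l x) := by
  unfold progVal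
  rw [map_list_prod, List.map_map, List.map_map]
  congr 1
  refine List.map_congr_left fun t _ => ?_
  show (if x t.1 then π t.2.2 else π t.2.1) = π (if x t.1 then t.2.2 else t.2.1)
  cases x t.1 <;> rfl

theorem prog_low (Γ : Type) [Group Γ] [Finite Γ] (hΓ : Group.IsNilpotent Γ) :
    ∃ m d k : ℕ, 0 < m ∧ ∀ n T, ProgTest Γ n T → LowTest m d k n T := by
  classical
  obtain ⟨e⟩ := (Group.isNilpotent_of_finite_tfae (G := Γ)).out 0 4 rfl rfl |>.1 hΓ
  have : ∀ p : (Nat.card Γ).primeFactors, Finite (Sylow (p : ℕ) Γ) := fun p =>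
    Finite.of_injective (fun P : Sylow (p : ℕ) Γ => (P : Subgroup Γ)) fun P Q h => Sylow.ext h
  let I0 := Σ p : (Nat.card Γ).primeFactors, Sylow (p : ℕ) Γ
  have : Fintype I0 := Fintype.ofFinite _
  let π : ∀ i : I0, Γ →* (i.2 : Subgroup Γ) := fun i =>
    (Pi.evalMonoidHom (fun P : Sylow (i.1 : ℕ) Γ => (P : Subgroup Γ)) i.2).comp
      ((Pi.evalMonoidHom (fun p : (Nat.card Γ).primeFactors =>
        ∀ P : Sylow (p : ℕ) Γ, (P : Subgroup Γ)) i.1).comp e.symm.toMonoidHom)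
  have hπ : ∀ g g' : Γ, (∀ i, π i g = π i g') → g = g' := by
    intro g g' h
    apply e.symm.injective
    funext p P
    exact h ⟨p, P⟩
  have h1 : ∀ i : I0, ∃ D : ℕ, ∀ (n : ℕ) (l : List (Fin n × (i.2 : Subgroup Γ) × (i.2 : Subgroup Γ)))
      (γ : (i.2 : Subgroup Γ)),
      (fun x => if progVal l x = γ then (1 : ZMod (i.1 : ℕ)) else 0) ∈
        lowDeg (Fin n) Bool (ZMod (i.1 : ℕ)) D := fun i =>
    prog_lowDeg (Nat.prime_of_mem_primeFactors i.1.2) (i.2 : Subgroup Γ) i.2.isPGroup'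
  choose D hD using h1
  let J := Σ i : I0, (i.2 : Subgroup Γ)
  have : Fintype J := Fintype.ofFinite _
  have hm : 0 < Nat.card Γ := Nat.card_pos
  have : NeZero (Nat.card Γ) := ⟨hm.ne'⟩
  refine ⟨Nat.card Γ, ∑ i, D i, Fintype.card J, hm, fun n T hT => ?_⟩
  obtain ⟨l, A, hT⟩ := hT
  refine lowTest_of (J := J) (m := Nat.card Γ) (d := ∑ i, D i) (fun j => (j.1.1 : ℕ))
    (fun j => Nat.dvd_of_mem_primeFactors j.1.1.2)
    (fun j x => if progVal (l.map fun t => (t.1, π j.1 t.2.1, π j.1 t.2.2)) x = j.2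
      then (1 : ZMod (j.1.1 : ℕ)) else 0) (fun j => ?_) (fun x y hxy => ?_)
  · exact lowDeg_mono (Finset.single_le_sum (f := D) (fun i _ => Nat.zero_le _)
      (Finset.mem_univ j.1)) (hD j.1 n _ j.2)
  · rw [hT x, hT y]
    congr 1
    apply hπ
    intro i
    have h2 := hxy ⟨i, π i (progVal l x)⟩
    have hp : (i.1 : ℕ).Prime := Nat.prime_of_mem_primeFactors i.1.2
    have : Fact (i.1 : ℕ).Prime := ⟨hp⟩
    dsimp only at h2
    rw [g6_progVal (π i) l x, g6_progVal (π i) l y, if_pos rfl] at h2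
    by_contra h3
    rw [if_neg (fun h4 => h3 h4.symm)] at h2
    exact one_ne_zero h2

end Pool.Agent.MP_ca1109_lc.Mpg
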