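import Pool.Agent.MP_ca1109_lc.Mpg.G2
import Pool.Agent.MP_ca1109_lc.Mpg.G6
import Pool.Agent.MP_ca1109_lc.Mpg.H1

/-!
# The final theorem
-/

namespace Pool.Agent.MP_ca1109_lc.Mpg

open Pool.Agent.H66 Finset

theorem LogGen.gen {𝒯 : ∀ n : ℕ, ((Fin n → Bool) → Bool) → Prop} {ε : ℝ} (h : LogGen 𝒯 ε) :
    GenExists (fun n C => 𝒯 n C.eval) ε := by
  obtain ⟨D, G, hD, hG, hl, c, hc⟩ := h
  refine ⟨D, G, hD, hG, hl, c, ?_⟩
  filter_upwards [hc] with n hn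
  exact ⟨hn.1, hn.2.1, fun C hC _ => hn.2.2 C.eval hC⟩

theorem composite_generators :
    (∀ m d k : ℕ, 0 < m → ∀ ε > 0,
      LogGen (LowTest m d k) ε ∧ GenExists (fun n C => LowTest m d k n C.eval) ε) ∧
    (∀ (k h : ℕ) (q : Fin k → ℕ), (∀ i, IsPrimePow (q i)) → ∀ ε > 0, LogGen (CircTest k h q) ε) ∧
    (∀ (Γ : Type) [Group Γ] [Finite Γ], Group.IsNilpotent Γ → ∀ ε > 0, LogGen (ProgTest Γ) ε) ∧
    ∀ (m : ℕ) (g : ℕ → ℕ) (δ : ℝ), 2 ≤ m →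
      Filter.Tendsto (fun n : ℕ => (g n : ℝ) / Real.logb 2 n) Filter.atTop Filter.atTop → δ < 1 →
        GenExists (fun n C => LowTest m (g n) 1 n C.eval) δ → HardLanguage := by
  refine ⟨fun m d k hm ε hε => ?_, fun k h q hq ε hε => ?_, fun Γ _ _ hΓ ε hε => ?_,
    fun m g δ hm hg hδ h => hard_of_degree hg hm hδ h⟩
  · have : NeZero m := ⟨hm.ne'⟩
    exact ⟨logGen_low m d k hε, (logGen_low m d k hε).gen⟩
  · obtain ⟨m, d, k', hm, H⟩ := circ_low k h q hq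
    have : NeZero m := ⟨hm.ne'⟩
    exact (logGen_low m d k' hε).mono H
  · obtain ⟨m, d, k, hm, H⟩ := prog_low Γ hΓ
    have : NeZero m := ⟨hm.ne'⟩
    exact (logGen_low m d k hε).mono H

end Pool.Agent.MP_ca1109_lc.Mpg
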