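import Pool.Agent.MP_ca1109_lc.Mpg.G7

/-!
# Systems of arbitrarily many equations modulo `m`

`SysTest m d k n T`: the function `T` of `n` bits is an arbitrary function of the answers to `k`
questions `does x solve the i-th system`, where a system consists of arbitrarily many equations
`P x = 0` modulo `m` and `P` is a sum of functions of at most `d` input bits.
-/

namespace Pool.Agent.MP_ca1109_lc.Mpg

open Pool.Agent.H66 Finset

/-- `T` is a function of `k` systems of arbitrarily many equations `P i j x = 0` modulo `m`, where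
every `P i j` is a sum of functions of at most `d` input bits. -/
def SysTest (m d k n : ℕ) (T : (Fin n → Bool) → Bool) : Prop :=
  ∃ (L : ℕ) (P : Fin k → Fin L → (Fin n → Bool) → ZMod m) (F : (Fin k → Bool) → Bool),
    (∀ i j, P i j ∈ lowDeg (Fin n) Bool (ZMod m) d) ∧
    ∀ x, T x = F (fun i => decide (∀ j, P i j x = 0))

private theorem k1_av {A : Type*} [Fintype A] (g : A → Bool) :
    ((prob g : ℝ) : ℂ) = av (fun a => ((ind (g a) : ℝ) : ℂ)) := by
  rw [prob_eq_avg]
  unfold avg av
  push_cast
  rfl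

private theorem k1_av_sum {A C : Type*} [Fintype A] (s : Finset C) (b : C → ℂ) (f : C → A → ℂ) :
    av (fun a => ∑ c ∈ s, b c * f c a) = ∑ c ∈ s, b c * av (f c) := by
  unfold av
  rw [Finset.sum_comm, Finset.sum_div]
  refine Finset.sum_congr rfl fun c _ => ?_
  rw [← Finset.mul_sum, mul_div_assoc]

/-- The expansion of an arbitrary function of bits in products of bits. -/
private theorem k1_expand {k : ℕ} (F : (Fin k → Bool) → Bool) :
    ∃ a : Finset (Fin k) → ℂ, (∀ U, ‖a U‖ ≤ 2 ^ k) ∧ ∀ b : Fin k → Bool,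
      ((ind (F b) : ℝ) : ℂ) = ∑ U, a U * ∏ i ∈ U, ((ind (b i) : ℝ) : ℂ) := by
  classical
  refine ⟨fun U => ∑ c ∈ U.powerset, (-1 : ℂ) ^ (U \ c).card *
    ((ind (F fun i => decide (i ∈ c)) : ℝ) : ℂ), fun U => ?_, fun b => ?_⟩
  · refine (norm_sum_le _ _).trans ?_
    have h1 : ∀ c ∈ U.powerset, ‖(-1 : ℂ) ^ (U \ c).card *
        ((ind (F fun i => decide (i ∈ c)) : ℝ) : ℂ)‖ ≤ 1 := by
      intro c _
      rw [norm_mul, norm_pow, norm_neg, norm_one, one_pow, one_mul, Complex.norm_real,
        Real.norm_of_nonneg (ind_nonneg _)]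
      exact ind_le_one _
    refine (Finset.sum_le_sum h1).trans ?_
    rw [Finset.sum_const, Finset.card_powerset, nsmul_eq_mul, mul_one]
    push_cast
    refine pow_le_pow_right₀ (by norm_num) ?_
    exact (Finset.card_le_univ U).trans (by simp)
  · set B : Finset (Fin k) := univ.filter fun i => b i = true with hB
    have hprod : ∀ U : Finset (Fin k), (∏ i ∈ U, ((ind (b i) : ℝ) : ℂ)) = if U ⊆ B then 1 else 0 := by
      intro U
      by_cases hU : U ⊆ B
      · rw [if_pos hU]
        refine Finset.prod_eq_one fun i hi => ?_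
        have : b i = true := (Finset.mem_filter.1 (hU hi)).2
        rw [this]
        simp [ind]
      · rw [if_neg hU]
        obtain ⟨i, hi, hi'⟩ := Finset.not_subset.1 hU
        refine Finset.prod_eq_zero hi ?_
        have : b i = false := by
          rw [← Bool.not_eq_true]
          exact fun h => hi' (Finset.mem_filter.2 ⟨Finset.mem_univ _, h⟩)
        rw [this]
        simp [ind]
    have hb : b = fun i => decide (i ∈ B) := by
      funext i
      rw [hB]
      cases h : b i <;> simp [h]
    simp only [hprod, mul_ite, mul_one, mul_zero]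
    rw [← Finset.sum_filter]
    have e1 : (univ.filter fun U : Finset (Fin k) => U ⊆ B) = B.powerset := by
      ext U
      simp
    rw [e1]
    -- swap the two sums
    have e2 : ∑ U ∈ B.powerset, ∑ c ∈ U.powerset, (-1 : ℂ) ^ (U \ c).card *
        ((ind (F fun i => decide (i ∈ c)) : ℝ) : ℂ) =
        ∑ c ∈ B.powerset, (∑ U ∈ (B \ c).powerset, (-1 : ℂ) ^ U.card) *
          ((ind (F fun i => decide (i ∈ c)) : ℝ) : ℂ) := by
      rw [Finset.sum_comm' (s := B.powerset) (t := fun U => U.powerset) (t' := B.powerset)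
        (s' := fun c => B.powerset.filter fun U => c ⊆ U)]
      · refine Finset.sum_congr rfl fun c hc => ?_
        rw [← Finset.sum_mul]
        congr 1
        rw [Finset.mem_powerset] at hc
        refine Finset.sum_bij (fun U _ => U \ c) ?_ ?_ ?_ ?_
        · intro U hU
          rw [Finset.mem_filter, Finset.mem_powerset] at hU
          rw [Finset.mem_powerset]
          exact Finset.sdiff_subset_sdiff hU.1 (le_refl c)
        · intro U hU U' hU' h
          rw [Finset.mem_filter] at hU hU'
          rw [← Finset.sdiff_union_of_subset hU.2, ← Finset.sdiff_union_of_subset hU'.2, h]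
        · intro V hV
          rw [Finset.mem_powerset] at hV
          refine ⟨V ∪ c, ?_, ?_⟩
          · rw [Finset.mem_filter, Finset.mem_powerset]
            exact ⟨Finset.union_subset (hV.trans Finset.sdiff_subset) hc,
              Finset.subset_union_right⟩
          · rw [Finset.union_sdiff_cancel_right]
            rw [Finset.disjoint_left]
            intro i hi
            exact (Finset.mem_sdiff.1 (hV hi)).2
        · intro U _
          rfl
      · intro U c
        rw [Finset.mem_powerset, Finset.mem_powerset, Finset.mem_filter, Finset.mem_powerset,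
          Finset.mem_powerset]
        constructor
        · rintro ⟨h1, h2⟩
          exact ⟨⟨h1, h2⟩, h2.trans h1⟩
        · rintro ⟨⟨h1, h2⟩, -⟩
          exact ⟨h1, h2⟩
    rw [e2]
    have e3 : ∀ c ∈ B.powerset, c ≠ B → (∑ U ∈ (B \ c).powerset, (-1 : ℂ) ^ U.card) *
        ((ind (F fun i => decide (i ∈ c)) : ℝ) : ℂ) = 0 := by
      intro c hc hne
      have h1 : (∑ U ∈ (B \ c).powerset, (-1 : ℂ) ^ U.card) = 0 := by
        have h2 : ((∑ U ∈ (B \ c).powerset, (-1 : ℤ) ^ U.card : ℤ) : ℂ) = 0 := by
          rw [Finset.sum_powerset_neg_one_pow_card_of_nonempty]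
          · simp
          · rw [Finset.sdiff_nonempty]
            exact fun h => hne (Finset.Subset.antisymm (Finset.mem_powerset.1 hc) h)
        push_cast at h2
        exact h2
      rw [h1, zero_mul]
    rw [Finset.sum_eq_single_of_mem B (Finset.mem_powerset_self B) e3]
    rw [Finset.sdiff_self, Finset.powerset_empty, Finset.sum_singleton, Finset.card_empty,
      pow_zero, one_mul, ← hb]

/-- The product of the indicators of some systems is an average of phases. -/
private theorem k1_sys {m L k n : ℕ} [NeZero m] (P : Fin k → Fin L → (Fin n → Bool) → ZMod m)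
    (U : Finset (Fin k)) (x : Fin n → Bool) :
    (∏ i ∈ U, ((ind (decide (∀ j, P i j x = 0)) : ℝ) : ℂ)) =
      ∑ c : Fin k × Fin L → ZMod m, (1 / (m : ℂ) ^ (k * L)) *
        ph m (∑ p : Fin k × Fin L, c p * (if p.1 ∈ U then P p.1 p.2 x else 0)) := by
  classical
  have hm : (m : ℂ) ≠ 0 := by exact_mod_cast NeZero.ne m
  have h1 : ∀ w : ZMod m, ∑ c : ZMod m, ph m (c * w) = if w = 0 then (m : ℂ) else 0 := by
    intro w
    have := sum_ph_pi m 1 (fun _ => w)
    have e1 : ∑ c : Fin 1 → ZMod m, ph m (∑ i, c i * w) = ∑ c : ZMod m, ph m (c * w) := by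
      rw [← (Equiv.funUnique (Fin 1) (ZMod m)).symm.sum_comp]
      refine Finset.sum_congr rfl fun c _ => ?_
      simp [Equiv.funUnique]
    rw [e1] at this
    rw [this, pow_one]
    by_cases hw : w = 0
    · rw [if_pos hw, if_pos (by funext; exact hw)]
    · rw [if_neg hw, if_neg (fun h => hw (congrFun h 0))]
  rw [← Finset.mul_sum]
  have h2 : ∑ c : Fin k × Fin L → ZMod m,
      ph m (∑ p : Fin k × Fin L, c p * (if p.1 ∈ U then P p.1 p.2 x else 0)) =
      ∏ p : Fin k × Fin L, ∑ c : ZMod m, ph m (c * (if p.1 ∈ U then P p.1 p.2 x else 0)) := by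
    rw [Finset.prod_univ_sum, Fintype.piFinset_univ]
    exact Finset.sum_congr rfl fun c _ => ph_sum m _ _
  rw [h2]
  simp only [h1]
  by_cases hall : ∀ i ∈ U, ∀ j, P i j x = 0
  · have e1 : (∏ i ∈ U, ((ind (decide (∀ j, P i j x = 0)) : ℝ) : ℂ)) = 1 := by
      refine Finset.prod_eq_one fun i hi => ?_
      rw [decide_eq_true (hall i hi)]
      simp [ind]
    have e2 : (∏ p : Fin k × Fin L, if (if p.1 ∈ U then P p.1 p.2 x else 0) = 0 then (m : ℂ) else 0)
        = (m : ℂ) ^ (k * L) := by
      rw [Finset.prod_congr rfl (g := fun _ => (m : ℂ)), Finset.prod_const, Finset.card_univ,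
        Fintype.card_prod, Fintype.card_fin, Fintype.card_fin]
      intro p _
      by_cases hp : p.1 ∈ U
      · rw [if_pos hp, if_pos (hall _ hp _)]
      · rw [if_neg hp, if_pos rfl]
    rw [e1, e2, one_div, inv_mul_cancel₀ (pow_ne_zero _ hm)]
  · push Not at hall
    obtain ⟨i, hi, j, hij⟩ := hall
    have e1 : (∏ i ∈ U, ((ind (decide (∀ j, P i j x = 0)) : ℝ) : ℂ)) = 0 := by
      refine Finset.prod_eq_zero hi ?_
      rw [decide_eq_false (fun h => hij (h j))]
      simp [ind]
    have e2 : (∏ p : Fin k × Fin L, if (if p.1 ∈ U then P p.1 p.2 x else 0) = 0 then (m : ℂ) else 0)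
        = 0 := by
      refine Finset.prod_eq_zero (Finset.mem_univ (i, j)) ?_
      show (if (if i ∈ U then P i j x else 0) = 0 then (m : ℂ) else 0) = 0
      rw [if_pos hi, if_neg hij]
    rw [e1, e2, mul_zero]

theorem sys_error {m d k n : ℕ} [NeZero m] {T : (Fin n → Bool) → Bool} (hT : SysTest m d k n T)
    {S : Type} [Fintype S] (W : S → Fin n → Bool) {δ : ℝ}
    (h : ∀ f ∈ phCls m Bool d n, ‖av (fun s => f (W s)) - av f‖ ≤ δ) :
    |prob (fun s => T (W s)) - prob T| ≤ (4 : ℝ) ^ k * δ := by
  classical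
  obtain ⟨L, P, F, hP, hTF⟩ := hT
  obtain ⟨a, ha, hF⟩ := k1_expand F
  have hm0 : (0 : ℝ) < m := by exact_mod_cast Nat.pos_of_ne_zero (NeZero.ne m)
  have e0 : ∀ {A : Type} [Fintype A] (V : A → Fin n → Bool),
      ((prob (fun s => T (V s)) : ℝ) : ℂ) = ∑ U, a U * ∑ c : Fin k × Fin L → ZMod m,
        (1 / (m : ℂ) ^ (k * L)) * av (fun s => ph m (∑ p : Fin k × Fin L, c p *
          (if p.1 ∈ U then P p.1 p.2 (V s) else 0))) := by
    intro A _ V
    have e1 : (fun s => ((ind (T (V s)) : ℝ) : ℂ)) = fun s => ∑ U, a U *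
        ∑ c : Fin k × Fin L → ZMod m, (1 / (m : ℂ) ^ (k * L)) *
          ph m (∑ p : Fin k × Fin L, c p * (if p.1 ∈ U then P p.1 p.2 (V s) else 0)) := by
      funext s
      rw [hTF, hF]
      refine Finset.sum_congr rfl fun U _ => ?_
      rw [k1_sys P U (V s)]
    rw [k1_av, e1, k1_av_sum]
    refine Finset.sum_congr rfl fun U _ => ?_
    rw [k1_av_sum]
  have h1 : |prob (fun s => T (W s)) - prob T|
      = ‖((prob (fun s => T (W s)) : ℝ) : ℂ) - ((prob T : ℝ) : ℂ)‖ := by
    rw [← Complex.ofReal_sub, Complex.norm_real, Real.norm_eq_abs]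
  have h0 := e0 (fun x : Fin n → Bool => x)
  have hTT : (fun x : Fin n → Bool => T x) = T := rfl
  rw [hTT] at h0
  rw [h1, e0 W, h0, ← Finset.sum_sub_distrib]
  refine (norm_sum_le _ _).trans ?_
  have h2 : ∀ U ∈ (Finset.univ : Finset (Finset (Fin k))),
      ‖a U * ∑ c : Fin k × Fin L → ZMod m, (1 / (m : ℂ) ^ (k * L)) *
          av (fun s => ph m (∑ p : Fin k × Fin L, c p *
          (if p.1 ∈ U then P p.1 p.2 (W s) else 0))) -
        a U * ∑ c : Fin k × Fin L → ZMod m, (1 / (m : ℂ) ^ (k * L)) *
          av (fun x => ph m (∑ p : Fin k × Fin L, c p *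
          (if p.1 ∈ U then P p.1 p.2 x else 0)))‖ ≤ 2 ^ k * δ := by
    intro U _
    rw [← mul_sub, ← Finset.sum_sub_distrib, norm_mul]
    have h3 : ∀ c : Fin k × Fin L → ZMod m, ‖(1 / (m : ℂ) ^ (k * L)) *
          av (fun s => ph m (∑ p : Fin k × Fin L, c p *
          (if p.1 ∈ U then P p.1 p.2 (W s) else 0))) -
        (1 / (m : ℂ) ^ (k * L)) *
          av (fun x => ph m (∑ p : Fin k × Fin L, c p *
          (if p.1 ∈ U then P p.1 p.2 x else 0)))‖ ≤ (1 / (m : ℝ) ^ (k * L)) * δ := by
      intro c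
      rw [← mul_sub, norm_mul]
      have hmem : (fun x => ph m (∑ p : Fin k × Fin L, c p *
          (if p.1 ∈ U then P p.1 p.2 x else 0))) ∈ phCls m Bool d n := by
        refine ⟨fun x => ∑ p : Fin k × Fin L, c p * (if p.1 ∈ U then P p.1 p.2 x else 0), ?_, rfl⟩
        have h3 : (fun x : Fin n → Bool => ∑ p : Fin k × Fin L, c p *
            (if p.1 ∈ U then P p.1 p.2 x else 0))
            = ∑ p : Fin k × Fin L, (fun x => (AddMonoidHom.mulLeft (c p))
              (if p.1 ∈ U then P p.1 p.2 x else 0)) := by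
          funext x
          rw [Finset.sum_apply]
          rfl
        rw [h3]
        refine AddSubgroup.sum_mem _ fun p _ => lowDeg_hom _ ?_
        by_cases hp : p.1 ∈ U
        · simp only [if_pos hp]
          exact hP _ _
        · simp only [if_neg hp]
          exact lowDeg_const 0
      have h4 := h _ hmem
      have h5 : ‖(1 / (m : ℂ) ^ (k * L))‖ = 1 / (m : ℝ) ^ (k * L) := by
        rw [norm_div, norm_one, norm_pow, Complex.norm_natCast]
      rw [h5]
      exact mul_le_mul_of_nonneg_left h4 (by positivity)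
    have h6 : ‖∑ c : Fin k × Fin L → ZMod m, ((1 / (m : ℂ) ^ (k * L)) *
          av (fun s => ph m (∑ p : Fin k × Fin L, c p *
          (if p.1 ∈ U then P p.1 p.2 (W s) else 0))) -
        (1 / (m : ℂ) ^ (k * L)) *
          av (fun x => ph m (∑ p : Fin k × Fin L, c p *
          (if p.1 ∈ U then P p.1 p.2 x else 0))))‖ ≤ δ := by
      refine (norm_sum_le _ _).trans ((Finset.sum_le_sum fun c _ => h3 c).trans (le_of_eq ?_))
      rw [Finset.sum_const, Finset.card_univ, Fintype.card_fun, ZMod.card, Fintype.card_prod,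
        Fintype.card_fin, Fintype.card_fin, nsmul_eq_mul]
      push_cast
      rw [← mul_assoc, mul_one_div, div_self (pow_ne_zero _ hm0.ne'), one_mul]
    exact mul_le_mul (ha U) h6 (norm_nonneg _) (by positivity)
  refine (Finset.sum_le_sum h2).trans (le_of_eq ?_)
  rw [Finset.sum_const, Finset.card_univ, Fintype.card_finset, Fintype.card_fin, nsmul_eq_mul]
  push_cast
  rw [← mul_assoc, ← mul_pow]
  norm_num

end Pool.Agent.MP_ca1109_lc.Mpg
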