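import Pool.Agent.MP_ca1109_lc.Mpg.K1

/-!
# Boolean combinations of systems of arbitrarily many equations

`SysTest` (file `K1`) allows only answers to systems of equations; `MixTest` allows in addition the
values of `k` functions; both are the same up to the constant `k`.
-/

namespace Pool.Agent.MP_ca1109_lc.Mpg

open Pool.Agent.H66 Finset

/-- `T` is an arbitrary function of the residues `P i x` modulo `m` and of the answers to the
questions whether `x` solves the `i`-th system of equations `Q i j x = 0` modulo `m`, `i < k`.  The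
number of equations is arbitrary, all `P i` and `Q i j` are sums of functions of at most `d` input
bits. -/
def MixTest (m d k n : ℕ) (T : (Fin n → Bool) → Bool) : Prop :=
  ∃ (L : ℕ) (P : Fin k → (Fin n → Bool) → ZMod m) (Q : Fin k → Fin L → (Fin n → Bool) → ZMod m)
    (F : (Fin k → ZMod m) → (Fin k → Bool) → Bool),
    (∀ i, P i ∈ lowDeg (Fin n) Bool (ZMod m) d) ∧
    (∀ i j, Q i j ∈ lowDeg (Fin n) Bool (ZMod m) d) ∧
    ∀ x, T x = F (fun i => P i x) (fun i => decide (∀ j, Q i j x = 0))

/-- `T` is an arbitrary function of `k` bits, each of which is the conjunction of arbitrarily many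
functions computed by circuits of depth at most `h` and of any size, with gates of fan-in `k` and
gates modulo `q` for one `q ∈ Q` (different circuits may have different `q`). -/
def CircSysTest (k h : ℕ) (Q : Finset ℕ) (n : ℕ) (T : (Fin n → Bool) → Bool) : Prop :=
  ∃ (L : ℕ) (f : Fin k → Fin L → (Fin n → Bool) → Bool) (F : (Fin k → Bool) → Bool),
    (∀ i j, ∃ q ∈ Q, ModCirc q k h (f i j)) ∧ ∀ x, T x = F (fun i => decide (∀ j, f i j x = true))

/-- `T` is an arbitrary function of the values of `k` programs over `Γ` and of `k` bits, each of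
which tells whether all of arbitrarily many programs over `Γ` have prescribed values. -/
def ProgSysTest (Γ : Type) [Group Γ] (k n : ℕ) (T : (Fin n → Bool) → Bool) : Prop :=
  ∃ (L : ℕ) (l : Fin k → List (Fin n × Γ × Γ)) (l' : Fin k → Fin L → List (Fin n × Γ × Γ))
    (γ : Fin k → Fin L → Γ) (A : (Fin n → Bool) → Fin k → Bool)
    (F : (Fin k → Γ) → (Fin k → Bool) → Bool),
    (∀ x i, A x i = true ↔ ∀ j, progVal (l' i j) x = γ i j) ∧
    ∀ x, T x = F (fun i => progVal (l i) x) (A x)

/-- The truth set of `f` is the zero set of a function of low degree modulo a divisor of `m`. -/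
def Equ (m d n : ℕ) (f : (Fin n → Bool) → Prop) : Prop :=
  ∃ q : ℕ, q ∣ m ∧ ∃ I ∈ lowDeg (Fin n) Bool (ZMod q) d, ∀ x, f x ↔ I x = 0

theorem Equ.mod {m d n : ℕ} [NeZero m] {f : (Fin n → Bool) → Prop} (h : Equ m d n f) :
    ∃ P ∈ lowDeg (Fin n) Bool (ZMod m) d, ∀ x, f x ↔ P x = 0 := by
  obtain ⟨q, hq, I, hI, hf⟩ := h
  obtain ⟨φ, hφ⟩ := embed hq
  refine ⟨fun x => φ (I x), lowDeg_hom φ hI, fun x => ?_⟩
  rw [hf x, map_eq_zero_iff φ hφ]

theorem sysTest_of {K J : Type} [Fintype K] [Fintype J] {m d n : ℕ} [NeZero m]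
    (f : K → J → (Fin n → Bool) → Prop) (hf : ∀ i j, Equ m d n (f i j))
    {T : (Fin n → Bool) → Bool}
    (hT : ∀ x y, (∀ i, (∀ j, f i j x) ↔ (∀ j, f i j y)) → T x = T y) :
    SysTest m d (Fintype.card K) n T := by
  classical
  have h1 : ∀ i j, ∃ P ∈ lowDeg (Fin n) Bool (ZMod m) d, ∀ x, f i j x ↔ P x = 0 :=
    fun i j => (hf i j).mod
  choose P hP hfP using h1
  obtain ⟨e⟩ : Nonempty (K ≃ Fin (Fintype.card K)) := ⟨Fintype.equivFin K⟩
  obtain ⟨e'⟩ : Nonempty (J ≃ Fin (Fintype.card J)) := ⟨Fintype.equivFin J⟩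
  let B : (Fin n → Bool) → Fin (Fintype.card K) → Bool := fun x i =>
    decide (∀ j, P (e.symm i) (e'.symm j) x = 0)
  refine ⟨Fintype.card J, fun i j => P (e.symm i) (e'.symm j), fun v =>
    if h : ∃ x, B x = v then T h.choose else false, fun i j => hP _ _, fun x => ?_⟩
  have h : ∃ y, B y = B x := ⟨x, rfl⟩
  show T x = if h : ∃ y, B y = B x then T h.choose else false
  rw [dif_pos h]
  apply hT
  intro i
  have h2 := congrFun h.choose_spec (e i)
  have h3 : ∀ y, B y (e i) = true ↔ ∀ j, f i j y := by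
    intro y
    show decide (∀ j, P (e.symm (e i)) (e'.symm j) y = 0) = true ↔ _
    rw [decide_eq_true_iff, e.symm_apply_apply]
    constructor
    · intro h4 j
      rw [hfP]
      have := h4 (e' j)
      rwa [e'.symm_apply_apply] at this
    · intro h4 j
      rw [← hfP]
      exact h4 _
  rw [← h3, ← h3, h2]

theorem MixTest.sys {m d k n : ℕ} [NeZero m] {T : (Fin n → Bool) → Bool} (h : MixTest m d k n T) :
    SysTest m d (k * m + k) n T := by
  obtain ⟨L, P, Q, F, hP, hQ, hT⟩ := h
  have hcard : Fintype.card ((Fin k × ZMod m) ⊕ Fin k) = k * m + k := by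
    rw [Fintype.card_sum, Fintype.card_prod, Fintype.card_fin, ZMod.card]
  rw [← hcard]
  have hsub : ∀ (i : Fin k) (a : ZMod m), (fun x => P i x - a) ∈ lowDeg (Fin n) Bool (ZMod m) d :=
    fun i a => AddSubgroup.sub_mem _ (hP i) (lowDeg_const a)
  refine sysTest_of (K := (Fin k × ZMod m) ⊕ Fin k) (J := Fin L ⊕ Unit) (m := m) (d := d)
    (fun c j x => match c, j with
      | Sum.inl (i, a), _ => P i x = a
      | Sum.inr i, Sum.inl j => Q i j x = 0
      | Sum.inr _, Sum.inr _ => True) ?_ ?_
  · rintro (⟨i, a⟩ | i) (j | j)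
    · exact ⟨m, dvd_rfl, _, hsub i a, fun x => sub_eq_zero.symm⟩
    · exact ⟨m, dvd_rfl, _, hsub i a, fun x => sub_eq_zero.symm⟩
    · exact ⟨m, dvd_rfl, _, hQ i j, fun x => Iff.rfl⟩
    · exact ⟨m, dvd_rfl, _, lowDeg_const 0, fun x => by simp⟩
  · intro x y hxy
    rw [hT x, hT y]
    congr 1
    · funext i
      have h1 := hxy (Sum.inl (i, P i x))
      exact ((h1.1 fun _ => rfl) (Sum.inr ())).symm
    · funext i
      have h1 := hxy (Sum.inr i)
      have h2 : (∀ j, Q i j x = 0) ↔ ∀ j, Q i j y = 0 := by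
        constructor
        · intro h3 j
          refine (h1.1 ?_) (Sum.inl j)
          rintro (j | j)
          · exact h3 j
          · trivial
        · intro h3 j
          refine (h1.2 ?_) (Sum.inl j)
          rintro (j | j)
          · exact h3 j
          · trivial
      exact decide_eq_decide.2 h2

theorem LowTest.mix {m d k n : ℕ} {T : (Fin n → Bool) → Bool} (h : LowTest m d k n T) :
    MixTest m d k n T := by
  obtain ⟨P, F, hP, hT⟩ := h
  exact ⟨0, P, fun _ j => j.elim0, fun v _ => F v, hP, fun _ j => j.elim0, hT⟩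

end Pool.Agent.MP_ca1109_lc.Mpg
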