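import Pool.Agent.MP_ca1109_lc.Mpg.K2

/-!
# Logarithmic-seed generators for systems of arbitrarily many equations
-/

namespace Pool.Agent.MP_ca1109_lc.Mpg

open Pool.Agent.H66 Finset

private theorem k3_letter (a : ℕ) (ha : a < 2) :
    finTwoEquiv (Fin.ofNat 2 a) = decide (a = 1) := by
  have h : a = 0 ∨ a = 1 := by omega
  rcases h with rfl | rfl <;> rfl

private theorem k3_word (n : ℕ) (l : List ℕ) (hl : l.length = n) (h2 : ∀ a ∈ l, a < 2) :
    bits n (l.map fun a => decide (a = 1)) = word finTwoEquiv n l := by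
  funext i
  unfold bits word
  have hi : (i : ℕ) < l.length := by rw [hl]; exact i.2
  have hi' : (i : ℕ) < (l.map fun a => decide (a = 1)).length := by
    rw [List.length_map]; exact hi
  rw [List.getD_eq_getElem _ _ hi', List.getD_eq_getElem _ _ hi, List.getElem_map]
  exact (k3_letter _ (h2 _ (List.getElem_mem hi))).symm

theorem logGen_sys (m d k : ℕ) [NeZero m] {ε : ℝ} (hε : 0 < ε) : LogGen (SysTest m d k) ε := by
  have hm : (0 : ℝ) < (4 : ℝ) ^ k := by positivity
  have hδ : 0 < ε / (4 : ℝ) ^ k := div_pos hε hm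
  obtain ⟨D, G, hD, hG, hgr, hl, hf⟩ := gen_phase m d (finTwoEquiv : Fin 2 ≃ Bool) hδ
  obtain ⟨c, hc⟩ := growth hgr
  refine ⟨D, fun n s => (G n s).map fun a => decide (a = 1), hD, ?_, fun n s _ => ?_, c, ?_⟩
  · exact PolyTime.map (l := fun p : ℕ × List Bool => G p.1 p.2)
      (f := fun _ a => decide (a = 1)) hG (PolyTime.eqb PolyTime.snd (PolyTime.const 1))
  · rw [List.length_map]; exact (hl n s).1
  · filter_upwards [hc] with n hn
    refine ⟨hn.1, hn.2, fun T hT => ?_⟩
    have h1 := sys_error hT (fun s : Fin (D n) → Bool => word finTwoEquiv n (G n (List.ofFn s)))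
      (hf n)
    rw [mul_div_cancel₀ _ hm.ne'] at h1
    have h2 : (fun s : Fin (D n) → Bool =>
        T (bits n ((G n (List.ofFn s)).map fun a => decide (a = 1))))
        = fun s : Fin (D n) → Bool => T (word finTwoEquiv n (G n (List.ofFn s))) := by
      funext s
      rw [k3_word n _ (hl n _).1 (hl n _).2]
    rw [h2]
    exact h1

/-- Circuits with gates modulo several prime powers. -/
theorem circ_sys (k h : ℕ) (Q : Finset ℕ) (hQ : ∀ q ∈ Q, IsPrimePow q) :
    ∃ m d k' : ℕ, 0 < m ∧ ∀ n T, CircSysTest k h Q n T → SysTest m d k' n T := by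
  classical
  have h1 : ∀ q : {q // q ∈ Q}, ∃ (p D : ℕ), p.Prime ∧ ∀ (n : ℕ)
      (f : (Fin n → Bool) → Bool), ModCirc q k h f →
        (fun x => if f x then (1 : ZMod p) else 0) ∈ lowDeg (Fin n) Bool (ZMod p) D := by
    rintro ⟨q, hq⟩
    obtain ⟨p, a, hp, _, hpa⟩ := (isPrimePow_nat_iff q).1 (hQ q hq)
    obtain ⟨D, hD⟩ := modCirc_lowDeg (a := a) hp k h
    refine ⟨p, D, hp, fun n f hf => hD n f ?_⟩
    rw [hpa]
    exact hf
  choose p D hp hD using h1
  have hm : 0 < ∏ q, p q := Finset.prod_pos fun q _ => (hp q).pos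
  refine ⟨∏ q, p q, ∑ q, D q, Fintype.card (Fin k), hm, fun n T hT => ?_⟩
  obtain ⟨L, f, F, hf, hTF⟩ := hT
  have : NeZero (∏ q, p q) := ⟨hm.ne'⟩
  refine sysTest_of (K := Fin k) (J := Fin L) (fun i j x => f i j x = true) (fun i j => ?_) ?_
  · obtain ⟨q, hq, hfq⟩ := hf i j
    have h2 := hD ⟨q, hq⟩ n (f i j) hfq
    have : Fact (p ⟨q, hq⟩).Prime := ⟨hp _⟩
    refine ⟨p ⟨q, hq⟩, Finset.dvd_prod_of_mem p (Finset.mem_univ _),
      fun x => (1 : ZMod (p ⟨q, hq⟩)) - (if f i j x then (1 : ZMod (p ⟨q, hq⟩)) else 0), ?_,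
      fun x => ?_⟩
    · exact AddSubgroup.sub_mem _ (lowDeg_const 1) (lowDeg_mono
        (Finset.single_le_sum (f := D) (fun i _ => Nat.zero_le _) (Finset.mem_univ _)) h2)
    · show f i j x = true ↔ (1 : ZMod (p ⟨q, hq⟩)) -
        (if f i j x = true then (1 : ZMod (p ⟨q, hq⟩)) else 0) = 0
      by_cases hx : f i j x = true <;> simp [hx]
  · intro x y hxy
    rw [hTF x, hTF y]
    congr 1
    funext i
    exact decide_eq_decide.2 (hxy i)

private theorem k3_progVal {Γ Δ : Type} [Group Γ] [Group Δ] (π : Γ →* Δ) {n : ℕ}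
    (l : List (Fin n × Γ × Γ)) (x : Fin n → Bool) :
    progVal (l.map fun t => (t.1, π t.2.1, π t.2.2)) x = π (progVal l x) := by
  unfold progVal
  rw [map_list_prod, List.map_map, List.map_map]
  congr 1
  refine List.map_congr_left fun t _ => ?_
  show (if x t.1 then π t.2.2 else π t.2.1) = π (if x t.1 then t.2.2 else t.2.1)
  cases x t.1 <;> rfl

/-- Systems of programs over a nilpotent group. -/
theorem prog_sys (Γ : Type) [Group Γ] [Finite Γ] (hΓ : Group.IsNilpotent Γ) (k : ℕ) :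
    ∃ m d k' : ℕ, 0 < m ∧ ∀ n T, ProgSysTest Γ k n T → SysTest m d k' n T := by
  classical
  obtain ⟨e⟩ := (Group.isNilpotent_of_finite_tfae (G := Γ)).out 0 4 rfl rfl |>.1 hΓ
  have : Fintype Γ := Fintype.ofFinite _
  have : ∀ p : (Nat.card Γ).primeFactors, Finite (Sylow (p : ℕ) Γ) := fun p =>
    Finite.of_injective (fun P : Sylow (p : ℕ) Γ => (P : Subgroup Γ)) fun P Q h => Sylow.ext h
  let I0 := Σ p : (Nat.card Γ).primeFactors, Sylow (p : ℕ) Γ
  have : Fintype I0 := Fintype.ofFinite _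
  let π : ∀ i : I0, Γ →* (i.2 : Subgroup Γ) := fun i =>
    (Pi.evalMonoidHom (fun P : Sylow (i.1 : ℕ) Γ => (P : Subgroup Γ)) i.2).comp
      ((Pi.evalMonoidHom (fun p : (Nat.card Γ).primeFactors =>
        ∀ P : Sylow (p : ℕ) Γ, (P : Subgroup Γ)) i.1).comp e.symm.toMonoidHom)
  have hπ : ∀ g g' : Γ, (∀ i, π i g = π i g') → g = g' := by
    intro g g' h
    apply e.symm.injective
    funext p P
    exact h ⟨p, P⟩
  have h1 : ∀ i : I0, ∃ D : ℕ, ∀ (n : ℕ) (l : List (Fin n × (i.2 : Subgroup Γ) × (i.2 : Subgroup Γ)))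
      (γ : (i.2 : Subgroup Γ)),
      (fun x => if progVal l x = γ then (1 : ZMod (i.1 : ℕ)) else 0) ∈
        lowDeg (Fin n) Bool (ZMod (i.1 : ℕ)) D := fun i =>
    prog_lowDeg (Nat.prime_of_mem_primeFactors i.1.2) (i.2 : Subgroup Γ) i.2.isPGroup'
  choose D hD using h1
  have hm : 0 < Nat.card Γ := Nat.card_pos
  have : NeZero (Nat.card Γ) := ⟨hm.ne'⟩
  refine ⟨Nat.card Γ, ∑ i, D i, Fintype.card ((Fin k × Γ) ⊕ Fin k), hm, fun n T hT => ?_⟩
  obtain ⟨L, l, l', γ, A, F, hA, hT⟩ := hT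
  -- the equation which says that the `c`-th component of the value is prescribed
  have hE : ∀ (w : List (Fin n × Γ × Γ)) (g : Γ) (c : I0),
      Equ (Nat.card Γ) (∑ i, D i) n fun x => π c (progVal w x) = π c g := by
    intro w g c
    have hp : (c.1 : ℕ).Prime := Nat.prime_of_mem_primeFactors c.1.2
    have : Fact (c.1 : ℕ).Prime := ⟨hp⟩
    refine ⟨c.1, Nat.dvd_of_mem_primeFactors c.1.2, fun x => (1 : ZMod (c.1 : ℕ)) -
      (if progVal (w.map fun t => (t.1, π c t.2.1, π c t.2.2)) x = π c g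
        then (1 : ZMod (c.1 : ℕ)) else 0), ?_, fun x => ?_⟩
    · exact AddSubgroup.sub_mem _ (lowDeg_const 1) (lowDeg_mono
        (Finset.single_le_sum (f := D) (fun i _ => Nat.zero_le _) (Finset.mem_univ _)) (hD c n _ _))
    · show π c (progVal w x) = π c g ↔ (1 : ZMod (c.1 : ℕ)) -
        (if progVal (w.map fun t => (t.1, π c t.2.1, π c t.2.2)) x = π c g
        then (1 : ZMod (c.1 : ℕ)) else 0) = 0
      rw [k3_progVal (π c) w x]
      by_cases hx : π c (progVal w x) = π c g <;> simp [hx]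
  let E : (Fin k × Γ) ⊕ Fin k → Option (Fin L) × I0 → (Fin n → Bool) → Prop := fun b j x =>
    match b, j with
      | Sum.inl (i, g), (_, c) => π c (progVal (l i) x) = π c g
      | Sum.inr i, (some j, c) => π c (progVal (l' i j) x) = π c (γ i j)
      | Sum.inr _, (none, _) => True
  refine sysTest_of (K := (Fin k × Γ) ⊕ Fin k) (J := Option (Fin L) × I0) E ?_ ?_
  · rintro (⟨i, g⟩ | i) ⟨_ | j, c⟩
    · exact hE _ _ _
    · exact hE _ _ _
    · exact ⟨Nat.card Γ, dvd_rfl, _, lowDeg_const 0, fun x => by simp [E]⟩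
    · exact hE _ _ _
  · intro x y hxy
    rw [hT x, hT y]
    congr 1
    · funext i
      refine (hπ _ _ fun c => ?_).symm
      exact ((hxy (Sum.inl (i, progVal (l i) x))).1 fun _ => rfl) (none, c)
    · funext i
      have h1 := hxy (Sum.inr i)
      have h2 : ∀ z, (∀ j, progVal (l' i j) z = γ i j) ↔ ∀ j, E (Sum.inr i) j z := by
        intro z
        constructor
        · rintro h3 ⟨_ | j, c⟩
          · trivial
          · show π c (progVal (l' i j) z) = π c (γ i j)
            rw [h3 j]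
        · intro h3 j
          exact hπ _ _ fun c => h3 (some j, c)
      have h3 : A x i = true ↔ A y i = true := by
        rw [hA, hA, h2, h2]
        exact h1
      exact Bool.eq_iff_iff.2 h3

end Pool.Agent.MP_ca1109_lc.Mpg
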