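import Pool.Agent.MP_ca1109_lc.Mpg.K3
import Pool.Agent.MP_ca1109_lc.Mpg.H1

/-!
# The final theorem
-/

namespace Pool.Agent.MP_ca1109_lc.Mpg

open Pool.Agent.H66 Finset

theorem LogGen.toCircuits {𝒯 : ∀ n : ℕ, ((Fin n → Bool) → Bool) → Prop} {ε : ℝ} (h : LogGen 𝒯 ε) :
    GenExists (fun n C => 𝒯 n C.eval) ε := by
  obtain ⟨D, G, hD, hG, hl, c, hc⟩ := h
  refine ⟨D, G, hD, hG, hl, c, ?_⟩
  filter_upwards [hc] with n hn
  exact ⟨hn.1, hn.2.1, fun C hC _ => hn.2.2 C.eval hC⟩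

theorem system_generators :
    (∀ m d k : ℕ, 0 < m → ∀ ε > 0,
      LogGen (MixTest m d k) ε ∧ GenExists (fun n C => MixTest m d k n C.eval) ε) ∧
    (∀ (k h : ℕ) (Q : Finset ℕ), (∀ q ∈ Q, IsPrimePow q) → ∀ ε > 0,
      LogGen (CircSysTest k h Q) ε) ∧
    (∀ (Γ : Type) [Group Γ] [Finite Γ], Group.IsNilpotent Γ → ∀ k : ℕ, ∀ ε > 0,
      LogGen (ProgSysTest Γ k) ε) ∧
    ∀ (m : ℕ) (g : ℕ → ℕ) (δ : ℝ), 2 ≤ m →
      Filter.Tendsto (fun n : ℕ => (g n : ℝ) / Real.logb 2 n) Filter.atTop Filter.atTop → δ < 1 →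
        GenExists (fun n C => LowTest m (g n) 1 n C.eval) δ → HardLanguage := by
  refine ⟨fun m d k hm ε hε => ?_, fun k h Q hQ ε hε => ?_, fun Γ _ _ hΓ k ε hε => ?_,
    fun m g δ hm hg hδ h => hard_of_degree hg hm hδ h⟩
  · have : NeZero m := ⟨hm.ne'⟩
    have h1 : LogGen (MixTest m d k) ε :=
      (logGen_sys m d (k * m + k) hε).mono fun n T hT => hT.sys
    exact ⟨h1, h1.toCircuits⟩
  · obtain ⟨m, d, k', hm, H⟩ := circ_sys k h Q hQ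
    have : NeZero m := ⟨hm.ne'⟩
    exact (logGen_sys m d k' hε).mono H
  · obtain ⟨m, d, k', hm, H⟩ := prog_sys Γ hΓ k
    have : NeZero m := ⟨hm.ne'⟩
    exact (logGen_sys m d k' hε).mono H

end Pool.Agent.MP_ca1109_lc.Mpg
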